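import Pool.Agent.Lib.MP_107960_al.H95.Check

/-!
# Boundedness of the ideal generated by triple commutators and the cancellation principle
-/

namespace Pool.Agent.Lib.MP_107960_al.H95

universe u

/-- the pairs `(A, L)` -/
structure Pr (A : Type u) [Ring A] (L : AddSubgroup A) : Prop where
  h3 : (3 : A) = 0
  cl : ∀ x ∈ L, ∀ y ∈ L, x * y - y * x ∈ L
  gen : Subring.closure (L : Set A) = ⊤

/-- `L` satisfies the multilinear identities `Γ` -/
def Md {A : Type u} [Ring A] (Γ : List Poly) (L : AddSubgroup A) : Prop := ∀ p ∈ Γ, Good L p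

/-- products of `M` triple commutators with interspersed factors vanish -/
def NilJ {A : Type u} [Ring A] (M : ℕ) (L : AddSubgroup A) : Prop :=
  ∀ (a t : Fin M → A), (∀ i, ∃ x ∈ L, ∃ y ∈ L, ∃ z ∈ L,
    t i = (x * y - y * x) * z - z * (x * y - y * x)) →
    (List.ofFn (fun i => a i * t i)).prod = 0

/-- bounded nilpotency of `J` modulo `Γ` -/
def Bd (Γ : List Poly) : Prop :=
  ∃ M : ℕ, ∀ (A : Type u) [Ring A] (L : AddSubgroup A), Pr A L → Md Γ L → NilJ M L

/-- multilinear -/
def Ml (p : Poly) : Prop := ∃ W : List ℕ, W.Nodup ∧ ∀ t ∈ p, t.2.Perm W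

section
variable {A : Type u} [Ring A] {L : AddSubgroup A}

/-- values of a polynomial on `L` -/
def Val (L : AddSubgroup A) (p : Poly) : Set A := {x | ∃ v : ℕ → A, (∀ i, v i ∈ L) ∧ x = ev v p}

lemma wd_der (v : ℕ → A) (x : A) (w : List ℕ) (hw : w.Nodup) :
    x * wd v w - wd v w * x
      = (w.map fun i => wd (Function.update v i (x * v i - v i * x)) w).sum := by
  induction w with
  | nil => simp
  | cons a w ih =>
    rw [List.nodup_cons] at hw
    rw [List.map_cons, List.sum_cons, wd_cons, wd_cons, Function.update_self,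
      wd_update_of_not_mem _ hw.1]
    have h1 : (w.map fun i => wd (Function.update v i (x * v i - v i * x)) (a :: w)).sum
        = v a * (w.map fun i => wd (Function.update v i (x * v i - v i * x)) w).sum := by
      rw [← List.sum_map_mul_left]
      congr 1
      apply List.map_congr_left
      intro i hi
      have : a ≠ i := by rintro rfl; exact hw.1 hi
      rw [wd_cons, Function.update_of_ne this]
    rw [h1, ← ih hw.2]
    noncomm_ring

lemma ev_der (v : ℕ → A) (x : A) (p : Poly) (W : List ℕ) (hW : W.Nodup)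
    (hp : ∀ t ∈ p, t.2.Perm W) :
    x * ev v p - ev v p * x
      = (W.map fun i => ev (Function.update v i (x * v i - v i * x)) p).sum := by
  induction p with
  | nil => simp
  | cons t p ih =>
    have ht := hp t List.mem_cons_self
    have h2 : x * wd v t.2 - wd v t.2 * x
        = (W.map fun i => wd (Function.update v i (x * v i - v i * x)) t.2).sum := by
      rw [wd_der v x t.2 (ht.nodup_iff.mpr hW)]
      exact (ht.map _).sum_eq
    have h1 := ih (fun t' ht' => hp t' (List.mem_cons_of_mem _ ht'))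
    have h4 : (W.map fun i => ev (Function.update v i (x * v i - v i * x)) (t :: p)).sum
        = (t.1 : A) * (W.map fun i => wd (Function.update v i (x * v i - v i * x)) t.2).sum
          + (W.map fun i => ev (Function.update v i (x * v i - v i * x)) p).sum := by
      rw [← List.sum_map_mul_left, ← List.sum_map_add]
      rfl
    rw [h4, ← h2, ← h1, ev_cons]
    have hc : x * (t.1 : A) = (t.1 : A) * x := (Nat.cast_commute t.1 x).eq.symm
    rw [mul_add, add_mul, ← mul_assoc x, hc]
    noncomm_ring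

lemma der_mem (hP : Pr A L) {p : Poly} (hp : Ml p) {x : A} (hx : x ∈ L) {y : A}
    (hy : y ∈ AddSubgroup.closure (Val L p)) :
    x * y - y * x ∈ AddSubgroup.closure (Val L p) := by
  classical
  obtain ⟨W, hW, hpW⟩ := hp
  induction hy using AddSubgroup.closure_induction with
  | mem y hy =>
    obtain ⟨v, hv, rfl⟩ := hy
    rw [ev_der v x p W hW hpW]
    apply AddSubgroup.list_sum_mem
    intro z hz
    rw [List.mem_map] at hz
    obtain ⟨i, -, rfl⟩ := hz
    apply AddSubgroup.subset_closure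
    refine ⟨_, ?_, rfl⟩
    intro j
    by_cases hj : j = i
    · subst hj; rw [Function.update_self]; exact hP.cl x hx _ (hv j)
    · rw [Function.update_of_ne hj]; exact hv j
  | zero => simp
  | add a b _ _ ha hb =>
    have : x * (a + b) - (a + b) * x = (x * a - a * x) + (x * b - b * x) := by noncomm_ring
    rw [this]; exact AddSubgroup.add_mem _ ha hb
  | neg a _ ha =>
    have : x * (-a) - (-a) * x = -(x * a - a * x) := by noncomm_ring
    rw [this]; exact AddSubgroup.neg_mem _ ha

/-- the left ideal generated by the values -/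
def VI (L : AddSubgroup A) (p : Poly) : Ideal A := Ideal.span (Val L p)

lemma closure_le_VI (p : Poly) {y : A} (hy : y ∈ AddSubgroup.closure (Val L p)) :
    y ∈ VI L p := by
  have : AddSubgroup.closure (Val L p) ≤ (VI L p).toAddSubgroup := by
    rw [AddSubgroup.closure_le]
    exact Ideal.subset_span
  exact this hy

lemma val_mul (hP : Pr A L) {p : Poly} (hp : Ml p) {y : A}
    (hy : y ∈ AddSubgroup.closure (Val L p)) (b : A) : y * b ∈ VI L p := by
  have hb : b ∈ Subring.closure (L : Set A) := by rw [hP.gen]; trivial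
  induction hb using Subring.closure_induction generalizing y with
  | mem x hx =>
    have h1 : y * x = x * y - (x * y - y * x) := by noncomm_ring
    rw [h1]
    exact (VI L p).sub_mem ((VI L p).mul_mem_left _ (closure_le_VI p hy))
      (closure_le_VI p (der_mem hP hp hx hy))
  | zero => simp
  | one => rw [mul_one]; exact closure_le_VI p hy
  | add a b _ _ ha hb => rw [mul_add]; exact (VI L p).add_mem (ha hy) (hb hy)
  | neg a _ ha => rw [mul_neg]; exact (VI L p).neg_mem (ha hy)
  | mul a b _ _ ha hb =>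
    rw [← mul_assoc]
    have h1 : ∀ z ∈ VI L p, z * b ∈ VI L p := by
      intro z hz
      unfold VI at hz
      induction hz using Submodule.span_induction with
      | mem z hz => exact hb (AddSubgroup.subset_closure hz)
      | zero => simp
      | add u w _ _ hu hw => rw [add_mul]; exact (VI L p).add_mem hu hw
      | smul c z _ hz => rw [smul_eq_mul, mul_assoc]; exact (VI L p).mul_mem_left _ hz
    exact h1 _ (ha hy)

lemma VI_twoSided (hP : Pr A L) {p : Poly} (hp : Ml p) : (VI L p).IsTwoSided := by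
  refine ⟨fun {a} b ha => ?_⟩
  unfold VI at ha
  induction ha using Submodule.span_induction with
  | mem z hz => exact val_mul hP hp (AddSubgroup.subset_closure hz) b
  | zero => simp
  | add u w _ _ hu hw => rw [add_mul]; exact (VI L p).add_mem hu hw
  | smul c z _ hz => rw [smul_eq_mul, mul_assoc]; exact (VI L p).mul_mem_left _ hz

lemma map_wd {B : Type u} [Ring B] (f : A →+* B) (v : ℕ → A) (w : List ℕ) :
    f (wd v w) = wd (fun i => f (v i)) w := by
  induction w with
  | nil => simp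
  | cons a w ih => rw [wd_cons, wd_cons, map_mul, ih]

lemma map_ev {B : Type u} [Ring B] (f : A →+* B) (v : ℕ → A) (p : Poly) :
    f (ev v p) = ev (fun i => f (v i)) p := by
  induction p with
  | nil => simp
  | cons t p ih => rw [ev_cons, ev_cons, map_add, map_mul, map_natCast, ih, map_wd]

/-- passing to the quotient by the ideal of the values of `g` -/
lemma quot_nil {Γ : List Poly} {g : Poly} {M : ℕ}
    (hM : ∀ (A : Type u) [Ring A] (L : AddSubgroup A), Pr A L → Md (g :: Γ) L → NilJ M L)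
    (hP : Pr A L) (hΓ : Md Γ L) (hg : Ml g) (a t : Fin M → A)
    (ht : ∀ i, ∃ x ∈ L, ∃ y ∈ L, ∃ z ∈ L,
    t i = (x * y - y * x) * z - z * (x * y - y * x)) :
    (List.ofFn (fun i => a i * t i)).prod ∈ VI L g := by
  have := VI_twoSided hP hg
  let f : A →+* A ⧸ (VI L g) := Ideal.Quotient.mk (VI L g)
  let L' : AddSubgroup (A ⧸ (VI L g)) := L.map f.toAddMonoidHom
  have hmem : ∀ x ∈ L, f x ∈ L' := fun x hx => ⟨x, hx, rfl⟩
  have hP' : Pr (A ⧸ (VI L g)) L' := by
    refine ⟨?_, ?_, ?_⟩
    · have h3 : f 3 = 0 := by rw [hP.h3, map_zero]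
      rw [map_ofNat] at h3
      exact h3
    · rintro _ ⟨x, hx, rfl⟩ _ ⟨y, hy, rfl⟩
      exact ⟨x * y - y * x, hP.cl x hx y hy, by simp⟩
    · have h1 : (L' : Set (A ⧸ (VI L g))) = f '' (L : Set A) := rfl
      rw [h1, ← RingHom.map_closure, hP.gen]
      rw [← RingHom.range_eq_map]
      exact RingHom.range_eq_top.mpr Ideal.Quotient.mk_surjective
  have hMd : Md (g :: Γ) L' := by
    have hval : ∀ v' : ℕ → A ⧸ (VI L g), (∀ i, v' i ∈ L') →
        ∃ v : ℕ → A, (∀ i, v i ∈ L) ∧ ∀ q : Poly, ev v' q = f (ev v q) := by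
      intro v' hv'
      choose v hv hvv using hv'
      refine ⟨v, hv, fun q => ?_⟩
      rw [map_ev]
      congr 1
      funext i
      exact (hvv i).symm
    intro q hq
    rcases List.mem_cons.mp hq with rfl | hq
    · refine ⟨hg, fun v' hv' => ?_⟩
      obtain ⟨v, hv, h⟩ := hval v' hv'
      rw [h]
      exact Ideal.Quotient.eq_zero_iff_mem.mpr (Ideal.subset_span ⟨v, hv, rfl⟩)
    · refine ⟨(hΓ q hq).1, fun v' hv' => ?_⟩
      obtain ⟨v, hv, h⟩ := hval v' hv'
      rw [h, (hΓ q hq).2 v hv, map_zero]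
  have key := hM _ L' hP' hMd (fun i => f (a i)) (fun i => f (t i)) (by
    intro i
    obtain ⟨x, hx, y, hy, z, hz, h⟩ := ht i
    refine ⟨f x, hmem x hx, f y, hmem y hy, f z, hmem z hz, ?_⟩
    rw [h]; simp)
  rw [← Ideal.Quotient.eq_zero_iff_mem]
  have h1 : f ((List.ofFn (fun i => a i * t i)).prod)
      = (List.ofFn (fun i => f (a i) * f (t i))).prod := by
    rw [map_list_prod, List.map_ofFn]
    congr 2
  change f ((List.ofFn (fun i => a i * t i)).prod) = 0
  rw [h1]
  exact key

lemma VI_mul_VI (hP : Pr A L) {g p : Poly} (hg : Ml g)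
    (h : ∀ l l' : ℕ → A, (∀ i, l i ∈ L) → (∀ i, l' i ∈ L) → ev l g * ev l' p = 0)
    {x y : A} (hx : x ∈ VI L g) (hy : y ∈ VI L p) : x * y = 0 := by
  have := VI_twoSided hP hg
  have h1 : ∀ x ∈ VI L g, ∀ l' : ℕ → A, (∀ i, l' i ∈ L) → x * ev l' p = 0 := by
    intro x hx l' hl'
    unfold VI at hx
    induction hx using Submodule.span_induction with
    | mem z hz => obtain ⟨l, hl, rfl⟩ := hz; exact h l l' hl hl'
    | zero => simp
    | add u w _ _ hu hw => rw [add_mul, hu, hw, add_zero]
    | smul c z _ hz => rw [smul_eq_mul, mul_assoc, hz, mul_zero]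
  unfold VI at hy
  induction hy using Submodule.span_induction generalizing x with
  | mem z hz => obtain ⟨l, hl, rfl⟩ := hz; exact h1 x hx l hl
  | zero => simp
  | add u w _ _ hu hw => rw [mul_add, hu hx, hw hx, add_zero]
  | smul c z _ hz =>
    rw [smul_eq_mul, ← mul_assoc]
    exact hz (Ideal.mul_mem_right c _ hx)

end

/-- THE CANCELLATION PRINCIPLE -/
theorem Bd_cancel {Γ : List Poly} {g p : Poly} (hg : Ml g) (hp : Ml p)
    (h : ∀ (A : Type u) [Ring A] (L : AddSubgroup A), Pr A L → Md Γ L →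
      ∀ l l' : ℕ → A, (∀ i, l i ∈ L) → (∀ i, l' i ∈ L) → ev l g * ev l' p = 0)
    (h1 : Bd.{u} (g :: Γ)) (h2 : Bd.{u} (p :: Γ)) : Bd.{u} Γ := by
  obtain ⟨M1, hM1⟩ := h1
  obtain ⟨M2, hM2⟩ := h2
  refine ⟨M1 + M2, ?_⟩
  intro A _ L hP hΓ a t ht
  rw [List.ofFn_add, List.prod_append]
  apply VI_mul_VI hP hg (h A L hP hΓ)
  · exact quot_nil hM1 hP hΓ hg (fun i => a (Fin.castAdd M2 i)) (fun i => t (Fin.castAdd M2 i))
      (fun i => ht _)
  · exact quot_nil hM2 hP hΓ hp (fun i => a (Fin.natAdd M1 i)) (fun i => t (Fin.natAdd M1 i))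
      (fun i => ht _)

/-- consequences -/
theorem Bd_of_imp {Γ Γ' : List Poly}
    (h : ∀ (A : Type u) [Ring A] (L : AddSubgroup A), Pr A L → Md Γ' L → Md Γ L)
    (h1 : Bd.{u} Γ) : Bd.{u} Γ' := by
  obtain ⟨M, hM⟩ := h1
  exact ⟨M, fun A _ L hP hΓ => hM A L hP (h A L hP hΓ)⟩

theorem Bd_mono {Γ Γ' : List Poly} (h : ∀ p ∈ Γ, p ∈ Γ') (h1 : Bd.{u} Γ) : Bd.{u} Γ' :=
  Bd_of_imp (fun _ _ _ _ hM p hp => hM p (h p hp)) h1

/-- if triple commutators vanish then `J = 0` -/
theorem Bd_triv {Γ : List Poly}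
    (h : ∀ (A : Type u) [Ring A] (L : AddSubgroup A), Pr A L → Md Γ L →
      ∀ x ∈ L, ∀ y ∈ L, ∀ z ∈ L, (x * y - y * x) * z - z * (x * y - y * x) = 0) : Bd.{u} Γ := by
  refine ⟨1, fun A _ L hP hΓ a t ht => ?_⟩
  obtain ⟨x, hx, y, hy, z, hz, hh⟩ := ht 0
  rw [h A L hP hΓ x hx y hy z hz] at hh
  simp [hh]

/-- the letter -/
def pX : Poly := [(1, [0])]
/-- the commutator `[x,y]` -/
def pC : Poly := [(1, [0, 1]), (2, [1, 0])]
/-- the triple commutator -/
def pT : Poly := [(1, [0, 1, 2]), (2, [1, 0, 2]), (2, [2, 0, 1]), (1, [2, 1, 0])]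

lemma ev_pC {R : Type u} [Ring R] (h3 : (3 : R) = 0) (v : ℕ → R) :
    ev v pC = v 0 * v 1 - v 1 * v 0 := by
  simp only [pC, ev_cons, ev_nil, wd_cons, wd_nil]
  push_cast
  rw [two_eq h3]; noncomm_ring

lemma ev_pT {R : Type u} [Ring R] (h3 : (3 : R) = 0) (v : ℕ → R) :
    ev v pT = (v 0 * v 1 - v 1 * v 0) * v 2 - v 2 * (v 0 * v 1 - v 1 * v 0) := by
  simp only [pT, ev_cons, ev_nil, wd_cons, wd_nil]
  push_cast
  rw [two_eq h3]; noncomm_ring

theorem Bd_pT (Γ : List Poly) : Bd.{u} (pT :: Γ) := by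
  apply Bd_triv
  intro A _ L hP hM x hx y hy z hz
  have h := (hM pT List.mem_cons_self).2 (fun i => if i = 0 then x else if i = 1 then y else z)
    (by intro i; by_cases h0 : i = 0 <;> by_cases h1 : i = 1 <;> simp [h0, h1, hx, hy, hz])
  rw [ev_pT hP.h3] at h
  simpa using h

theorem Bd_pC (Γ : List Poly) : Bd.{u} (pC :: Γ) := by
  apply Bd_triv
  intro A _ L hP hM x hx y hy z hz
  have h := (hM pC List.mem_cons_self).2 (fun i => if i = 0 then x else y)
    (by intro i; by_cases h0 : i = 0 <;> simp [h0, hx, hy])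
  rw [ev_pC hP.h3] at h
  have h' : x * y - y * x = 0 := by simpa using h
  rw [h']; simp

theorem Bd_pX (Γ : List Poly) : Bd.{u} (pX :: Γ) := by
  apply Bd_triv
  intro A _ L hP hM x hx y hy z hz
  have h : ∀ x ∈ L, x = 0 := by
    intro x hx
    have h := (hM pX List.mem_cons_self).2 (fun _ => x) (fun _ => hx)
    simpa [pX] using h
  rw [h x hx]; simp

end Pool.Agent.Lib.MP_107960_al.H95
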