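import Pool.Agent.Lib.MP_107960_al.H95.Gens

namespace Pool.Agent.Lib.MP_107960_al.H95

universe u

open Pool.Agent.Lib.MP_107960_al.H53

namespace CI

/-- left factor -/
def g : Poly := [(1,[0,0,1]),(2,[1,0,0])]

/-- right factor -/
def p : Poly := [(1,[2,3,2,3]),(2,[2,3,3,2]),(2,[3,2,2,3]),(1,[3,2,3,2])]

/-- certificate -/
def its : List (List Item) := [[⟨1,[3,1,2],0,[[0],[0],[2],[3]],[true,true,false,false],[]⟩,
  ⟨1,[1,0],0,[[0],[2],[3],[2,3]],[true,false,false,false],[]⟩,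
  ⟨1,[2,1,3],0,[[0],[0],[2],[3]],[true,true,false,false],[]⟩,
  ⟨2,[3,1],0,[[0],[0],[2],[2,3]],[true,true,false,false],[]⟩,
  ⟨2,[2,2],1,[[0],[1],[3],[0],[3]],[true,false,false,true,false],[]⟩,
  ⟨1,[3,0],1,[[2],[2],[3],[0],[1]],[false,false,false,true,false],[]⟩,
  ⟨2,[2,3,3],0,[[0],[0],[1],[2]],[true,true,false,false],[]⟩,
  ⟨1,[3,3],0,[[0],[0],[2],[1,2]],[true,true,false,false],[]⟩,
  ⟨1,[2,2,3],0,[[0],[0],[1],[3]],[true,true,false,false],[]⟩,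
  ⟨2,[0,3],0,[[0],[2],[3],[1,2]],[true,false,false,false],[]⟩,
  ⟨2,[2,1],0,[[0],[0],[3],[2,3]],[true,true,false,false],[]⟩,
  ⟨1,[0,2],0,[[0],[2],[3],[1,3]],[true,false,false,false],[]⟩,
  ⟨1,[0,1],0,[[0],[2],[3],[2,3]],[true,false,false,false],[]⟩,
  ⟨2,[1],1,[[2],[2],[3],[0],[0,3]],[false,false,false,true,true],[]⟩,
  ⟨1,[2,0],0,[[0],[2],[3],[1,3]],[true,false,false,false],[]⟩,
  ⟨2,[2,0,3],0,[[0],[1],[2],[3]],[true,false,false,false],[]⟩,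
  ⟨2,[0,0],0,[[1],[2],[3],[2,3]],[false,false,false,false],[]⟩,
  ⟨2,[3,2],0,[[0],[0],[3],[1,2]],[true,true,false,false],[]⟩,
  ⟨1,[2,3],0,[[1],[2],[3],[0,0]],[false,false,false,false],[]⟩,
  ⟨1,[2,0],1,[[2],[3],[3],[0],[1]],[false,false,false,true,false],[]⟩,
  ⟨1,[2,3],1,[[0],[1],[3],[0],[2]],[true,false,false,true,false],[]⟩,
  ⟨2,[3,2],0,[[1],[2],[3],[0,0]],[false,false,false,false],[]⟩,
  ⟨2,[3],0,[[2],[3],[1,2],[0,0]],[false,false,false,false],[]⟩,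
  ⟨1,[3,2,0],0,[[0],[1],[2],[3]],[true,false,false,false],[]⟩,
  ⟨2,[2],0,[[1],[2],[3],[0,3,0]],[false,false,false,false],[]⟩],
  [⟨2,[3,2],0,[[0],[0],[1],[2,3]],[true,true,false,false],[]⟩,
  ⟨1,[2],0,[[2],[3],[1,3],[0,0]],[false,false,false,false],[]⟩,
  ⟨2,[3],1,[[0],[1],[2,3],[0],[2]],[true,false,false,true,false],[]⟩,
  ⟨2,[3],0,[[1],[2],[2,3],[0,0]],[false,false,false,false],[]⟩,
  ⟨1,[2,0],0,[[0],[1],[3],[2,3]],[true,false,false,false],[]⟩,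
  ⟨1,[2],0,[[1],[3],[2,3],[0,0]],[false,false,false,false],[]⟩,
  ⟨2,[2],1,[[0],[3],[3],[0],[1,2]],[true,false,false,true,false],[]⟩,
  ⟨1,[],1,[[2],[3],[3],[1],[0,2,0]],[false,false,false,false,false],[]⟩,
  ⟨1,[],1,[[2],[2,3],[0,1],[0],[3]],[false,false,true,true,false],[]⟩,
  ⟨1,[],1,[[3],[1,2],[0,3],[0],[2]],[false,false,true,true,false],[]⟩,
  ⟨2,[3],1,[[0],[2],[2],[0],[1,3]],[true,false,false,true,false],[]⟩,
  ⟨1,[3],0,[[1],[2],[3],[0,2,0]],[false,false,false,false],[]⟩,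
  ⟨1,[2],1,[[0],[1],[3],[0],[2,3]],[true,false,false,true,false],[]⟩,
  ⟨1,[3,0],0,[[0],[1],[2],[2,3]],[true,false,false,false],[]⟩,
  ⟨1,[3,2],1,[[0],[1],[3],[0],[2]],[true,false,false,true,false],[]⟩,
  ⟨1,[0],1,[[2],[3],[3],[0],[1,2]],[false,false,false,true,false],[]⟩,
  ⟨1,[0],1,[[2],[2],[3],[0],[1,3]],[false,false,false,true,false],[]⟩,
  ⟨2,[0],1,[[0],[1],[2],[3],[2,3]],[true,false,false,false,false],[]⟩,
  ⟨1,[2],1,[[0],[3],[1,3],[0],[2]],[true,false,false,true,false],[]⟩,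
  ⟨1,[3],1,[[0],[3],[1,2],[0],[2]],[true,false,false,true,false],[]⟩,
  ⟨1,[2],1,[[1],[3],[0,3],[0],[2]],[false,false,true,true,false],[]⟩,
  ⟨2,[3],1,[[1],[2],[0,3],[0],[2]],[false,false,true,true,false],[]⟩,
  ⟨1,[0],1,[[0],[1],[3],[2],[2,3]],[true,false,false,false,false],[]⟩,
  ⟨1,[3],1,[[1],[2],[0,2],[0],[3]],[false,false,true,true,false],[]⟩,
  ⟨1,[],1,[[2],[1,3],[0,2],[0],[3]],[false,false,true,true,false],[]⟩],
  [⟨2,[],1,[[2],[1,3],[0,3],[0],[2]],[false,false,true,true,false],[]⟩,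
  ⟨2,[],1,[[3],[1,2],[0,2],[0],[3]],[false,false,true,true,false],[]⟩,
  ⟨1,[],1,[[3],[2,3],[0,2],[0],[1]],[false,false,true,true,false],[]⟩,
  ⟨2,[],1,[[2],[2,3],[0,3],[0],[1]],[false,false,true,true,false],[]⟩,
  ⟨2,[1,3],0,[[0],[2],[3],[0,2]],[true,false,false,true],[]⟩,
  ⟨1,[1,2],0,[[0],[2],[3],[0,3]],[true,false,false,true],[]⟩,
  ⟨1,[],1,[[2],[3],[0,1,0],[2],[3]],[false,false,false,false,false],[]⟩,
  ⟨2,[3,3],1,[[0],[1],[2],[0],[2]],[true,false,false,true,false],[]⟩,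
  ⟨1,[],1,[[2],[2],[3],[1],[0,3,0]],[false,false,false,false,false],[]⟩,
  ⟨2,[1],1,[[2],[3],[3],[0],[0,2]],[false,false,false,true,true],[]⟩,
  ⟨2,[2],1,[[1],[3],[0,2],[0],[3]],[false,false,true,true,false],[]⟩,
  ⟨1,[3,0,2],0,[[0],[1],[2],[3]],[true,false,false,false],[]⟩,
  ⟨2,[],1,[[3],[2,3],[0,1],[0],[2]],[false,false,true,true,false],[]⟩]]

theorem chk : check [pP, pF] [true,false,false,false] its (pmul g p) = true := by decide +kernel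

/-- relabelling -/
def τ (j : ℕ) : ℕ := [0,2,0,0,0,0,1,0,0].getD j 0
/-- relabelling -/
def σ (j : ℕ) : ℕ := [0,0,0,2,0,0,0,1,3].getD j 0

end CI

/-- step CI -/
theorem step_CI : Van.{u} [pP, pF] pT pS := by
  intro A _ L hP hM l l' hl hl'
  obtain ⟨X⟩ := exists_SExt A hP.h3
  have h0 : HH X L (pr [true,false,false,false]) CI.g CI.p :=
    HH_of_check hP hM X CI.chk
  have h1 := HH_polL' 0 6 (by decide +kernel) h0
  have h2 := HH_polR' 2 7 (by decide +kernel) h1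
  have h3 := HH_polR' 3 8 (by decide +kernel) h2
  exact HH_out hP.h3 [0,1,6] [2,3,7,8] (mlB_sound (by decide +kernel)) (mlB_sound (by decide +kernel))
    (by decide) (by decide) h3 CI.τ CI.σ pT pS (by decide +kernel) (by decide +kernel) l l' hl hl'

end Pool.Agent.Lib.MP_107960_al.H95
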