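import Pool.Agent.Lib.MP_107960_al.H95.II2C0
import Pool.Agent.Lib.MP_107960_al.H95.II2C1
import Pool.Agent.Lib.MP_107960_al.H95.II2C2
import Pool.Agent.Lib.MP_107960_al.H95.II2C3
import Pool.Agent.Lib.MP_107960_al.H95.II2C4

namespace Pool.Agent.Lib.MP_107960_al.H95

universe u

open Pool.Agent.Lib.MP_107960_al.H53

namespace II2

theorem chkr : checkr 5 [r6, pF] [true,true,true,false,true] its (pmul g p) = true := by decide +kernel

/-- relabelling -/
def τ (j : ℕ) : ℕ := [0,0,0,0,0,0,1,0,0].getD j 0
/-- relabelling -/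
def σ (j : ℕ) : ℕ := [0,1,2,5,0,0,0,3,4].getD j 0

end II2

/-- step II2 -/
theorem step_II2 : Van.{u} [r6, pF] pC r6p := by
  intro A _ L hP hM l l' hl hl'
  obtain ⟨X⟩ := exists_SExt A hP.h3
  have h0 : HH X L (pr [true,true,true,false,true]) II2.g II2.p :=
    HH_of_checkj hP hM X 5 (by decide) II2.chkr (by
      intro j hj
      interval_cases j
      · exact II2.chk0
      · exact II2.chk1
      · exact II2.chk2
      · exact II2.chk3
      · exact II2.chk4)
  have h1 := HH_polL' 4 6 (by decide +kernel) h0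
  have h2 := HH_polR' 0 7 (by decide +kernel) h1
  have h3 := HH_polR' 1 8 (by decide +kernel) h2
  exact HH_out hP.h3 [4,6] [0,1,2,3,7,8] (mlB_sound (by decide +kernel)) (mlB_sound (by decide +kernel))
    (by decide) (by decide) h3 II2.τ II2.σ pC r6p (by decide +kernel) (by decide +kernel) l l' hl hl'

end Pool.Agent.Lib.MP_107960_al.H95
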