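import Pool.Agent.Lib.MP_107960_al.H95.II4Data

namespace Pool.Agent.Lib.MP_107960_al.H95

universe u

open Pool.Agent.Lib.MP_107960_al.H53

theorem II4.chk2 : checkj 2 [r5, r6p, r6, pF] [true,true,true,true] its (pmul g p) = true := by decide +kernel

end Pool.Agent.Lib.MP_107960_al.H95
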