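import Pool.Agent.Lib.MP_107960_al.H95.II1
import Pool.Agent.Lib.MP_107960_al.H95.II2
import Pool.Agent.Lib.MP_107960_al.H95.II3
import Pool.Agent.Lib.MP_107960_al.H95.II4
import Pool.Agent.Lib.MP_107960_al.H95.CI
import Pool.Agent.Lib.MP_107960_al.H17.SymCase

/-!
# The multilinear statement (A')
-/

namespace Pool.Agent.Lib.MP_107960_al.H95

universe u

open Pool.Agent.Lib.MP_107960_al.H53

/-- the ideal generated by the triple commutators is nilpotent of bounded class -/
theorem bd_pF : Bd.{u} [pF] :=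
  H53.Bd_pF ml_r6 ml_r6p ml_r5 step_II1 step_II2 step_II3 (fun _ h => H17.Bd_N3 h) step_II4 step_CI

theorem aPrime : ∃ M, H17.APrime.{u} M := exists_APrime bd_pF

end Pool.Agent.Lib.MP_107960_al.H95
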