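import Pool.Agent.Lib.MP_107960_al.H95.Super

/-!
# A certificate checker that runs in the kernel

Polynomials in six noncommuting letters are stored as tries.
-/

namespace Pool.Agent.Lib.MP_107960_al.H95

universe u

/-- tries: `l j a q` is `letter j * a + q` -/
inductive P : Type
  | z : P
  | c : ℕ → P
  | l : ℕ → P → P → P

namespace P

/-- value -/
def ev {R : Type u} [Ring R] (v : ℕ → R) : P → R
  | .z => 0
  | .c k => (k : R)
  | .l j a q => v j * a.ev v + q.ev v

/-- add `k` -/
noncomputable def addc (k : ℕ) (t : P) : P :=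
  P.rec (motive := fun _ => P) (P.c k) (fun k' => P.c (Nat.add k k'))
    (fun j a _ _ iq => P.l j a iq) t

/-- add `letter j * a`; `f` is addition of `a` -/
noncomputable def ins (j : ℕ) (a : P) (f : P → P) (t : P) : P :=
  P.rec (motive := fun _ => P) (P.l j a P.z) (fun k => P.l j a (P.c k))
    (fun j' a' q' _ iq => Bool.rec (motive := fun _ => P) (P.l j' a' iq) (P.l j' (f a') q')
      (Nat.beq j j')) t

/-- sum -/
noncomputable def add : P → P → P := fun p =>
  P.rec (motive := fun _ => P → P) (fun t => t) (fun k t => addc k t)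
    (fun j a _ ia iq t => iq (ins j a ia t)) p

/-- scalar multiple -/
noncomputable def sm (k : ℕ) : P → P := fun p =>
  P.rec (motive := fun _ => P) P.z (fun m => P.c (Nat.mod (Nat.mul k m) 3))
    (fun j _ _ ia iq => P.l j ia iq) p

/-- product -/
noncomputable def mul (p q : P) : P :=
  P.rec (motive := fun _ => P) P.z
    (fun k => Bool.rec (motive := fun _ => P) (P.sm k q) q (Nat.beq k 1))
    (fun j _ _ ia iq => P.l j ia iq) p

/-- substitution of `α i` for the letter `i`, times `r` -/
noncomputable def sub (α : ℕ → P) (r : P) (t : P) : P :=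
  P.rec (motive := fun _ => P) P.z
    (fun k => Bool.rec (motive := fun _ => P) (P.sm k r) r (Nat.beq k 1))
    (fun j _ _ ia iq => add (mul (α j) ia) iq) t

/-- zero test -/
noncomputable def isZ : P → Bool := fun p =>
  P.rec (motive := fun _ => Bool) true (fun m => Nat.beq (Nat.mod m 3) 0)
    (fun _ _ _ ia iq => Bool.rec (motive := fun _ => Bool) false iq ia) p

/-- zero test for the part starting with the letter `j` -/
noncomputable def isZj (j : ℕ) : P → Bool := fun p =>
  P.rec (motive := fun _ => Bool) true (fun m => Nat.beq (Nat.mod m 3) 0)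
    (fun j' a _ _ iq => Bool.rec (motive := fun _ => Bool) iq
      (Bool.rec (motive := fun _ => Bool) false iq (isZ a)) (Nat.beq j j')) p

/-- all first letters are smaller than `n` -/
noncomputable def allj (n : ℕ) : P → Bool := fun p =>
  P.rec (motive := fun _ => Bool) true (fun _ => true)
    (fun j' _ _ _ iq => Bool.rec (motive := fun _ => Bool) false iq (Nat.blt j' n)) p

section lemmas
variable {R : Type u} [Ring R] (v : ℕ → R)

lemma ev_addc (k : ℕ) (t : P) : (addc k t).ev v = (k : R) + t.ev v := by
  induction t with
  | z => change ((k : ℕ) : R) = _; simp [ev]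
  | c k' => change ((Nat.add k k' : ℕ) : R) = _; simp [ev]
  | l j a q _ iq => change (P.l j a (addc k q)).ev v = _; simp only [ev, iq]; abel

lemma ev_ins (j : ℕ) (a : P) (f : P → P) (hf : ∀ b, (f b).ev v = a.ev v + b.ev v) (t : P) :
    (ins j a f t).ev v = v j * a.ev v + t.ev v := by
  induction t with
  | z => rfl
  | c k => rfl
  | l j' a' q' _ iq =>
    change P.ev v (Bool.rec (motive := fun _ => P) (P.l j' a' (ins j a f q')) (P.l j' (f a') q')
      (Nat.beq j j')) = _
    rcases h : Nat.beq j j' with _ | _
    · simp only [ev, iq]; abel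
    · have : j = j' := Nat.eq_of_beq_eq_true h
      subst this
      simp only [ev, hf, mul_add]; abel

lemma ev_add (p : P) : ∀ q : P, (add p q).ev v = p.ev v + q.ev v := by
  induction p with
  | z => intro q; change q.ev v = 0 + q.ev v; rw [zero_add]
  | c k => intro q; exact ev_addc v k q
  | l j a q ia iq =>
    intro t
    change (add q (ins j a (add a) t)).ev v = _
    rw [iq, ev_ins v j a (add a) ia]
    simp only [ev]; abel

variable (h3 : (3 : R) = 0)
include h3

lemma cast_mod (m : ℕ) : ((m % 3 : ℕ) : R) = (m : R) := by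
  conv_rhs => rw [← Nat.div_add_mod m 3]
  push_cast
  rw [h3, zero_mul, zero_add]

lemma cast_mod' (m : ℕ) : ((Nat.mod m 3 : ℕ) : R) = (m : R) := cast_mod h3 m

lemma ev_sm (k : ℕ) (p : P) : (sm k p).ev v = (k : R) * p.ev v := by
  induction p with
  | z => change (0 : R) = _; simp [ev]
  | c m =>
    change ((Nat.mod (Nat.mul k m) 3 : ℕ) : R) = _
    rw [cast_mod' h3, Nat.mul_eq]
    simp [ev]
  | l j a q ia iq =>
    change (P.l j (sm k a) (sm k q)).ev v = _
    simp only [ev, ia, iq, mul_add]
    rw [← mul_assoc, ← mul_assoc, (Nat.cast_commute k (v j)).eq]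

lemma ev_mul (p q : P) : (mul p q).ev v = p.ev v * q.ev v := by
  induction p with
  | z => change (0 : R) = _; simp [ev]
  | c k =>
    change P.ev v (Bool.rec (motive := fun _ => P) (P.sm k q) q (Nat.beq k 1)) = _
    rcases h : Nat.beq k 1 with _ | _
    · exact ev_sm v h3 k q
    · have : k = 1 := Nat.eq_of_beq_eq_true h
      subst this
      simp [ev]
  | l j a b ia ib => change (P.l j (mul a q) (mul b q)).ev v = _; simp only [ev, ia, ib, add_mul,
      mul_assoc]

lemma ev_sub (α : ℕ → P) (r t : P) :
    (sub α r t).ev v = t.ev (fun i => (α i).ev v) * r.ev v := by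
  induction t with
  | z => change (0 : R) = _; simp [ev]
  | c k =>
    change P.ev v (Bool.rec (motive := fun _ => P) (P.sm k r) r (Nat.beq k 1)) = _
    rcases h : Nat.beq k 1 with _ | _
    · exact ev_sm v h3 k r
    · have : k = 1 := Nat.eq_of_beq_eq_true h
      subst this
      simp [ev]
  | l j a b ia ib =>
    change (add (mul (α j) (sub α r a)) (sub α r b)).ev v = _
    rw [ev_add, ev_mul v h3, ia, ib]; simp only [ev, add_mul, mul_assoc]

lemma ev_isZ (p : P) (hp : isZ p = true) : p.ev v = 0 := by
  induction p with
  | z => rfl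
  | c m =>
    change Nat.beq (Nat.mod m 3) 0 = true at hp
    have h1 : Nat.mod m 3 = 0 := Nat.eq_of_beq_eq_true hp
    have h2 := cast_mod' h3 m
    rw [h1] at h2
    simpa [ev] using h2.symm
  | l j a q ia iq =>
    change Bool.rec (motive := fun _ => Bool) false (isZ q) (isZ a) = true at hp
    rcases h0 : isZ a with _ | _
    · rw [h0] at hp; exact absurd hp (by simp)
    · rw [h0] at hp
      simp only [ev, ia h0, iq hp, mul_zero, add_zero]

lemma ev_isZj (n : ℕ) (p : P) (hn : allj n p = true) (hp : ∀ j, j < n → isZj j p = true)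
    (h0 : 0 < n) : p.ev v = 0 := by
  induction p with
  | z => rfl
  | c m =>
    have hp := hp 0 h0
    change Nat.beq (Nat.mod m 3) 0 = true at hp
    have h1 : Nat.mod m 3 = 0 := Nat.eq_of_beq_eq_true hp
    have h2 := cast_mod' h3 m
    rw [h1] at h2
    simpa [ev] using h2.symm
  | l j a q ia iq =>
    change Bool.rec (motive := fun _ => Bool) false (allj n q) (Nat.blt j n) = true at hn
    rcases hj : Nat.blt j n with _ | _
    · rw [hj] at hn; exact absurd hn (by simp)
    rw [hj] at hn
    have hj' : j < n := Nat.blt_eq.mp hj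
    have hq : ∀ i, i < n → isZj i q = true := by
      intro i hi
      have h1 := hp i hi
      change Bool.rec (motive := fun _ => Bool) (isZj i q)
        (Bool.rec (motive := fun _ => Bool) false (isZj i q) (isZ a)) (Nat.beq i j) = true at h1
      rcases h2 : Nat.beq i j with _ | _
      · rw [h2] at h1; exact h1
      · rw [h2] at h1
        rcases h0 : isZ a with _ | _
        · rw [h0] at h1; exact absurd h1 (by simp)
        · rw [h0] at h1; exact h1
    have ha : isZ a = true := by
      have h1 := hp j hj'
      change Bool.rec (motive := fun _ => Bool) (isZj j q)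
        (Bool.rec (motive := fun _ => Bool) false (isZj j q) (isZ a)) (Nat.beq j j) = true at h1
      have h2 : Nat.beq j j = true := Nat.beq_refl j
      rw [h2] at h1
      rcases h0 : isZ a with _ | _
      · rw [h0] at h1; exact absurd h1 (by simp)
      · rfl
    simp only [ev, ev_isZ v h3 a ha, iq hn hq, mul_zero, add_zero]

end lemmas
end P

/-- parity table -/
noncomputable def pr (par : List Bool) : ℕ → Bool :=
  List.rec (motive := fun _ => ℕ → Bool) (fun _ => false)
    (fun a _ ih i => Nat.rec (motive := fun _ => Bool) a (fun i _ => ih i) i) par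

/-- list access -/
noncomputable def nth {α : Type} (d : α) (l : List α) : ℕ → α :=
  List.rec (motive := fun _ => ℕ → α) (fun _ => d)
    (fun a _ ih i => Nat.rec (motive := fun _ => α) a (fun i _ => ih i) i) l

/-- one letter times -/
noncomputable def lieStep (par : List Bool) (pb : P × Bool) (x : ℕ) : P × Bool :=
  (P.add (P.mul pb.1 (P.l x (P.c 1) P.z))
    (P.l x (cond (cond pb.2 (pr par x) false) pb.1 (P.sm 2 pb.1)) P.z), xor pb.2 (pr par x))

/-- left normed super Lie words -/
noncomputable def lie (par : List Bool) : List ℕ → P × Bool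
  | [] => (P.z, false)
  | a :: w => w.foldl (lieStep par) (P.l a (P.c 1) P.z, pr par a)

/-- word times -/
noncomputable def lw (w : List ℕ) (q : P) : P :=
  List.rec (motive := fun _ => P) q (fun a _ ih => P.l a ih P.z) w

/-- word with coefficient -/
noncomputable def wordP (k : ℕ) (w : List ℕ) : P := lw w (P.c k)

/-- certificate items -/
structure Item where
  /-- coefficient -/
  k : ℕ
  /-- left word -/
  l : List ℕ
  /-- generator -/
  g : ℕ
  /-- arguments -/
  as : List (List ℕ)
  /-- parities of the arguments -/
  ps : List Bool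
  /-- right word -/
  r : List ℕ

/-- trie of a polynomial, multiplied by `k` -/
noncomputable def ofPoly (k : ℕ) (p : Poly) : P :=
  List.rec (motive := fun _ => P) P.z (fun t _ acc => P.add (wordP (Nat.mul k t.1) t.2) acc) p

/-- fast version of `oc` -/
noncomputable def ocF (π : ℕ → Bool) (a : ℕ) (w : List ℕ) : Bool :=
  List.rec (motive := fun _ => Bool) false
    (fun b _ ih => Bool.rec (motive := fun _ => Bool) ih
      (Bool.rec (motive := fun _ => Bool) ih (Bool.rec (motive := fun _ => Bool) true false ih)
        (π b)) (Nat.blt b a)) w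

/-- fast version of `inv` -/
noncomputable def invF (π : ℕ → Bool) (w : List ℕ) : Bool :=
  List.rec (motive := fun _ => Bool) false
    (fun a w ih => Bool.rec (motive := fun _ => Bool) ih
      (Bool.rec (motive := fun _ => Bool) ih (Bool.rec (motive := fun _ => Bool) true false ih)
        (ocF π a w)) (π a)) w

/-- signed polynomial -/
noncomputable def sgd (ps : List Bool) (p : Poly) : P :=
  List.rec (motive := fun _ => P) P.z
    (fun t _ acc => P.add (wordP (Bool.rec (motive := fun _ => ℕ) t.1 (Nat.mul 2 t.1)
      (invF (pr ps) t.2)) t.2) acc) p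

/-- value of an item -/
noncomputable def itemP (Γ : List Poly) (par : List Bool) (it : Item) : P :=
  lw it.l (P.sub (fun i => (lie par (nth [] it.as i)).1) (wordP it.k it.r)
    (sgd it.ps (nth [] Γ it.g)))

/-- equality of parity lists -/
noncomputable def eqb (a : List Bool) (b : List Bool) : Bool := decide (a = b)

/-- the parities of an item are right -/
noncomputable def itemOK (par : List Bool) (it : Item) : Bool :=
  eqb (it.as.map (fun w => (lie par w).2)) it.ps

/-- sum -/
noncomputable def sumP (l : List P) : P :=
  List.rec (motive := fun _ => P) P.z (fun a _ ih => P.add a ih) l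

/-- the sum of the items minus the target -/
noncomputable def total (Γ : List Poly) (par : List Bool) (its : List (List Item))
    (target : Poly) : P :=
  P.add (sumP (its.map fun l => sumP (l.map (itemP Γ par)))) (ofPoly 2 target)

/-- the check: the sum of the items is the target -/
noncomputable def check (Γ : List Poly) (par : List Bool) (its : List (List Item))
    (target : Poly) : Bool :=
  cond (its.all fun l => l.all (itemOK par))
    (P.isZ (total Γ par its target)) false

/-- the check for the part starting with the letter `j` -/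
noncomputable def checkj (j : ℕ) (Γ : List Poly) (par : List Bool) (its : List (List Item))
    (target : Poly) : Bool := P.isZj j (total Γ par its target)

/-- the remaining check -/
noncomputable def checkr (n : ℕ) (Γ : List Poly) (par : List Bool) (its : List (List Item))
    (target : Poly) : Bool :=
  cond (its.all fun l => l.all (itemOK par)) (P.allj n (total Γ par its target)) false

section sound
variable {A : Type u} [Ring A] {X : SExt A} {L : AddSubgroup A}

lemma two_eq {R : Type u} [Ring R] (h3 : (3 : R) = 0) : (2 : R) = -1 := by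
  have : (2 : R) + 1 = 0 := by rw [← h3]; norm_num
  exact eq_neg_of_add_eq_zero_left this

lemma pr_eq (par : List Bool) : ∀ i, pr par i = par.getD i false := by
  induction par with
  | nil => intro i; rfl
  | cons a l ih =>
    intro i
    cases i with
    | zero => rfl
    | succ i => change pr l i = _; rw [ih]; rfl

lemma nth_eq {α : Type} (d : α) (l : List α) : ∀ i, nth d l i = l.getD i d := by
  induction l with
  | nil => intro i; rfl
  | cons a l ih =>
    intro i
    cases i with
    | zero => rfl
    | succ i => change nth d l i = _; rw [ih]; rfl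

lemma ev_lw {R : Type u} [Ring R] (v : ℕ → R) (w : List ℕ)
    (q : P) : (lw w q).ev v = wd v w * q.ev v := by
  induction w with
  | nil => change q.ev v = _; simp
  | cons a w ih => change (P.l a (lw w q) P.z).ev v = _; simp [P.ev, ih, mul_assoc]

lemma ev_wordP {R : Type u} [Ring R] (v : ℕ → R) (k : ℕ)
    (w : List ℕ) : (wordP k w).ev v = (k : R) * wd v w := by
  unfold wordP
  rw [ev_lw v]
  change wd v w * (k : R) = _
  exact (Nat.cast_commute k _).eq.symm

lemma lie_sound (h3 : (3 : X.B) = 0) (hL : ∀ x ∈ L, ∀ y ∈ L, x * y - y * x ∈ L)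
    (par : List Bool) (v : ℕ → X.B)
    (hv : ∀ j, v j ∈ Lp X L (pr par j)) (w : List ℕ) :
    (lie par w).1.ev v ∈ Lp X L (lie par w).2 := by
  have key : ∀ (w : List ℕ) (pb : P × Bool), pb.1.ev v ∈ Lp X L pb.2 →
      (w.foldl (lieStep par) pb).1.ev v ∈ Lp X L (w.foldl (lieStep par) pb).2 := by
    intro w
    induction w with
    | nil => intro pb h; exact h
    | cons a w ih =>
      intro pb h
      rw [List.foldl_cons]
      apply ih
      have h1 : (lieStep par pb a).1.ev v = sb pb.2 (pr par a) (pb.1.ev v) (v a) := by
        unfold lieStep sb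
        simp only
        rw [P.ev_add, P.ev_mul v h3]
        have e1 : (P.l a (P.c 1) P.z).ev v = v a := by simp [P.ev]
        rw [e1]
        have e2 : ((2 : ℕ) : X.B) = -1 := by
          push_cast; exact two_eq h3
        rcases hpb : pb.2 with _ | _
        · simp only [cond_false, Bool.false_and, sg_false, one_mul, P.ev]
          rw [P.ev_sm v h3, e2]; noncomm_ring
        · rcases hpa : pr par a with _ | _
          · simp only [cond_true, cond_false, Bool.and_false, sg_false, one_mul, P.ev]
            rw [P.ev_sm v h3, e2]; noncomm_ring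
          · simp only [cond_true, Bool.and_self, sg_true, P.ev]
            noncomm_ring
      have h2 : (lieStep par pb a).2 = xor pb.2 (pr par a) := rfl
      rw [h1, h2]
      exact sb_mem hL h (hv a)
  cases w with
  | nil => exact AddSubgroup.zero_mem _
  | cons a w =>
    change (w.foldl (lieStep par) (P.l a (P.c 1) P.z, pr par a)).1.ev v ∈ _
    apply key
    change (P.l a (P.c 1) P.z).ev v ∈ _
    simpa [P.ev] using hv a

lemma ocF_eq (π : ℕ → Bool) (a : ℕ) (w : List ℕ) : ocF π a w = oc π a w := by
  induction w with
  | nil => rfl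
  | cons b w ih =>
    change Bool.rec (motive := fun _ => Bool) (ocF π a w)
      (Bool.rec (motive := fun _ => Bool) (ocF π a w)
        (Bool.rec (motive := fun _ => Bool) true false (ocF π a w)) (π b)) (Nat.blt b a) = _
    simp only [oc, ih]
    cases Nat.blt b a <;> cases π b <;> cases oc π a w <;> rfl

lemma invF_eq (π : ℕ → Bool) (w : List ℕ) : invF π w = inv π w := by
  induction w with
  | nil => rfl
  | cons b w ih =>
    change Bool.rec (motive := fun _ => Bool) (invF π w)
      (Bool.rec (motive := fun _ => Bool) (invF π w)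
        (Bool.rec (motive := fun _ => Bool) true false (invF π w)) (ocF π b w)) (π b) = _
    simp only [inv, ih, ocF_eq]
    cases π b <;> cases oc π b w <;> cases inv π w <;> rfl

lemma ev_sgd {R : Type u} [Ring R] (h3 : (3 : R) = 0) (v : ℕ → R) (ps : List Bool) (p : Poly) :
    (sgd ps p).ev v = evS (pr ps) v p := by
  induction p with
  | nil => rfl
  | cons t p ih =>
    change P.ev v (P.add (wordP (Bool.rec (motive := fun _ => ℕ) t.1 (Nat.mul 2 t.1)
      (invF (pr ps) t.2)) t.2) (sgd ps p)) = _
    rw [P.ev_add, ev_wordP, evS_cons, invF_eq]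
    congr 1
    cases inv (pr ps) t.2 with
    | false => simp
    | true =>
      rw [sg_true]
      simp only [Nat.mul_eq]
      push_cast
      rw [two_eq h3]; noncomm_ring

/-- a list of multilinear identities of `L` -/
def Good (L : AddSubgroup A) (p : Poly) : Prop :=
  (∃ W : List ℕ, W.Nodup ∧ ∀ t ∈ p, t.2.Perm W) ∧ ∀ v : ℕ → A, (∀ i, v i ∈ L) → ev v p = 0

lemma ev_itemP (h3 : (3 : X.B) = 0) (hL : ∀ x ∈ L, ∀ y ∈ L, x * y - y * x ∈ L)
    {Γ : List Poly} (hΓ : ∀ p ∈ Γ, Good L p)
    (par : List Bool) (v : ℕ → X.B)
    (hv : ∀ j, v j ∈ Lp X L (pr par j)) (it : Item) (hit : itemOK par it = true) :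
    (itemP Γ par it).ev v = 0 := by
  unfold itemP
  rw [ev_lw v, P.ev_sub v h3, ev_sgd h3]
  have hz : evS (pr it.ps) (fun i => ((lie par (nth [] it.as i)).1).ev v) (nth [] Γ it.g) = 0 := by
    rw [nth_eq]
    rcases lt_or_ge it.g Γ.length with hg | hg
    · have hmem : Γ.getD it.g [] ∈ Γ := by
        rw [List.getD_eq_getElem _ _ hg]
        exact List.getElem_mem hg
      obtain ⟨⟨W, hW, hp⟩, h0⟩ := hΓ _ hmem
      apply evS_zero hW hp h0
      intro i
      have hps : it.as.map (fun w => (lie par w).2) = it.ps := of_decide_eq_true hit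
      have h1 := lie_sound h3 hL par v hv (nth [] it.as i)
      have h2 : (lie par (nth [] it.as i)).2 = pr it.ps i := by
        rw [pr_eq, nth_eq, ← hps]
        rcases lt_or_ge i it.as.length with hi | hi
        · rw [List.getD_eq_getElem _ _ hi, List.getD_eq_getElem _ _ (by simpa using hi),
            List.getElem_map]
        · rw [List.getD_eq_default _ _ hi, List.getD_eq_default _ _ (by simpa using hi)]
          rfl
      rwa [h2] at h1
    · rw [List.getD_eq_default _ _ hg]; rfl
  rw [hz]; simp

lemma ev_sumP {R : Type u} [Ring R] (v : ℕ → R) (l : List P) : (sumP l).ev v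
    = (l.map (P.ev v)).sum := by
  induction l with
  | nil => rfl
  | cons a l ih =>
    change (P.add a (sumP l)).ev v = _
    rw [P.ev_add, ih, List.map_cons, List.sum_cons]

lemma ev_ofPoly {R : Type u} [Ring R] (v : ℕ → R) (k : ℕ)
    (p : Poly) : (ofPoly k p).ev v = (k : R) * ev v p := by
  induction p with
  | nil => simp [ofPoly, P.ev]
  | cons t p ih =>
    change (P.add (wordP (Nat.mul k t.1) t.2) (ofPoly k p)).ev v = _
    rw [P.ev_add, ih, ev_wordP v, ev_cons, mul_add, Nat.mul_eq]
    push_cast
    rw [mul_assoc]

lemma total_ev (h3 : (3 : X.B) = 0) (hL : ∀ x ∈ L, ∀ y ∈ L, x * y - y * x ∈ L)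
    {Γ : List Poly} (hΓ : ∀ p ∈ Γ, Good L p)
    (par : List Bool) (its : List (List Item)) (target : Poly)
    (hok : (its.all fun l => l.all (itemOK par)) = true)
    (v : ℕ → X.B) (hv : ∀ j, v j ∈ Lp X L (pr par j))
    (h : (total Γ par its target).ev v = 0) : ev v target = 0 := by
  unfold total at h
  rw [P.ev_add, ev_sumP, ev_ofPoly v] at h
  have h0 : ((its.map fun l => sumP (l.map (itemP Γ par))).map (P.ev v)).sum = 0 := by
    apply List.sum_eq_zero
    intro x hx
    rw [List.map_map, List.mem_map] at hx
    obtain ⟨l, hl, rfl⟩ := hx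
    change (sumP (l.map (itemP Γ par))).ev v = 0
    rw [ev_sumP]
    apply List.sum_eq_zero
    intro x hx
    rw [List.map_map, List.mem_map] at hx
    obtain ⟨it, hit, rfl⟩ := hx
    have h1 := List.all_eq_true.mp hok l hl
    have h2 := List.all_eq_true.mp h1 it hit
    exact ev_itemP h3 hL hΓ par v hv it h2
  rw [h0, zero_add] at h
  have e2 : ((2 : ℕ) : X.B) = -1 := by
    push_cast; exact two_eq h3
  rw [e2] at h
  simpa using h

theorem check_sound (h3 : (3 : X.B) = 0) (hL : ∀ x ∈ L, ∀ y ∈ L, x * y - y * x ∈ L)
    {Γ : List Poly} (hΓ : ∀ p ∈ Γ, Good L p)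
    (par : List Bool) (its : List (List Item)) (target : Poly)
    (hc : check Γ par its target = true)
    (v : ℕ → X.B)
    (hv : ∀ j, v j ∈ Lp X L (pr par j)) : ev v target = 0 := by
  unfold check at hc
  rcases hok : (its.all fun l => l.all (itemOK par)) with _ | _
  · rw [hok] at hc; simp at hc
  rw [hok, cond_true] at hc
  exact total_ev h3 hL hΓ par its target hok v hv (P.ev_isZ v h3 _ hc)

theorem checkj_sound (h3 : (3 : X.B) = 0) (hL : ∀ x ∈ L, ∀ y ∈ L, x * y - y * x ∈ L)
    {Γ : List Poly} (hΓ : ∀ p ∈ Γ, Good L p)
    (par : List Bool) (its : List (List Item)) (target : Poly) (n : ℕ) (h0 : 0 < n)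
    (hr : checkr n Γ par its target = true)
    (hj : ∀ j, j < n → checkj j Γ par its target = true)
    (v : ℕ → X.B)
    (hv : ∀ j, v j ∈ Lp X L (pr par j)) : ev v target = 0 := by
  unfold checkr at hr
  rcases hok : (its.all fun l => l.all (itemOK par)) with _ | _
  · rw [hok] at hr; simp at hr
  rw [hok, cond_true] at hr
  exact total_ev h3 hL hΓ par its target hok v hv (P.ev_isZj v h3 n _ hr hj h0)

end sound

end Pool.Agent.Lib.MP_107960_al.H95
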