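import Pool.Agent.Lib.MP_107960_al.H95.Super

namespace Pool.Agent.Lib.MP_107960_al.H95

universe u

open scoped TensorProduct

/-- the exterior algebra in 8 variables over `ZMod 3` -/
abbrev Lam := ExteriorAlgebra (ZMod 3) (Fin 8 → ZMod 3)

/-- generators -/
noncomputable def lamE (i : ℕ) : Lam :=
  if h : i < 8 then ExteriorAlgebra.ι (ZMod 3) (Pi.single (⟨i, h⟩ : Fin 8) 1) else 0

lemma lamE_anti (i j : ℕ) : lamE i * lamE j = -(lamE j * lamE i) := by
  unfold lamE
  split_ifs with h1 h2
  · exact eq_neg_of_add_eq_zero_left (ExteriorAlgebra.ι_add_mul_swap _ _)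
  all_goals simp

/-- top coefficient -/
noncomputable def lamPhi : Lam →ₗ[ZMod 3] ZMod 3 :=
  ExteriorAlgebra.liftAlternating (R := ZMod 3) (M := Fin 8 → ZMod 3) (N := ZMod 3)
    (fun i => if h : 8 = i then
      h ▸ (Matrix.detRowAlternating (R := ZMod 3) (n := Fin 8)) else 0)

lemma lamPhi_top : lamPhi (wd lamE (List.range 8)) = 1 := by
  have h1 : wd lamE (List.range 8)
      = ExteriorAlgebra.ιMulti (ZMod 3) 8 (fun i : Fin 8 => (Pi.single i 1 : Fin 8 → ZMod 3)) := by
    rw [ExteriorAlgebra.ιMulti_apply]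
    unfold wd
    congr 1
  rw [h1, lamPhi, ExteriorAlgebra.liftAlternating_apply_ιMulti]
  simp only [dite_true]
  change Matrix.det (fun i : Fin 8 => (Pi.single i 1 : Fin 8 → ZMod 3)) = 1
  have : (fun i : Fin 8 => (Pi.single i 1 : Fin 8 → ZMod 3)) = (1 : Matrix (Fin 8) (Fin 8) (ZMod 3)) := by
    ext i j
    rw [Matrix.one_apply, Pi.single_apply]
    simp [eq_comm]
  rw [this, Matrix.det_one]

theorem exists_SExt (A : Type u) [Ring A] (h3 : (3 : A) = 0) : Nonempty (SExt A) := by
  obtain ⟨p, hp⟩ := CharP.exists A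
  have hd : p ∣ 3 := by
    rw [← CharP.cast_eq_zero_iff A p 3]
    exact_mod_cast h3
  letI : Algebra (ZMod 3) A := ZMod.algebra' A p hd
  refine ⟨{ B := A ⊗[ZMod 3] Lam
            ι := (Algebra.TensorProduct.includeLeft : A →ₐ[ZMod 3] A ⊗[ZMod 3] Lam).toRingHom
            e := fun i => (1 : A) ⊗ₜ[ZMod 3] lamE i
            comm := ?_
            anti := ?_
            faithful := ?_ }⟩
  · intro a i
    simp [Algebra.TensorProduct.includeLeft_apply, Algebra.TensorProduct.tmul_mul_tmul]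
  · intro i j
    simp only [Algebra.TensorProduct.tmul_mul_tmul, mul_one]
    rw [lamE_anti i j, TensorProduct.tmul_neg]
  · intro a ha
    have hw : ∀ s : List ℕ, wd (fun i => (1 : A) ⊗ₜ[ZMod 3] lamE i) s
        = (1 : A) ⊗ₜ[ZMod 3] wd lamE s := by
      intro s
      induction s with
      | nil => rfl
      | cons i s ih =>
        rw [wd_cons, wd_cons, ih, Algebra.TensorProduct.tmul_mul_tmul, mul_one]
    rw [hw] at ha
    have h2 : a ⊗ₜ[ZMod 3] wd lamE (List.range 8) = (0 : A ⊗[ZMod 3] Lam) := by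
      simpa [Algebra.TensorProduct.includeLeft_apply, Algebra.TensorProduct.tmul_mul_tmul] using ha
    have h3 := congrArg (fun z => TensorProduct.rid (ZMod 3) A (TensorProduct.map LinearMap.id lamPhi z)) h2
    simpa [lamPhi_top] using h3

end Pool.Agent.Lib.MP_107960_al.H95
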