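import Pool.Agent.Lib.MP_107960_al.H95.Step
import Pool.Agent.Lib.MP_107960_al.H53.Assemble

/-!
# Generators of the chain
-/

namespace Pool.Agent.Lib.MP_107960_al.H95

/-- alternating in 4 letters and symmetric in 2 letters -/
def r6 : Poly :=
  [(1,[0,1,4,2,3,5]),(2,[0,1,4,3,2,5]),(2,[0,1,4,5,2,3]),(1,[0,1,4,5,3,2]),(1,[0,1,5,2,3,4]),(2,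
  [0,1,5,3,2,4]),(2,[0,1,5,4,2,3]),(1,[0,1,5,4,3,2]),(2,[0,2,4,1,3,5]),(1,[0,2,4,3,1,5]),(1,[0,
  2,4,5,1,3]),(2,[0,2,4,5,3,1]),(2,[0,2,5,1,3,4]),(1,[0,2,5,3,1,4]),(1,[0,2,5,4,1,3]),(2,[0,2,
  5,4,3,1]),(1,[0,3,4,1,2,5]),(2,[0,3,4,2,1,5]),(2,[0,3,4,5,1,2]),(1,[0,3,4,5,2,1]),(1,[0,3,5,
  1,2,4]),(2,[0,3,5,2,1,4]),(2,[0,3,5,4,1,2]),(1,[0,3,5,4,2,1]),(1,[0,4,1,2,3,5]),(2,[0,4,1,2,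
  5,3]),(2,[0,4,1,3,2,5]),(1,[0,4,1,3,5,2]),(1,[0,4,1,5,2,3]),(2,[0,4,1,5,3,2]),(2,[0,4,2,1,3,
  5]),(1,[0,4,2,1,5,3]),(1,[0,4,2,3,1,5]),(2,[0,4,2,3,5,1]),(2,[0,4,2,5,1,3]),(1,[0,4,2,5,3,
  1]),(1,[0,4,3,1,2,5]),(2,[0,4,3,1,5,2]),(2,[0,4,3,2,1,5]),(1,[0,4,3,2,5,1]),(1,[0,4,3,5,1,
  2]),(2,[0,4,3,5,2,1]),(2,[0,4,5,1,2,3]),(1,[0,4,5,1,3,2]),(1,[0,4,5,2,1,3]),(2,[0,4,5,2,3,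
  1]),(2,[0,4,5,3,1,2]),(1,[0,4,5,3,2,1]),(1,[0,5,1,2,3,4]),(2,[0,5,1,2,4,3]),(2,[0,5,1,3,2,
  4]),(1,[0,5,1,3,4,2]),(1,[0,5,1,4,2,3]),(2,[0,5,1,4,3,2]),(2,[0,5,2,1,3,4]),(1,[0,5,2,1,4,
  3]),(1,[0,5,2,3,1,4]),(2,[0,5,2,3,4,1]),(2,[0,5,2,4,1,3]),(1,[0,5,2,4,3,1]),(1,[0,5,3,1,2,
  4]),(2,[0,5,3,1,4,2]),(2,[0,5,3,2,1,4]),(1,[0,5,3,2,4,1]),(1,[0,5,3,4,1,2]),(2,[0,5,3,4,2,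
  1]),(2,[0,5,4,1,2,3]),(1,[0,5,4,1,3,2]),(1,[0,5,4,2,1,3]),(2,[0,5,4,2,3,1]),(2,[0,5,4,3,1,
  2]),(1,[0,5,4,3,2,1]),(2,[1,0,4,2,3,5]),(1,[1,0,4,3,2,5]),(1,[1,0,4,5,2,3]),(2,[1,0,4,5,3,
  2]),(2,[1,0,5,2,3,4]),(1,[1,0,5,3,2,4]),(1,[1,0,5,4,2,3]),(2,[1,0,5,4,3,2]),(1,[1,2,4,0,3,
  5]),(2,[1,2,4,3,0,5]),(2,[1,2,4,5,0,3]),(1,[1,2,4,5,3,0]),(1,[1,2,5,0,3,4]),(2,[1,2,5,3,0,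
  4]),(2,[1,2,5,4,0,3]),(1,[1,2,5,4,3,0]),(2,[1,3,4,0,2,5]),(1,[1,3,4,2,0,5]),(1,[1,3,4,5,0,
  2]),(2,[1,3,4,5,2,0]),(2,[1,3,5,0,2,4]),(1,[1,3,5,2,0,4]),(1,[1,3,5,4,0,2]),(2,[1,3,5,4,2,
  0]),(2,[1,4,0,2,3,5]),(1,[1,4,0,2,5,3]),(1,[1,4,0,3,2,5]),(2,[1,4,0,3,5,2]),(2,[1,4,0,5,2,
  3]),(1,[1,4,0,5,3,2]),(1,[1,4,2,0,3,5]),(2,[1,4,2,0,5,3]),(2,[1,4,2,3,0,5]),(1,[1,4,2,3,5,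
  0]),(1,[1,4,2,5,0,3]),(2,[1,4,2,5,3,0]),(2,[1,4,3,0,2,5]),(1,[1,4,3,0,5,2]),(1,[1,4,3,2,0,
  5]),(2,[1,4,3,2,5,0]),(2,[1,4,3,5,0,2]),(1,[1,4,3,5,2,0]),(1,[1,4,5,0,2,3]),(2,[1,4,5,0,3,
  2]),(2,[1,4,5,2,0,3]),(1,[1,4,5,2,3,0]),(1,[1,4,5,3,0,2]),(2,[1,4,5,3,2,0]),(2,[1,5,0,2,3,
  4]),(1,[1,5,0,2,4,3]),(1,[1,5,0,3,2,4]),(2,[1,5,0,3,4,2]),(2,[1,5,0,4,2,3]),(1,[1,5,0,4,3,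
  2]),(1,[1,5,2,0,3,4]),(2,[1,5,2,0,4,3]),(2,[1,5,2,3,0,4]),(1,[1,5,2,3,4,0]),(1,[1,5,2,4,0,
  3]),(2,[1,5,2,4,3,0]),(2,[1,5,3,0,2,4]),(1,[1,5,3,0,4,2]),(1,[1,5,3,2,0,4]),(2,[1,5,3,2,4,
  0]),(2,[1,5,3,4,0,2]),(1,[1,5,3,4,2,0]),(1,[1,5,4,0,2,3]),(2,[1,5,4,0,3,2]),(2,[1,5,4,2,0,
  3]),(1,[1,5,4,2,3,0]),(1,[1,5,4,3,0,2]),(2,[1,5,4,3,2,0]),(1,[2,0,4,1,3,5]),(2,[2,0,4,3,1,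
  5]),(2,[2,0,4,5,1,3]),(1,[2,0,4,5,3,1]),(1,[2,0,5,1,3,4]),(2,[2,0,5,3,1,4]),(2,[2,0,5,4,1,
  3]),(1,[2,0,5,4,3,1]),(2,[2,1,4,0,3,5]),(1,[2,1,4,3,0,5]),(1,[2,1,4,5,0,3]),(2,[2,1,4,5,3,
  0]),(2,[2,1,5,0,3,4]),(1,[2,1,5,3,0,4]),(1,[2,1,5,4,0,3]),(2,[2,1,5,4,3,0]),(1,[2,3,4,0,1,
  5]),(2,[2,3,4,1,0,5]),(2,[2,3,4,5,0,1]),(1,[2,3,4,5,1,0]),(1,[2,3,5,0,1,4]),(2,[2,3,5,1,0,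
  4]),(2,[2,3,5,4,0,1]),(1,[2,3,5,4,1,0]),(1,[2,4,0,1,3,5]),(2,[2,4,0,1,5,3]),(2,[2,4,0,3,1,
  5]),(1,[2,4,0,3,5,1]),(1,[2,4,0,5,1,3]),(2,[2,4,0,5,3,1]),(2,[2,4,1,0,3,5]),(1,[2,4,1,0,5,
  3]),(1,[2,4,1,3,0,5]),(2,[2,4,1,3,5,0]),(2,[2,4,1,5,0,3]),(1,[2,4,1,5,3,0]),(1,[2,4,3,0,1,
  5]),(2,[2,4,3,0,5,1]),(2,[2,4,3,1,0,5]),(1,[2,4,3,1,5,0]),(1,[2,4,3,5,0,1]),(2,[2,4,3,5,1,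
  0]),(2,[2,4,5,0,1,3]),(1,[2,4,5,0,3,1]),(1,[2,4,5,1,0,3]),(2,[2,4,5,1,3,0]),(2,[2,4,5,3,0,
  1]),(1,[2,4,5,3,1,0]),(1,[2,5,0,1,3,4]),(2,[2,5,0,1,4,3]),(2,[2,5,0,3,1,4]),(1,[2,5,0,3,4,
  1]),(1,[2,5,0,4,1,3]),(2,[2,5,0,4,3,1]),(2,[2,5,1,0,3,4]),(1,[2,5,1,0,4,3]),(1,[2,5,1,3,0,
  4]),(2,[2,5,1,3,4,0]),(2,[2,5,1,4,0,3]),(1,[2,5,1,4,3,0]),(1,[2,5,3,0,1,4]),(2,[2,5,3,0,4,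
  1]),(2,[2,5,3,1,0,4]),(1,[2,5,3,1,4,0]),(1,[2,5,3,4,0,1]),(2,[2,5,3,4,1,0]),(2,[2,5,4,0,1,
  3]),(1,[2,5,4,0,3,1]),(1,[2,5,4,1,0,3]),(2,[2,5,4,1,3,0]),(2,[2,5,4,3,0,1]),(1,[2,5,4,3,1,
  0]),(2,[3,0,4,1,2,5]),(1,[3,0,4,2,1,5]),(1,[3,0,4,5,1,2]),(2,[3,0,4,5,2,1]),(2,[3,0,5,1,2,
  4]),(1,[3,0,5,2,1,4]),(1,[3,0,5,4,1,2]),(2,[3,0,5,4,2,1]),(1,[3,1,4,0,2,5]),(2,[3,1,4,2,0,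
  5]),(2,[3,1,4,5,0,2]),(1,[3,1,4,5,2,0]),(1,[3,1,5,0,2,4]),(2,[3,1,5,2,0,4]),(2,[3,1,5,4,0,
  2]),(1,[3,1,5,4,2,0]),(2,[3,2,4,0,1,5]),(1,[3,2,4,1,0,5]),(1,[3,2,4,5,0,1]),(2,[3,2,4,5,1,
  0]),(2,[3,2,5,0,1,4]),(1,[3,2,5,1,0,4]),(1,[3,2,5,4,0,1]),(2,[3,2,5,4,1,0]),(2,[3,4,0,1,2,
  5]),(1,[3,4,0,1,5,2]),(1,[3,4,0,2,1,5]),(2,[3,4,0,2,5,1]),(2,[3,4,0,5,1,2]),(1,[3,4,0,5,2,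
  1]),(1,[3,4,1,0,2,5]),(2,[3,4,1,0,5,2]),(2,[3,4,1,2,0,5]),(1,[3,4,1,2,5,0]),(1,[3,4,1,5,0,
  2]),(2,[3,4,1,5,2,0]),(2,[3,4,2,0,1,5]),(1,[3,4,2,0,5,1]),(1,[3,4,2,1,0,5]),(2,[3,4,2,1,5,
  0]),(2,[3,4,2,5,0,1]),(1,[3,4,2,5,1,0]),(1,[3,4,5,0,1,2]),(2,[3,4,5,0,2,1]),(2,[3,4,5,1,0,
  2]),(1,[3,4,5,1,2,0]),(1,[3,4,5,2,0,1]),(2,[3,4,5,2,1,0]),(2,[3,5,0,1,2,4]),(1,[3,5,0,1,4,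
  2]),(1,[3,5,0,2,1,4]),(2,[3,5,0,2,4,1]),(2,[3,5,0,4,1,2]),(1,[3,5,0,4,2,1]),(1,[3,5,1,0,2,
  4]),(2,[3,5,1,0,4,2]),(2,[3,5,1,2,0,4]),(1,[3,5,1,2,4,0]),(1,[3,5,1,4,0,2]),(2,[3,5,1,4,2,
  0]),(2,[3,5,2,0,1,4]),(1,[3,5,2,0,4,1]),(1,[3,5,2,1,0,4]),(2,[3,5,2,1,4,0]),(2,[3,5,2,4,0,
  1]),(1,[3,5,2,4,1,0]),(1,[3,5,4,0,1,2]),(2,[3,5,4,0,2,1]),(2,[3,5,4,1,0,2]),(1,[3,5,4,1,2,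
  0]),(1,[3,5,4,2,0,1]),(2,[3,5,4,2,1,0]),(1,[4,0,1,2,5,3]),(2,[4,0,1,3,5,2]),(2,[4,0,2,1,5,
  3]),(1,[4,0,2,3,5,1]),(1,[4,0,3,1,5,2]),(2,[4,0,3,2,5,1]),(1,[4,0,5,1,2,3]),(2,[4,0,5,1,3,
  2]),(2,[4,0,5,2,1,3]),(1,[4,0,5,2,3,1]),(1,[4,0,5,3,1,2]),(2,[4,0,5,3,2,1]),(2,[4,1,0,2,5,
  3]),(1,[4,1,0,3,5,2]),(1,[4,1,2,0,5,3]),(2,[4,1,2,3,5,0]),(2,[4,1,3,0,5,2]),(1,[4,1,3,2,5,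
  0]),(2,[4,1,5,0,2,3]),(1,[4,1,5,0,3,2]),(1,[4,1,5,2,0,3]),(2,[4,1,5,2,3,0]),(2,[4,1,5,3,0,
  2]),(1,[4,1,5,3,2,0]),(1,[4,2,0,1,5,3]),(2,[4,2,0,3,5,1]),(2,[4,2,1,0,5,3]),(1,[4,2,1,3,5,
  0]),(1,[4,2,3,0,5,1]),(2,[4,2,3,1,5,0]),(1,[4,2,5,0,1,3]),(2,[4,2,5,0,3,1]),(2,[4,2,5,1,0,
  3]),(1,[4,2,5,1,3,0]),(1,[4,2,5,3,0,1]),(2,[4,2,5,3,1,0]),(2,[4,3,0,1,5,2]),(1,[4,3,0,2,5,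
  1]),(1,[4,3,1,0,5,2]),(2,[4,3,1,2,5,0]),(2,[4,3,2,0,5,1]),(1,[4,3,2,1,5,0]),(2,[4,3,5,0,1,
  2]),(1,[4,3,5,0,2,1]),(1,[4,3,5,1,0,2]),(2,[4,3,5,1,2,0]),(2,[4,3,5,2,0,1]),(1,[4,3,5,2,1,
  0]),(1,[5,0,1,2,4,3]),(2,[5,0,1,3,4,2]),(2,[5,0,2,1,4,3]),(1,[5,0,2,3,4,1]),(1,[5,0,3,1,4,
  2]),(2,[5,0,3,2,4,1]),(1,[5,0,4,1,2,3]),(2,[5,0,4,1,3,2]),(2,[5,0,4,2,1,3]),(1,[5,0,4,2,3,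
  1]),(1,[5,0,4,3,1,2]),(2,[5,0,4,3,2,1]),(2,[5,1,0,2,4,3]),(1,[5,1,0,3,4,2]),(1,[5,1,2,0,4,
  3]),(2,[5,1,2,3,4,0]),(2,[5,1,3,0,4,2]),(1,[5,1,3,2,4,0]),(2,[5,1,4,0,2,3]),(1,[5,1,4,0,3,
  2]),(1,[5,1,4,2,0,3]),(2,[5,1,4,2,3,0]),(2,[5,1,4,3,0,2]),(1,[5,1,4,3,2,0]),(1,[5,2,0,1,4,
  3]),(2,[5,2,0,3,4,1]),(2,[5,2,1,0,4,3]),(1,[5,2,1,3,4,0]),(1,[5,2,3,0,4,1]),(2,[5,2,3,1,4,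
  0]),(1,[5,2,4,0,1,3]),(2,[5,2,4,0,3,1]),(2,[5,2,4,1,0,3]),(1,[5,2,4,1,3,0]),(1,[5,2,4,3,0,
  1]),(2,[5,2,4,3,1,0]),(2,[5,3,0,1,4,2]),(1,[5,3,0,2,4,1]),(1,[5,3,1,0,4,2]),(2,[5,3,1,2,4,
  0]),(2,[5,3,2,0,4,1]),(1,[5,3,2,1,4,0]),(2,[5,3,4,0,1,2]),(1,[5,3,4,0,2,1]),(1,[5,3,4,1,0,
  2]),(2,[5,3,4,1,2,0]),(2,[5,3,4,2,0,1]),(1,[5,3,4,2,1,0])]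

theorem ml_r6 : Ml r6 := ⟨List.range 6, List.nodup_range, mlB_sound (by decide +kernel)⟩

/-- alternating in 5 letters -/
def r6p : Poly :=
  [(1,[0,1,2,5,3,4]),(2,[0,1,2,5,4,3]),(2,[0,1,3,5,2,4]),(1,[0,1,3,5,4,2]),(1,[0,1,4,5,2,3]),(2,
  [0,1,4,5,3,2]),(2,[0,1,5,2,3,4]),(1,[0,1,5,2,4,3]),(1,[0,1,5,3,2,4]),(2,[0,1,5,3,4,2]),(2,[0,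
  1,5,4,2,3]),(1,[0,1,5,4,3,2]),(2,[0,2,1,5,3,4]),(1,[0,2,1,5,4,3]),(1,[0,2,3,5,1,4]),(2,[0,2,
  3,5,4,1]),(2,[0,2,4,5,1,3]),(1,[0,2,4,5,3,1]),(1,[0,2,5,1,3,4]),(2,[0,2,5,1,4,3]),(2,[0,2,5,
  3,1,4]),(1,[0,2,5,3,4,1]),(1,[0,2,5,4,1,3]),(2,[0,2,5,4,3,1]),(1,[0,3,1,5,2,4]),(2,[0,3,1,5,
  4,2]),(2,[0,3,2,5,1,4]),(1,[0,3,2,5,4,1]),(1,[0,3,4,5,1,2]),(2,[0,3,4,5,2,1]),(2,[0,3,5,1,2,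
  4]),(1,[0,3,5,1,4,2]),(1,[0,3,5,2,1,4]),(2,[0,3,5,2,4,1]),(2,[0,3,5,4,1,2]),(1,[0,3,5,4,2,
  1]),(2,[0,4,1,5,2,3]),(1,[0,4,1,5,3,2]),(1,[0,4,2,5,1,3]),(2,[0,4,2,5,3,1]),(2,[0,4,3,5,1,
  2]),(1,[0,4,3,5,2,1]),(1,[0,4,5,1,2,3]),(2,[0,4,5,1,3,2]),(2,[0,4,5,2,1,3]),(1,[0,4,5,2,3,
  1]),(1,[0,4,5,3,1,2]),(2,[0,4,5,3,2,1]),(2,[1,0,2,5,3,4]),(1,[1,0,2,5,4,3]),(1,[1,0,3,5,2,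
  4]),(2,[1,0,3,5,4,2]),(2,[1,0,4,5,2,3]),(1,[1,0,4,5,3,2]),(1,[1,0,5,2,3,4]),(2,[1,0,5,2,4,
  3]),(2,[1,0,5,3,2,4]),(1,[1,0,5,3,4,2]),(1,[1,0,5,4,2,3]),(2,[1,0,5,4,3,2]),(1,[1,2,0,5,3,
  4]),(2,[1,2,0,5,4,3]),(2,[1,2,3,5,0,4]),(1,[1,2,3,5,4,0]),(1,[1,2,4,5,0,3]),(2,[1,2,4,5,3,
  0]),(2,[1,2,5,0,3,4]),(1,[1,2,5,0,4,3]),(1,[1,2,5,3,0,4]),(2,[1,2,5,3,4,0]),(2,[1,2,5,4,0,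
  3]),(1,[1,2,5,4,3,0]),(2,[1,3,0,5,2,4]),(1,[1,3,0,5,4,2]),(1,[1,3,2,5,0,4]),(2,[1,3,2,5,4,
  0]),(2,[1,3,4,5,0,2]),(1,[1,3,4,5,2,0]),(1,[1,3,5,0,2,4]),(2,[1,3,5,0,4,2]),(2,[1,3,5,2,0,
  4]),(1,[1,3,5,2,4,0]),(1,[1,3,5,4,0,2]),(2,[1,3,5,4,2,0]),(1,[1,4,0,5,2,3]),(2,[1,4,0,5,3,
  2]),(2,[1,4,2,5,0,3]),(1,[1,4,2,5,3,0]),(1,[1,4,3,5,0,2]),(2,[1,4,3,5,2,0]),(2,[1,4,5,0,2,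
  3]),(1,[1,4,5,0,3,2]),(1,[1,4,5,2,0,3]),(2,[1,4,5,2,3,0]),(2,[1,4,5,3,0,2]),(1,[1,4,5,3,2,
  0]),(1,[2,0,1,5,3,4]),(2,[2,0,1,5,4,3]),(2,[2,0,3,5,1,4]),(1,[2,0,3,5,4,1]),(1,[2,0,4,5,1,
  3]),(2,[2,0,4,5,3,1]),(2,[2,0,5,1,3,4]),(1,[2,0,5,1,4,3]),(1,[2,0,5,3,1,4]),(2,[2,0,5,3,4,
  1]),(2,[2,0,5,4,1,3]),(1,[2,0,5,4,3,1]),(2,[2,1,0,5,3,4]),(1,[2,1,0,5,4,3]),(1,[2,1,3,5,0,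
  4]),(2,[2,1,3,5,4,0]),(2,[2,1,4,5,0,3]),(1,[2,1,4,5,3,0]),(1,[2,1,5,0,3,4]),(2,[2,1,5,0,4,
  3]),(2,[2,1,5,3,0,4]),(1,[2,1,5,3,4,0]),(1,[2,1,5,4,0,3]),(2,[2,1,5,4,3,0]),(1,[2,3,0,5,1,
  4]),(2,[2,3,0,5,4,1]),(2,[2,3,1,5,0,4]),(1,[2,3,1,5,4,0]),(1,[2,3,4,5,0,1]),(2,[2,3,4,5,1,
  0]),(2,[2,3,5,0,1,4]),(1,[2,3,5,0,4,1]),(1,[2,3,5,1,0,4]),(2,[2,3,5,1,4,0]),(2,[2,3,5,4,0,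
  1]),(1,[2,3,5,4,1,0]),(2,[2,4,0,5,1,3]),(1,[2,4,0,5,3,1]),(1,[2,4,1,5,0,3]),(2,[2,4,1,5,3,
  0]),(2,[2,4,3,5,0,1]),(1,[2,4,3,5,1,0]),(1,[2,4,5,0,1,3]),(2,[2,4,5,0,3,1]),(2,[2,4,5,1,0,
  3]),(1,[2,4,5,1,3,0]),(1,[2,4,5,3,0,1]),(2,[2,4,5,3,1,0]),(2,[3,0,1,5,2,4]),(1,[3,0,1,5,4,
  2]),(1,[3,0,2,5,1,4]),(2,[3,0,2,5,4,1]),(2,[3,0,4,5,1,2]),(1,[3,0,4,5,2,1]),(1,[3,0,5,1,2,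
  4]),(2,[3,0,5,1,4,2]),(2,[3,0,5,2,1,4]),(1,[3,0,5,2,4,1]),(1,[3,0,5,4,1,2]),(2,[3,0,5,4,2,
  1]),(1,[3,1,0,5,2,4]),(2,[3,1,0,5,4,2]),(2,[3,1,2,5,0,4]),(1,[3,1,2,5,4,0]),(1,[3,1,4,5,0,
  2]),(2,[3,1,4,5,2,0]),(2,[3,1,5,0,2,4]),(1,[3,1,5,0,4,2]),(1,[3,1,5,2,0,4]),(2,[3,1,5,2,4,
  0]),(2,[3,1,5,4,0,2]),(1,[3,1,5,4,2,0]),(2,[3,2,0,5,1,4]),(1,[3,2,0,5,4,1]),(1,[3,2,1,5,0,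
  4]),(2,[3,2,1,5,4,0]),(2,[3,2,4,5,0,1]),(1,[3,2,4,5,1,0]),(1,[3,2,5,0,1,4]),(2,[3,2,5,0,4,
  1]),(2,[3,2,5,1,0,4]),(1,[3,2,5,1,4,0]),(1,[3,2,5,4,0,1]),(2,[3,2,5,4,1,0]),(1,[3,4,0,5,1,
  2]),(2,[3,4,0,5,2,1]),(2,[3,4,1,5,0,2]),(1,[3,4,1,5,2,0]),(1,[3,4,2,5,0,1]),(2,[3,4,2,5,1,
  0]),(2,[3,4,5,0,1,2]),(1,[3,4,5,0,2,1]),(1,[3,4,5,1,0,2]),(2,[3,4,5,1,2,0]),(2,[3,4,5,2,0,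
  1]),(1,[3,4,5,2,1,0]),(1,[4,0,1,5,2,3]),(2,[4,0,1,5,3,2]),(2,[4,0,2,5,1,3]),(1,[4,0,2,5,3,
  1]),(1,[4,0,3,5,1,2]),(2,[4,0,3,5,2,1]),(2,[4,0,5,1,2,3]),(1,[4,0,5,1,3,2]),(1,[4,0,5,2,1,
  3]),(2,[4,0,5,2,3,1]),(2,[4,0,5,3,1,2]),(1,[4,0,5,3,2,1]),(2,[4,1,0,5,2,3]),(1,[4,1,0,5,3,
  2]),(1,[4,1,2,5,0,3]),(2,[4,1,2,5,3,0]),(2,[4,1,3,5,0,2]),(1,[4,1,3,5,2,0]),(1,[4,1,5,0,2,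
  3]),(2,[4,1,5,0,3,2]),(2,[4,1,5,2,0,3]),(1,[4,1,5,2,3,0]),(1,[4,1,5,3,0,2]),(2,[4,1,5,3,2,
  0]),(1,[4,2,0,5,1,3]),(2,[4,2,0,5,3,1]),(2,[4,2,1,5,0,3]),(1,[4,2,1,5,3,0]),(1,[4,2,3,5,0,
  1]),(2,[4,2,3,5,1,0]),(2,[4,2,5,0,1,3]),(1,[4,2,5,0,3,1]),(1,[4,2,5,1,0,3]),(2,[4,2,5,1,3,
  0]),(2,[4,2,5,3,0,1]),(1,[4,2,5,3,1,0]),(2,[4,3,0,5,1,2]),(1,[4,3,0,5,2,1]),(1,[4,3,1,5,0,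
  2]),(2,[4,3,1,5,2,0]),(2,[4,3,2,5,0,1]),(1,[4,3,2,5,1,0]),(1,[4,3,5,0,1,2]),(2,[4,3,5,0,2,
  1]),(2,[4,3,5,1,0,2]),(1,[4,3,5,1,2,0]),(1,[4,3,5,2,0,1]),(2,[4,3,5,2,1,0])]

theorem ml_r6p : Ml r6p := ⟨List.range 6, List.nodup_range, mlB_sound (by decide +kernel)⟩

/-- alternating in 4 letters -/
def r5 : Poly :=
  [(1,[0,1,4,2,3]),(2,[0,1,4,3,2]),(2,[0,2,4,1,3]),(1,[0,2,4,3,1]),(1,[0,3,4,1,2]),(2,[0,3,4,2,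
  1]),(2,[0,4,1,2,3]),(1,[0,4,1,3,2]),(1,[0,4,2,1,3]),(2,[0,4,2,3,1]),(2,[0,4,3,1,2]),(1,[0,4,
  3,2,1]),(2,[1,0,4,2,3]),(1,[1,0,4,3,2]),(1,[1,2,4,0,3]),(2,[1,2,4,3,0]),(2,[1,3,4,0,2]),(1,
  [1,3,4,2,0]),(1,[1,4,0,2,3]),(2,[1,4,0,3,2]),(2,[1,4,2,0,3]),(1,[1,4,2,3,0]),(1,[1,4,3,0,2]),
  (2,[1,4,3,2,0]),(1,[2,0,4,1,3]),(2,[2,0,4,3,1]),(2,[2,1,4,0,3]),(1,[2,1,4,3,0]),(1,[2,3,4,0,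
  1]),(2,[2,3,4,1,0]),(2,[2,4,0,1,3]),(1,[2,4,0,3,1]),(1,[2,4,1,0,3]),(2,[2,4,1,3,0]),(2,[2,4,
  3,0,1]),(1,[2,4,3,1,0]),(2,[3,0,4,1,2]),(1,[3,0,4,2,1]),(1,[3,1,4,0,2]),(2,[3,1,4,2,0]),(2,
  [3,2,4,0,1]),(1,[3,2,4,1,0]),(1,[3,4,0,1,2]),(2,[3,4,0,2,1]),(2,[3,4,1,0,2]),(1,[3,4,1,2,0]),
  (1,[3,4,2,0,1]),(2,[3,4,2,1,0])]

theorem ml_r5 : Ml r5 := ⟨List.range 5, List.nodup_range, mlB_sound (by decide +kernel)⟩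

end Pool.Agent.Lib.MP_107960_al.H95
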