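import Pool.Agent.Lib.MP_107960_al.H95.Gens

namespace Pool.Agent.Lib.MP_107960_al.H95

universe u

open Pool.Agent.Lib.MP_107960_al.H53

namespace II1

/-- left factor -/
def g : Poly := [(1,[3])]

/-- right factor -/
def p : Poly := [(1,[0,0,2,1,1,2]),(2,[0,0,2,2,1,1]),(1,[0,1,2,0,1,2]),(1,[0,1,2,1,0,2]),(2,[0,1,2,2,0,1]),(2,
  [0,1,2,2,1,0]),(1,[0,2,0,1,1,2]),(2,[0,2,0,1,2,1]),(1,[0,2,0,2,1,1]),(1,[0,2,1,0,1,2]),(2,[0,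
  2,1,0,2,1]),(1,[0,2,1,1,0,2]),(2,[0,2,1,1,2,0]),(1,[0,2,1,2,0,1]),(1,[0,2,1,2,1,0]),(2,[0,2,
  2,0,1,1]),(2,[0,2,2,1,0,1]),(2,[0,2,2,1,1,0]),(1,[1,0,2,0,1,2]),(1,[1,0,2,1,0,2]),(2,[1,0,2,
  2,0,1]),(2,[1,0,2,2,1,0]),(1,[1,1,2,0,0,2]),(2,[1,1,2,2,0,0]),(1,[1,2,0,0,1,2]),(2,[1,2,0,0,
  2,1]),(1,[1,2,0,1,0,2]),(2,[1,2,0,1,2,0]),(1,[1,2,0,2,0,1]),(1,[1,2,0,2,1,0]),(1,[1,2,1,0,0,
  2]),(2,[1,2,1,0,2,0]),(1,[1,2,1,2,0,0]),(2,[1,2,2,0,0,1]),(2,[1,2,2,0,1,0]),(2,[1,2,2,1,0,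
  0]),(1,[2,0,0,1,2,1]),(1,[2,0,1,0,2,1]),(1,[2,0,1,1,2,0]),(1,[2,0,2,0,1,1]),(1,[2,0,2,1,0,
  1]),(1,[2,0,2,1,1,0]),(1,[2,1,0,0,2,1]),(1,[2,1,0,1,2,0]),(1,[2,1,1,0,2,0]),(1,[2,1,2,0,0,
  1]),(1,[2,1,2,0,1,0]),(1,[2,1,2,1,0,0])]

/-- certificate -/
def its : List (List Item) := [[⟨1,[],0,[[0],[3],[1,2,1],[2],[0]],[true,false,false,false,true],[]⟩,
  ⟨2,[],0,[[2],[3],[1],[1],[2]],[false,false,true,true,false],[0,0]⟩,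
  ⟨2,[],0,[[0],[3],[1],[1,2,0],[2]],[true,false,true,false,false],[]⟩,
  ⟨2,[0],0,[[2],[2],[0],[1],[1,3]],[false,false,true,true,true],[]⟩,
  ⟨1,[],0,[[2],[1],[0,2],[1],[0,3]],[false,true,true,true,true],[]⟩,
  ⟨1,[],0,[[2],[0],[2],[0],[1,1,3]],[false,true,false,true,false],[]⟩,
  ⟨1,[],0,[[1],[2],[2],[3],[0]],[true,false,false,false,true],[1,0]⟩,
  ⟨2,[2,1],0,[[1],[0],[2],[3],[0]],[true,true,false,false,true],[]⟩,
  ⟨1,[],0,[[0,1],[0],[3],[1,2],[2]],[false,true,false,true,false],[]⟩,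
  ⟨2,[],0,[[0],[3],[2],[1],[0]],[true,false,false,true,true],[2,1]⟩,
  ⟨2,[1],0,[[1],[0,3],[2],[2],[0]],[true,true,false,false,true],[]⟩,
  ⟨1,[2,0],0,[[0],[1],[3],[1],[2]],[true,true,false,true,false],[]⟩,
  ⟨1,[],0,[[3],[2],[0],[1],[0]],[false,false,true,true,true],[1,2]⟩,
  ⟨2,[],0,[[2],[0],[1],[0,1,2],[3]],[false,true,true,false,false],[]⟩,
  ⟨2,[],0,[[2],[3],[2],[0,1],[0,1]],[false,false,false,false,false],[]⟩,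
  ⟨2,[],0,[[3],[0],[0,1],[2],[2]],[false,true,false,false,false],[1]⟩,
  ⟨2,[],0,[[3],[0],[2],[1,2,0],[1]],[false,true,false,false,true],[]⟩,
  ⟨1,[],0,[[2],[1],[0,3],[2],[1]],[false,true,true,false,true],[0]⟩,
  ⟨1,[3],0,[[2],[2],[1],[0],[0,1]],[false,false,true,true,false],[]⟩,
  ⟨1,[],0,[[1,1],[0,3],[0],[2],[2]],[false,true,true,false,false],[]⟩,
  ⟨2,[3],0,[[2],[0],[1],[2],[0,1]],[false,true,true,false,false],[]⟩,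
  ⟨2,[0],0,[[1],[0],[1,2],[3],[2]],[true,true,true,false,false],[]⟩,
  ⟨2,[1],0,[[2],[3],[2],[1],[0,0]],[false,false,false,true,false],[]⟩,
  ⟨1,[],0,[[0],[1],[2],[0,1,3],[2]],[true,true,false,false,false],[]⟩,
  ⟨2,[],0,[[0,1],[2],[2],[1,3],[0]],[false,false,false,true,true],[]⟩],
  [⟨1,[1],0,[[0,0],[2],[2],[1],[3]],[false,false,false,true,false],[]⟩,
  ⟨2,[],0,[[2],[0,3],[2],[0,1],[1]],[false,true,false,false,true],[]⟩,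
  ⟨1,[],0,[[1],[0,0],[2],[2],[1]],[true,false,false,false,true],[3]⟩,
  ⟨1,[],0,[[2],[1],[0,2,3],[1],[0]],[false,true,true,true,true],[]⟩,
  ⟨1,[],0,[[2],[1],[2,3],[1],[0,0]],[false,true,false,true,false],[]⟩,
  ⟨2,[],0,[[2],[3],[0,1],[0,1],[2]],[false,false,false,false,false],[]⟩,
  ⟨1,[0],0,[[0],[1],[2],[1,2],[3]],[true,true,false,true,false],[]⟩,
  ⟨2,[],0,[[0],[1],[3],[1],[0]],[true,true,false,true,true],[2,2]⟩,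
  ⟨2,[],0,[[2],[1],[0],[1],[0,3,2]],[false,true,true,true,true],[]⟩,
  ⟨2,[],0,[[0,1,0],[1],[3],[2],[2]],[true,true,false,false,false],[]⟩,
  ⟨2,[],0,[[2],[2],[0],[1],[0,1,3]],[false,false,true,true,false],[]⟩,
  ⟨1,[],0,[[1],[3],[2],[0,2,0],[1]],[true,false,false,false,true],[]⟩,
  ⟨1,[],0,[[1],[0,0],[2],[2],[1,3]],[true,false,false,false,true],[]⟩,
  ⟨1,[],0,[[0],[1],[2],[2],[0,3,1]],[true,true,false,false,false],[]⟩,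
  ⟨2,[1],0,[[0],[1,2],[2],[3],[0]],[true,true,false,false,true],[]⟩,
  ⟨2,[],0,[[2],[1,1],[2],[0],[0,3]],[false,false,false,true,true],[]⟩,
  ⟨1,[0],0,[[0],[2],[1],[3],[2]],[true,false,true,false,false],[1]⟩,
  ⟨1,[0],0,[[1],[3],[2],[0,1],[2]],[true,false,false,false,false],[]⟩,
  ⟨2,[],0,[[0],[1,2,2],[3],[0],[1]],[true,true,false,true,true],[]⟩,
  ⟨1,[],0,[[1],[0],[2],[0],[1,3,2]],[true,true,false,true,true],[]⟩,
  ⟨2,[0,2],0,[[2],[1],[3],[0],[1]],[false,true,false,true,true],[]⟩,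
  ⟨2,[1],0,[[0],[2],[0,3],[1],[2]],[true,false,true,true,false],[]⟩,
  ⟨1,[3],0,[[0],[2],[1,1],[2],[0]],[true,false,false,false,true],[]⟩,
  ⟨2,[1],0,[[2],[0],[3],[2],[0]],[false,true,false,false,true],[1]⟩,
  ⟨2,[],0,[[1],[3],[2],[0],[0,1,2]],[true,false,false,true,false],[]⟩],
  [⟨1,[],0,[[1,1,0],[3],[2],[2],[0]],[true,false,false,false,true],[]⟩,
  ⟨2,[0],0,[[3],[0],[2],[1,1],[2]],[false,true,false,false,false],[]⟩,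
  ⟨1,[],0,[[2],[1],[2],[3],[0]],[false,true,false,false,true],[0,1]⟩]]

theorem chk : check [pF] [true,true,false,false] its (pmul g p) = true := by decide +kernel

/-- relabelling -/
def τ (j : ℕ) : ℕ := [0,0,0,0,0,0,0,0,0].getD j 0
/-- relabelling -/
def σ (j : ℕ) : ℕ := [0,1,4,0,0,0,2,3,5].getD j 0

end II1

/-- step II1 -/
theorem step_II1 : Van.{u} [pF] pX r6 := by
  intro A _ L hP hM l l' hl hl'
  obtain ⟨X⟩ := exists_SExt A hP.h3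
  have h0 : HH X L (pr [true,true,false,false]) II1.g II1.p :=
    HH_of_check hP hM X II1.chk
  have h1 := HH_polR' 0 6 (by decide +kernel) h0
  have h2 := HH_polR' 1 7 (by decide +kernel) h1
  have h3 := HH_polR' 2 8 (by decide +kernel) h2
  exact HH_out hP.h3 [3] [0,1,2,6,7,8] (mlB_sound (by decide +kernel)) (mlB_sound (by decide +kernel))
    (by decide) (by decide) h3 II1.τ II1.σ pX r6 (by decide +kernel) (by decide +kernel) l l' hl hl'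

end Pool.Agent.Lib.MP_107960_al.H95
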