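import Pool.Agent.Lib.MP_107960_al.H95.Gens

namespace Pool.Agent.Lib.MP_107960_al.H95

universe u

open Pool.Agent.Lib.MP_107960_al.H53

namespace II2

/-- left factor -/
def g : Poly := [(1,[4,4])]

/-- right factor -/
def p : Poly := [(1,[0,0,1,3,1,2]),(1,[0,0,1,3,2,1]),(1,[0,0,2,3,1,1]),(2,[0,0,3,1,1,2]),(2,[0,0,3,1,2,1]),(2,
  [0,0,3,2,1,1]),(1,[0,1,0,3,1,2]),(1,[0,1,0,3,2,1]),(1,[0,1,1,3,0,2]),(1,[0,1,1,3,2,0]),(1,[0,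
  1,2,3,0,1]),(1,[0,1,2,3,1,0]),(2,[0,1,3,0,1,2]),(2,[0,1,3,0,2,1]),(2,[0,1,3,1,0,2]),(2,[0,1,
  3,1,2,0]),(2,[0,1,3,2,0,1]),(2,[0,1,3,2,1,0]),(1,[0,2,0,3,1,1]),(1,[0,2,1,3,0,1]),(1,[0,2,1,
  3,1,0]),(2,[0,2,3,0,1,1]),(2,[0,2,3,1,0,1]),(2,[0,2,3,1,1,0]),(1,[1,0,0,3,1,2]),(1,[1,0,0,3,
  2,1]),(1,[1,0,1,3,0,2]),(1,[1,0,1,3,2,0]),(1,[1,0,2,3,0,1]),(1,[1,0,2,3,1,0]),(2,[1,0,3,0,1,
  2]),(2,[1,0,3,0,2,1]),(2,[1,0,3,1,0,2]),(2,[1,0,3,1,2,0]),(2,[1,0,3,2,0,1]),(2,[1,0,3,2,1,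
  0]),(1,[1,1,0,3,0,2]),(1,[1,1,0,3,2,0]),(1,[1,1,2,3,0,0]),(2,[1,1,3,0,0,2]),(2,[1,1,3,0,2,
  0]),(2,[1,1,3,2,0,0]),(1,[1,2,0,3,0,1]),(1,[1,2,0,3,1,0]),(1,[1,2,1,3,0,0]),(2,[1,2,3,0,0,
  1]),(2,[1,2,3,0,1,0]),(2,[1,2,3,1,0,0]),(1,[2,0,0,3,1,1]),(1,[2,0,1,3,0,1]),(1,[2,0,1,3,1,
  0]),(2,[2,0,3,0,1,1]),(2,[2,0,3,1,0,1]),(2,[2,0,3,1,1,0]),(1,[2,1,0,3,0,1]),(1,[2,1,0,3,1,
  0]),(1,[2,1,1,3,0,0]),(2,[2,1,3,0,0,1]),(2,[2,1,3,0,1,0]),(2,[2,1,3,1,0,0])]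

/-- certificate -/
def its : List (List Item) := [[⟨1,[1,4],1,[[0],[1],[2],[0],[3,4]],[true,true,true,true,true],[]⟩,
  ⟨1,[],1,[[0],[1],[2],[0],[3,4,1,4]],[true,true,true,true,true],[]⟩,
  ⟨2,[4],1,[[0],[1],[2],[4],[1,3,0]],[true,true,true,true,false],[]⟩,
  ⟨2,[],1,[[0],[1],[2],[4],[3,4,1,0]],[true,true,true,true,true],[]⟩,
  ⟨2,[4],1,[[0],[1],[3],[0],[1,4,2]],[true,true,false,true,true],[]⟩,
  ⟨2,[4],1,[[0],[1],[3],[1],[2,4,0]],[true,true,false,true,true],[]⟩,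
  ⟨1,[4],1,[[0],[1],[3],[2],[1,4,0]],[true,true,false,true,true],[]⟩,
  ⟨2,[4],1,[[0],[1],[3],[2],[0,4,1]],[true,true,false,true,true],[]⟩,
  ⟨1,[3,1,2],1,[[0],[1],[4],[0],[4]],[true,true,true,true,true],[]⟩,
  ⟨1,[3,2,1],1,[[0],[1],[4],[0],[4]],[true,true,true,true,true],[]⟩,
  ⟨1,[],1,[[0],[1],[4],[0],[3,4,2,1]],[true,true,true,true,true],[]⟩,
  ⟨2,[],1,[[0],[1],[4],[0],[3,4,1,2]],[true,true,true,true,true],[]⟩,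
  ⟨2,[3,0,2],1,[[0],[1],[4],[1],[4]],[true,true,true,true,true],[]⟩,
  ⟨2,[3,2,0],1,[[0],[1],[4],[1],[4]],[true,true,true,true,true],[]⟩,
  ⟨2,[3,0,1],1,[[0],[1],[4],[2],[4]],[true,true,true,true,true],[]⟩,
  ⟨2,[3,1,0],1,[[0],[1],[4],[2],[4]],[true,true,true,true,true],[]⟩,
  ⟨2,[4],1,[[0],[1],[4],[2],[1,3,0]],[true,true,true,true,false],[]⟩,
  ⟨2,[],1,[[0],[1],[4],[2],[3,4,0,1]],[true,true,true,true,true],[]⟩,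
  ⟨2,[4],1,[[0],[1],[4],[1,2],[0,3]],[true,true,true,false,true],[]⟩,
  ⟨1,[2,4],1,[[0],[1],[3,4],[0],[1]],[true,true,true,true,true],[]⟩,
  ⟨2,[0,4],1,[[0],[1],[3,4],[1],[2]],[true,true,true,true,true],[]⟩,
  ⟨2,[4,4],1,[[0],[1],[2,3],[0],[1]],[true,true,true,true,true],[]⟩,
  ⟨2,[4],1,[[0],[1],[0,3],[4],[1,2]],[true,true,true,true,false],[]⟩,
  ⟨1,[4],1,[[0],[1],[0,2],[4],[1,3]],[true,true,false,true,true],[]⟩,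
  ⟨1,[4],1,[[0],[1],[2,4,1],[0],[3]],[true,true,true,true,false],[]⟩],
  [⟨2,[4],1,[[0],[1],[1,4,2],[0],[3]],[true,true,true,true,false],[]⟩,
  ⟨2,[4],1,[[0],[1],[1,3,2],[0],[4]],[true,true,false,true,true],[]⟩,
  ⟨2,[4],1,[[0],[1],[0,4,2],[1],[3]],[true,true,true,true,false],[]⟩,
  ⟨1,[4],1,[[0],[1],[0,3,2],[1],[4]],[true,true,false,true,true],[]⟩,
  ⟨2,[4],1,[[0],[1],[0,4,1],[2],[3]],[true,true,true,true,false],[]⟩,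
  ⟨2,[],1,[[0],[1],[3,4,2,4],[0],[1]],[true,true,true,true,true],[]⟩,
  ⟨1,[],1,[[0],[1],[3,4,1,4],[0],[2]],[true,true,true,true,true],[]⟩,
  ⟨1,[],1,[[0],[1],[3,4,2,1],[0],[4]],[true,true,true,true,true],[]⟩,
  ⟨1,[],1,[[0],[1],[3,4,0,4],[1],[2]],[true,true,true,true,true],[]⟩,
  ⟨1,[],1,[[0],[1],[3,4,2,0],[1],[4]],[true,true,true,true,true],[]⟩,
  ⟨1,[],1,[[0],[1],[3,4,0,2],[1],[4]],[true,true,true,true,true],[]⟩,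
  ⟨1,[4],1,[[0],[2],[3],[0],[1,4,1]],[true,true,false,true,true],[]⟩,
  ⟨1,[3,1,1],1,[[0],[2],[4],[0],[4]],[true,true,true,true,true],[]⟩,
  ⟨2,[3,0,1],1,[[0],[2],[4],[1],[4]],[true,true,true,true,true],[]⟩,
  ⟨2,[3,1,0],1,[[0],[2],[4],[1],[4]],[true,true,true,true,true],[]⟩,
  ⟨2,[1,4],1,[[0],[2],[3,4],[0],[1]],[true,true,true,true,true],[]⟩,
  ⟨2,[4],1,[[0],[2],[1,1],[4],[0,3]],[true,true,false,true,true],[]⟩,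
  ⟨2,[4],1,[[0],[2],[0,3],[4],[1,1]],[true,true,true,true,false],[]⟩,
  ⟨2,[4],1,[[0],[2],[0,1],[4],[1,3]],[true,true,false,true,true],[]⟩,
  ⟨2,[4],1,[[0],[2],[1,3,1],[0],[4]],[true,true,false,true,true],[]⟩,
  ⟨2,[4],1,[[0],[2],[0,3,1],[1],[4]],[true,true,false,true,true],[]⟩,
  ⟨2,[],1,[[0],[2],[3,4,1,1],[0],[4]],[true,true,true,true,true],[]⟩,
  ⟨2,[],1,[[0],[2],[3,4,1,0],[1],[4]],[true,true,true,true,true],[]⟩,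
  ⟨1,[0,1],1,[[0],[3],[4],[4],[1,2]],[true,false,true,true,false],[]⟩,
  ⟨1,[1,0],1,[[0],[3],[4],[4],[1,2]],[true,false,true,true,false],[]⟩],
  [⟨2,[0,2],1,[[0],[3],[4],[4],[1,1]],[true,false,true,true,false],[]⟩,
  ⟨2,[2,0],1,[[0],[3],[4],[4],[1,1]],[true,false,true,true,false],[]⟩,
  ⟨1,[1,1],1,[[0],[3],[4],[4],[0,2]],[true,false,true,true,false],[]⟩,
  ⟨1,[1,2],1,[[0],[3],[4],[4],[0,1]],[true,false,true,true,false],[]⟩,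
  ⟨1,[2,1],1,[[0],[3],[4],[4],[0,1]],[true,false,true,true,false],[]⟩,
  ⟨1,[1,4],1,[[0],[3],[1,2],[0],[4]],[true,false,false,true,true],[]⟩,
  ⟨1,[0,4],1,[[0],[3],[1,2],[1],[4]],[true,false,false,true,true],[]⟩,
  ⟨2,[2,4],1,[[0],[3],[1,1],[0],[4]],[true,false,false,true,true],[]⟩,
  ⟨2,[0,4],1,[[0],[3],[1,1],[2],[4]],[true,false,false,true,true],[]⟩,
  ⟨1,[1,4],1,[[0],[3],[0,2],[1],[4]],[true,false,false,true,true],[]⟩,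
  ⟨1,[2,4],1,[[0],[3],[0,1],[1],[4]],[true,false,false,true,true],[]⟩,
  ⟨1,[1,4],1,[[0],[3],[0,1],[2],[4]],[true,false,false,true,true],[]⟩,
  ⟨2,[],1,[[0],[3],[4,4,2],[0],[1,1]],[true,false,true,true,false],[]⟩,
  ⟨1,[],1,[[0],[3],[4,4,2],[1],[0,1]],[true,false,true,true,false],[]⟩,
  ⟨1,[],1,[[0],[3],[4,4,1],[0],[1,2]],[true,false,true,true,false],[]⟩,
  ⟨1,[],1,[[0],[3],[4,4,1],[1],[0,2]],[true,false,true,true,false],[]⟩,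
  ⟨1,[],1,[[0],[3],[4,4,1],[2],[0,1]],[true,false,true,true,false],[]⟩,
  ⟨2,[4],1,[[0],[3],[2,4,1],[0],[1]],[true,false,true,true,true],[]⟩,
  ⟨1,[4],1,[[0],[3],[1,4,1],[0],[2]],[true,false,true,true,true],[]⟩,
  ⟨1,[],1,[[0],[3],[4,4,0],[1],[1,2]],[true,false,true,true,false],[]⟩,
  ⟨2,[],1,[[0],[3],[4,4,0],[2],[1,1]],[true,false,true,true,false],[]⟩,
  ⟨2,[4],1,[[0],[3],[1,4,0],[1],[2]],[true,false,true,true,true],[]⟩,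
  ⟨2,[3],1,[[0],[4],[2,4],[0],[1,1]],[true,true,false,true,false],[]⟩,
  ⟨1,[3],1,[[0],[4],[2,4],[1],[0,1]],[true,true,false,true,false],[]⟩,
  ⟨1,[3],1,[[0],[4],[1,4],[0],[1,2]],[true,true,false,true,false],[]⟩],
  [⟨1,[3],1,[[0],[4],[1,4],[1],[0,2]],[true,true,false,true,false],[]⟩,
  ⟨1,[3],1,[[0],[4],[1,4],[2],[0,1]],[true,true,false,true,false],[]⟩,
  ⟨1,[4],1,[[0],[4],[1,3],[0],[1,2]],[true,true,true,true,false],[]⟩,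
  ⟨1,[4],1,[[0],[4],[1,2],[0],[1,3]],[true,true,false,true,true],[]⟩,
  ⟨1,[3],1,[[0],[4],[0,4],[1],[1,2]],[true,true,false,true,false],[]⟩,
  ⟨2,[3],1,[[0],[4],[0,4],[2],[1,1]],[true,true,false,true,false],[]⟩,
  ⟨1,[4],1,[[0],[4],[0,2],[1],[1,3]],[true,true,false,true,true],[]⟩,
  ⟨2,[4],1,[[0],[4],[1,3,2],[0],[1]],[true,true,false,true,true],[]⟩,
  ⟨2,[4],1,[[0],[4],[1,3,1],[0],[2]],[true,true,false,true,true],[]⟩,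
  ⟨2,[4],1,[[0],[4],[0,3,1],[1],[2]],[true,true,false,true,true],[]⟩,
  ⟨1,[],1,[[0],[4],[3,4,1,2],[0],[1]],[true,true,true,true,true],[]⟩,
  ⟨2,[],1,[[0],[4],[3,4,1,1],[0],[2]],[true,true,true,true,true],[]⟩,
  ⟨2,[],1,[[0],[4],[3,4,0,1],[1],[2]],[true,true,true,true,true],[]⟩,
  ⟨1,[1],1,[[0],[4,4],[1,2],[0],[3]],[true,false,false,true,false],[]⟩,
  ⟨1,[0],1,[[0],[4,4],[1,2],[1],[3]],[true,false,false,true,false],[]⟩,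
  ⟨2,[2],1,[[0],[4,4],[1,1],[0],[3]],[true,false,false,true,false],[]⟩,
  ⟨2,[0],1,[[0],[4,4],[1,1],[2],[3]],[true,false,false,true,false],[]⟩,
  ⟨1,[1],1,[[0],[4,4],[0,2],[1],[3]],[true,false,false,true,false],[]⟩,
  ⟨1,[2],1,[[0],[4,4],[0,1],[1],[3]],[true,false,false,true,false],[]⟩,
  ⟨1,[1],1,[[0],[4,4],[0,1],[2],[3]],[true,false,false,true,false],[]⟩,
  ⟨1,[4],1,[[0],[1,3],[0,1],[2],[4]],[true,true,false,true,true],[]⟩,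
  ⟨2,[4],1,[[1],[2],[3],[0],[1,4,0]],[true,true,false,true,true],[]⟩,
  ⟨1,[4],1,[[1],[2],[3],[0],[0,4,1]],[true,true,false,true,true],[]⟩,
  ⟨2,[],1,[[1],[2],[4],[0],[3,4,1,0]],[true,true,true,true,true],[]⟩,
  ⟨1,[],1,[[1],[2],[4],[0],[3,4,0,1]],[true,true,true,true,true],[]⟩],
  [⟨1,[3,0,0],1,[[1],[2],[4],[1],[4]],[true,true,true,true,true],[]⟩,
  ⟨1,[4],1,[[1],[2],[4],[1],[0,3,0]],[true,true,true,true,false],[]⟩,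
  ⟨2,[],1,[[1],[2],[4],[1],[3,4,0,0]],[true,true,true,true,true],[]⟩,
  ⟨2,[0,4],1,[[1],[2],[3,4],[0],[1]],[true,true,true,true,true],[]⟩,
  ⟨2,[4],1,[[1],[2],[1,3],[4],[0,0]],[true,true,true,true,false],[]⟩,
  ⟨1,[4],1,[[1],[2],[0,4,1],[0],[3]],[true,true,true,true,false],[]⟩,
  ⟨1,[4],1,[[1],[2],[1,3,0],[0],[4]],[true,true,false,true,true],[]⟩,
  ⟨2,[4],1,[[1],[2],[0,3,1],[0],[4]],[true,true,false,true,true],[]⟩,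
  ⟨1,[4],1,[[1],[2],[0,4,0],[1],[3]],[true,true,true,true,false],[]⟩,
  ⟨1,[4],1,[[1],[2],[0,3,0],[1],[4]],[true,true,false,true,true],[]⟩,
  ⟨1,[],1,[[1],[2],[3,4,0,4],[0],[1]],[true,true,true,true,true],[]⟩,
  ⟨1,[0,0],1,[[1],[3],[4],[4],[1,2]],[true,false,true,true,false],[]⟩,
  ⟨1,[0,1],1,[[1],[3],[4],[4],[0,2]],[true,false,true,true,false],[]⟩,
  ⟨1,[1,0],1,[[1],[3],[4],[4],[0,2]],[true,false,true,true,false],[]⟩,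
  ⟨1,[0,2],1,[[1],[3],[4],[4],[0,1]],[true,false,true,true,false],[]⟩,
  ⟨1,[2,0],1,[[1],[3],[4],[4],[0,1]],[true,false,true,true,false],[]⟩,
  ⟨2,[1,2],1,[[1],[3],[4],[4],[0,0]],[true,false,true,true,false],[]⟩,
  ⟨2,[2,1],1,[[1],[3],[4],[4],[0,0]],[true,false,true,true,false],[]⟩,
  ⟨1,[0,4],1,[[1],[3],[1,2],[0],[4]],[true,false,false,true,true],[]⟩,
  ⟨1,[1,4],1,[[1],[3],[0,2],[0],[4]],[true,false,false,true,true],[]⟩,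
  ⟨1,[0,4],1,[[1],[3],[0,2],[1],[4]],[true,false,false,true,true],[]⟩,
  ⟨1,[2,4],1,[[1],[3],[0,1],[0],[4]],[true,false,false,true,true],[]⟩,
  ⟨1,[0,4],1,[[1],[3],[0,1],[2],[4]],[true,false,false,true,true],[]⟩,
  ⟨2,[2,4],1,[[1],[3],[0,0],[1],[4]],[true,false,false,true,true],[]⟩,
  ⟨2,[1,4],1,[[1],[3],[0,0],[2],[4]],[true,false,false,true,true],[]⟩],
  [⟨1,[],1,[[1],[3],[4,4,2],[0],[0,1]],[true,false,true,true,false],[]⟩,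
  ⟨2,[],1,[[1],[3],[4,4,2],[1],[0,0]],[true,false,true,true,false],[]⟩,
  ⟨1,[],1,[[1],[3],[4,4,1],[0],[0,2]],[true,false,true,true,false],[]⟩,
  ⟨2,[],1,[[1],[3],[4,4,1],[2],[0,0]],[true,false,true,true,false],[]⟩,
  ⟨1,[],1,[[1],[3],[4,4,0],[0],[1,2]],[true,false,true,true,false],[]⟩,
  ⟨1,[],1,[[1],[3],[4,4,0],[1],[0,2]],[true,false,true,true,false],[]⟩,
  ⟨1,[],1,[[1],[3],[4,4,0],[2],[0,1]],[true,false,true,true,false],[]⟩,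
  ⟨2,[4],1,[[1],[3],[2,4,0],[0],[1]],[true,false,true,true,true],[]⟩,
  ⟨1,[4],1,[[1],[3],[0,4,2],[0],[1]],[true,false,true,true,true],[]⟩,
  ⟨2,[4],1,[[1],[3],[0,4,0],[1],[2]],[true,false,true,true,true],[]⟩,
  ⟨1,[3],1,[[1],[4],[2,4],[0],[0,1]],[true,true,false,true,false],[]⟩,
  ⟨2,[3],1,[[1],[4],[2,4],[1],[0,0]],[true,true,false,true,false],[]⟩,
  ⟨1,[3],1,[[1],[4],[1,4],[0],[0,2]],[true,true,false,true,false],[]⟩,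
  ⟨2,[3],1,[[1],[4],[1,4],[2],[0,0]],[true,true,false,true,false],[]⟩,
  ⟨2,[4],1,[[1],[4],[1,3],[2],[0,0]],[true,true,true,true,false],[]⟩,
  ⟨1,[4],1,[[1],[4],[1,2],[0],[0,3]],[true,true,false,true,true],[]⟩,
  ⟨1,[3],1,[[1],[4],[0,4],[0],[1,2]],[true,true,false,true,false],[]⟩,
  ⟨1,[3],1,[[1],[4],[0,4],[1],[0,2]],[true,true,false,true,false],[]⟩,
  ⟨1,[3],1,[[1],[4],[0,4],[2],[0,1]],[true,true,false,true,false],[]⟩,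
  ⟨2,[4],1,[[1],[4],[0,3],[1],[0,2]],[true,true,true,true,false],[]⟩,
  ⟨2,[4],1,[[1],[4],[0,3],[2],[0,1]],[true,true,true,true,false],[]⟩,
  ⟨1,[4],1,[[1],[4],[0,3,2],[0],[1]],[true,true,false,true,true],[]⟩,
  ⟨1,[4],1,[[1],[4],[1,3,0],[0],[2]],[true,true,false,true,true],[]⟩,
  ⟨2,[4],1,[[1],[4],[0,3,1],[0],[2]],[true,true,false,true,true],[]⟩,
  ⟨1,[],1,[[1],[4],[3,4,2,0],[0],[1]],[true,true,true,true,true],[]⟩],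
  [⟨1,[],1,[[1],[4],[3,4,0,2],[0],[1]],[true,true,true,true,true],[]⟩,
  ⟨1,[],1,[[1],[4],[3,4,0,0],[1],[2]],[true,true,true,true,true],[]⟩,
  ⟨1,[0],1,[[1],[4,4],[1,2],[0],[3]],[true,false,false,true,false],[]⟩,
  ⟨1,[1],1,[[1],[4,4],[0,2],[0],[3]],[true,false,false,true,false],[]⟩,
  ⟨1,[0],1,[[1],[4,4],[0,2],[1],[3]],[true,false,false,true,false],[]⟩,
  ⟨1,[2],1,[[1],[4,4],[0,1],[0],[3]],[true,false,false,true,false],[]⟩,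
  ⟨1,[0],1,[[1],[4,4],[0,1],[2],[3]],[true,false,false,true,false],[]⟩,
  ⟨2,[2],1,[[1],[4,4],[0,0],[1],[3]],[true,false,false,true,false],[]⟩,
  ⟨2,[1],1,[[1],[4,4],[0,0],[2],[3]],[true,false,false,true,false],[]⟩,
  ⟨1,[4],1,[[1],[1,3],[0,2],[0],[4]],[true,true,false,true,true],[]⟩,
  ⟨1,[4],1,[[1],[1,2],[0,3],[0],[4]],[true,false,true,true,true],[]⟩,
  ⟨1,[4],1,[[1],[0,3],[0,2],[1],[4]],[true,true,false,true,true],[]⟩,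
  ⟨1,[4],1,[[1],[0,3],[0,1],[2],[4]],[true,true,false,true,true],[]⟩,
  ⟨2,[0,0],1,[[2],[3],[4],[4],[1,1]],[true,false,true,true,false],[]⟩,
  ⟨1,[0,1],1,[[2],[3],[4],[4],[0,1]],[true,false,true,true,false],[]⟩,
  ⟨1,[1,0],1,[[2],[3],[4],[4],[0,1]],[true,false,true,true,false],[]⟩,
  ⟨2,[1,1],1,[[2],[3],[4],[4],[0,0]],[true,false,true,true,false],[]⟩,
  ⟨2,[0,4],1,[[2],[3],[1,1],[0],[4]],[true,false,false,true,true],[]⟩,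
  ⟨1,[1,4],1,[[2],[3],[0,1],[0],[4]],[true,false,false,true,true],[]⟩,
  ⟨1,[0,4],1,[[2],[3],[0,1],[1],[4]],[true,false,false,true,true],[]⟩,
  ⟨2,[1,4],1,[[2],[3],[0,0],[1],[4]],[true,false,false,true,true],[]⟩,
  ⟨1,[],1,[[2],[3],[4,4,1],[0],[0,1]],[true,false,true,true,false],[]⟩,
  ⟨2,[],1,[[2],[3],[4,4,1],[1],[0,0]],[true,false,true,true,false],[]⟩,
  ⟨2,[],1,[[2],[3],[4,4,0],[0],[1,1]],[true,false,true,true,false],[]⟩,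
  ⟨1,[],1,[[2],[3],[4,4,0],[1],[0,1]],[true,false,true,true,false],[]⟩],
  [⟨1,[4],1,[[2],[3],[1,4,0],[0],[1]],[true,false,true,true,true],[]⟩,
  ⟨1,[3],1,[[2],[4],[1,4],[0],[0,1]],[true,true,false,true,false],[]⟩,
  ⟨2,[3],1,[[2],[4],[1,4],[1],[0,0]],[true,true,false,true,false],[]⟩,
  ⟨1,[4],1,[[2],[4],[1,1],[0],[0,3]],[true,true,false,true,true],[]⟩,
  ⟨2,[3],1,[[2],[4],[0,4],[0],[1,1]],[true,true,false,true,false],[]⟩,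
  ⟨1,[3],1,[[2],[4],[0,4],[1],[0,1]],[true,true,false,true,false],[]⟩,
  ⟨1,[4],1,[[2],[4],[0,3],[0],[1,1]],[true,true,true,true,false],[]⟩,
  ⟨2,[4],1,[[2],[4],[0,3],[1],[0,1]],[true,true,true,true,false],[]⟩,
  ⟨1,[4],1,[[2],[4],[0,1],[0],[1,3]],[true,true,false,true,true],[]⟩,
  ⟨2,[],1,[[2],[4],[3,4,1,0],[0],[1]],[true,true,true,true,true],[]⟩,
  ⟨1,[],1,[[2],[4],[3,4,0,1],[0],[1]],[true,true,true,true,true],[]⟩,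
  ⟨2,[0],1,[[2],[4,4],[1,1],[0],[3]],[true,false,false,true,false],[]⟩,
  ⟨1,[1],1,[[2],[4,4],[0,1],[0],[3]],[true,false,false,true,false],[]⟩,
  ⟨1,[0],1,[[2],[4,4],[0,1],[1],[3]],[true,false,false,true,false],[]⟩,
  ⟨2,[1],1,[[2],[4,4],[0,0],[1],[3]],[true,false,false,true,false],[]⟩,
  ⟨1,[4],1,[[2],[1,3],[0,0],[1],[4]],[true,true,false,true,true],[]⟩,
  ⟨1,[4],1,[[2],[0,3],[0,1],[1],[4]],[true,true,false,true,true],[]⟩,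
  ⟨2,[0],1,[[3],[4],[2,4],[0],[1,1]],[false,true,false,true,false],[]⟩,
  ⟨1,[1],1,[[3],[4],[2,4],[0],[0,1]],[false,true,false,true,false],[]⟩,
  ⟨1,[0],1,[[3],[4],[2,4],[1],[0,1]],[false,true,false,true,false],[]⟩,
  ⟨2,[1],1,[[3],[4],[2,4],[1],[0,0]],[false,true,false,true,false],[]⟩,
  ⟨1,[0],1,[[3],[4],[1,4],[0],[1,2]],[false,true,false,true,false],[]⟩,
  ⟨1,[1],1,[[3],[4],[1,4],[0],[0,2]],[false,true,false,true,false],[]⟩,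
  ⟨1,[2],1,[[3],[4],[1,4],[0],[0,1]],[false,true,false,true,false],[]⟩,
  ⟨1,[0],1,[[3],[4],[1,4],[1],[0,2]],[false,true,false,true,false],[]⟩],
  [⟨2,[2],1,[[3],[4],[1,4],[1],[0,0]],[false,true,false,true,false],[]⟩,
  ⟨1,[0],1,[[3],[4],[1,4],[2],[0,1]],[false,true,false,true,false],[]⟩,
  ⟨2,[1],1,[[3],[4],[1,4],[2],[0,0]],[false,true,false,true,false],[]⟩,
  ⟨1,[1],1,[[3],[4],[0,4],[0],[1,2]],[false,true,false,true,false],[]⟩,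
  ⟨2,[2],1,[[3],[4],[0,4],[0],[1,1]],[false,true,false,true,false],[]⟩,
  ⟨1,[0],1,[[3],[4],[0,4],[1],[1,2]],[false,true,false,true,false],[]⟩,
  ⟨1,[1],1,[[3],[4],[0,4],[1],[0,2]],[false,true,false,true,false],[]⟩,
  ⟨1,[2],1,[[3],[4],[0,4],[1],[0,1]],[false,true,false,true,false],[]⟩,
  ⟨2,[0],1,[[3],[4],[0,4],[2],[1,1]],[false,true,false,true,false],[]⟩,
  ⟨1,[1],1,[[3],[4],[0,4],[2],[0,1]],[false,true,false,true,false],[]⟩,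
  ⟨1,[4],1,[[4],[1,3],[0,2],[0],[1]],[true,true,false,true,true],[]⟩,
  ⟨2,[4],1,[[4],[1,3],[0,1],[0],[2]],[true,true,false,true,true],[]⟩,
  ⟨1,[4],1,[[4],[1,3],[0,0],[1],[2]],[true,true,false,true,true],[]⟩,
  ⟨1,[],1,[[4,4],[1,2],[0,1],[0],[3]],[false,false,false,true,false],[]⟩,
  ⟨2,[],1,[[4,4],[1,2],[0,0],[1],[3]],[false,false,false,true,false],[]⟩,
  ⟨2,[],1,[[4,4],[1,1],[0,2],[0],[3]],[false,false,false,true,false],[]⟩,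
  ⟨1,[],1,[[4,4],[1,1],[0,0],[2],[3]],[false,false,false,true,false],[]⟩,
  ⟨1,[],1,[[4,4],[0,2],[0,1],[1],[3]],[false,false,false,true,false],[]⟩,
  ⟨2,[],1,[[4,4],[0,1],[0,1],[2],[3]],[false,false,false,true,false],[]⟩,
  ⟨2,[4],0,[[0],[0],[1],[1],[4],[2,3]],[true,true,true,true,true,true],[]⟩,
  ⟨2,[2,4],0,[[0],[0],[1],[3],[1],[4]],[true,true,true,false,true,true],[]⟩,
  ⟨2,[1,4],0,[[0],[0],[1],[3],[2],[4]],[true,true,true,false,true,true],[]⟩,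
  ⟨1,[4],0,[[0],[0],[1],[4],[3],[1,2]],[true,true,true,true,false,false],[]⟩,
  ⟨2,[4],0,[[0],[0],[1],[2,3],[1],[4]],[true,true,true,true,true,true],[]⟩,
  ⟨2,[1,4],0,[[0],[0],[2],[3],[1],[4]],[true,true,true,false,true,true],[]⟩],
  [⟨2,[4],0,[[0],[0],[2],[4],[3],[1,1]],[true,true,true,true,false,false],[]⟩,
  ⟨2,[],0,[[0],[0],[3],[2,4],[1],[1,4]],[true,true,false,false,true,false],[]⟩,
  ⟨2,[],0,[[0],[0],[3],[1,4],[1],[2,4]],[true,true,false,false,true,false],[]⟩,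
  ⟨2,[],0,[[0],[0],[3],[1,4],[2],[1,4]],[true,true,false,false,true,false],[]⟩,
  ⟨2,[2,4],0,[[0],[1],[1],[3],[0],[4]],[true,true,true,false,true,true],[]⟩,
  ⟨2,[0,4],0,[[0],[1],[1],[3],[2],[4]],[true,true,true,false,true,true],[]⟩,
  ⟨1,[4],0,[[0],[1],[1],[4],[3],[0,2]],[true,true,true,true,false,false],[]⟩,
  ⟨2,[4],0,[[0],[1],[1],[2,3],[0],[4]],[true,true,true,true,true,true],[]⟩,
  ⟨1,[1,4],0,[[0],[1],[2],[3],[0],[4]],[true,true,true,false,true,true],[]⟩,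
  ⟨1,[0,4],0,[[0],[1],[2],[3],[1],[4]],[true,true,true,false,true,true],[]⟩,
  ⟨2,[4],0,[[0],[1],[2],[4],[3],[0,1]],[true,true,true,true,false,false],[]⟩,
  ⟨1,[],0,[[0],[1],[3],[2,4],[0],[1,4]],[true,true,false,false,true,false],[]⟩,
  ⟨1,[],0,[[0],[1],[3],[2,4],[1],[0,4]],[true,true,false,false,true,false],[]⟩,
  ⟨1,[],0,[[0],[1],[3],[1,4],[0],[2,4]],[true,true,false,false,true,false],[]⟩,
  ⟨1,[],0,[[0],[1],[3],[1,4],[2],[0,4]],[true,true,false,false,true,false],[]⟩,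
  ⟨1,[],0,[[0],[1],[3],[0,4],[1],[2,4]],[true,true,false,false,true,false],[]⟩,
  ⟨1,[],0,[[0],[1],[3],[0,4],[2],[1,4]],[true,true,false,false,true,false],[]⟩,
  ⟨1,[],0,[[0],[2],[3],[1,4],[0],[1,4]],[true,true,false,false,true,false],[]⟩,
  ⟨1,[],0,[[0],[2],[3],[1,4],[1],[0,4]],[true,true,false,false,true,false],[]⟩,
  ⟨1,[],0,[[0],[2],[3],[0,4],[1],[1,4]],[true,true,false,false,true,false],[]⟩,
  ⟨2,[0,4],0,[[1],[1],[2],[3],[0],[4]],[true,true,true,false,true,true],[]⟩,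
  ⟨2,[4],0,[[1],[1],[2],[4],[3],[0,0]],[true,true,true,true,false,false],[]⟩,
  ⟨2,[],0,[[1],[1],[3],[2,4],[0],[0,4]],[true,true,false,false,true,false],[]⟩,
  ⟨2,[],0,[[1],[1],[3],[0,4],[0],[2,4]],[true,true,false,false,true,false],[]⟩,
  ⟨2,[],0,[[1],[1],[3],[0,4],[2],[0,4]],[true,true,false,false,true,false],[]⟩],
  [⟨1,[],0,[[1],[2],[3],[1,4],[0],[0,4]],[true,true,false,false,true,false],[]⟩,
  ⟨1,[],0,[[1],[2],[3],[0,4],[0],[1,4]],[true,true,false,false,true,false],[]⟩,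
  ⟨1,[],0,[[1],[2],[3],[0,4],[1],[0,4]],[true,true,false,false,true,false],[]⟩,
  ⟨1,[],1,[[1],[2],[1,3],[0],[4]],[true,true,true,true,true],[4,0]⟩,
  ⟨1,[],1,[[1],[2],[0],[4],[0,3]],[true,true,true,true,true],[4,1]⟩,
  ⟨1,[],1,[[1],[2],[4],[1],[0,3]],[true,true,true,true,true],[4,0]⟩,
  ⟨1,[],1,[[1],[2],[4],[0],[1,3]],[true,true,true,true,true],[4,0]⟩,
  ⟨2,[],1,[[1],[1,2],[0,0],[3],[4]],[true,false,false,false,true],[4]⟩,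
  ⟨1,[],1,[[1],[1,0],[2,0],[3],[4]],[true,false,false,false,true],[4]⟩,
  ⟨1,[],1,[[1],[0],[1,3],[2],[4]],[true,true,true,true,true],[4,0]⟩,
  ⟨2,[],1,[[1],[0],[1,3],[0],[4]],[true,true,true,true,true],[4,2]⟩,
  ⟨1,[],1,[[1],[0],[2,3],[1],[4]],[true,true,true,true,true],[4,0]⟩,
  ⟨2,[],1,[[1],[0],[2,3],[0],[4]],[true,true,true,true,true],[4,1]⟩,
  ⟨1,[],1,[[1],[0],[0,3],[1],[4]],[true,true,true,true,true],[4,2]⟩,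
  ⟨1,[],1,[[1],[0],[0,3],[2],[4]],[true,true,true,true,true],[4,1]⟩,
  ⟨1,[],1,[[1],[0],[4],[2],[1,3]],[true,true,true,true,true],[4,0]⟩,
  ⟨2,[],1,[[1],[3],[1,2],[0],[4]],[true,false,false,true,true],[4,0]⟩,
  ⟨2,[],1,[[1],[3],[1,0],[2],[4]],[true,false,false,true,true],[4,0]⟩,
  ⟨2,[],1,[[1],[3],[1,0],[0],[4]],[true,false,false,true,true],[4,2]⟩,
  ⟨2,[],1,[[1],[3],[2,0],[1],[4]],[true,false,false,true,true],[4,0]⟩,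
  ⟨2,[],1,[[1],[3],[2,0],[0],[4]],[true,false,false,true,true],[4,1]⟩,
  ⟨1,[],1,[[1],[3],[0,0],[1],[4]],[true,false,false,true,true],[4,2]⟩,
  ⟨1,[],1,[[1],[3],[0,0],[2],[4]],[true,false,false,true,true],[4,1]⟩,
  ⟨1,[],1,[[1],[4],[1,2],[0],[3]],[true,true,false,true,false],[0,4]⟩,
  ⟨2,[],1,[[1],[4],[1,2],[0],[4]],[true,true,false,true,true],[0,3]⟩],
  [⟨2,[],1,[[1],[4],[1,2],[4],[0,0]],[true,true,false,true,false],[3]⟩,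
  ⟨1,[],1,[[1],[4],[1,0],[2],[3]],[true,true,false,true,false],[0,4]⟩,
  ⟨2,[],1,[[1],[4],[1,0],[2],[4]],[true,true,false,true,true],[0,3]⟩,
  ⟨1,[],1,[[1],[4],[1,0],[0],[3]],[true,true,false,true,false],[2,4]⟩,
  ⟨2,[],1,[[1],[4],[1,0],[0],[4]],[true,true,false,true,true],[2,3]⟩,
  ⟨1,[],1,[[1],[4],[1,0],[4],[2,0]],[true,true,false,true,false],[3]⟩,
  ⟨1,[],1,[[1],[4],[1,3],[2],[0,4]],[true,true,true,true,false],[0]⟩,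
  ⟨1,[],1,[[1],[4],[1,3],[0],[2,4]],[true,true,true,true,false],[0]⟩,
  ⟨1,[],1,[[1],[4],[1,3],[0],[0,4]],[true,true,true,true,false],[2]⟩,
  ⟨1,[],1,[[1],[4],[2,0],[1],[3]],[true,true,false,true,false],[0,4]⟩,
  ⟨2,[],1,[[1],[4],[2,0],[1],[4]],[true,true,false,true,true],[0,3]⟩,
  ⟨1,[],1,[[1],[4],[2,0],[0],[3]],[true,true,false,true,false],[1,4]⟩,
  ⟨2,[],1,[[1],[4],[2,0],[0],[4]],[true,true,false,true,true],[1,3]⟩,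
  ⟨1,[],1,[[1],[4],[2,0],[4],[1,0]],[true,true,false,true,false],[3]⟩,
  ⟨1,[],1,[[1],[4],[2,3],[1],[0,4]],[true,true,true,true,false],[0]⟩,
  ⟨1,[],1,[[1],[4],[2,3],[1],[0]],[true,true,true,true,true],[4,0]⟩,
  ⟨1,[],1,[[1],[4],[2,3],[0],[1,4]],[true,true,true,true,false],[0]⟩,
  ⟨1,[],1,[[1],[4],[2,3],[0],[0,4]],[true,true,true,true,false],[1]⟩,
  ⟨2,[],1,[[1],[4],[0,0],[1],[3]],[true,true,false,true,false],[2,4]⟩,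
  ⟨1,[],1,[[1],[4],[0,0],[1],[4]],[true,true,false,true,true],[2,3]⟩,
  ⟨2,[],1,[[1],[4],[0,0],[2],[3]],[true,true,false,true,false],[1,4]⟩,
  ⟨1,[],1,[[1],[4],[0,0],[2],[4]],[true,true,false,true,true],[1,3]⟩,
  ⟨2,[],1,[[1],[4],[0,0],[4],[1,2]],[true,true,false,true,false],[3]⟩,
  ⟨2,[],1,[[1],[4],[0,3],[1],[2]],[true,true,true,true,true],[4,0]⟩,
  ⟨1,[],1,[[1],[4],[0,3],[1],[2,4]],[true,true,true,true,false],[0]⟩],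
  [⟨1,[],1,[[1],[4],[0,3],[1],[0,4]],[true,true,true,true,false],[2]⟩,
  ⟨1,[],1,[[1],[4],[0,3],[1],[0]],[true,true,true,true,true],[4,2]⟩,
  ⟨1,[],1,[[1],[4],[0,3],[2],[1,4]],[true,true,true,true,false],[0]⟩,
  ⟨1,[],1,[[1],[4],[0,3],[2],[0,4]],[true,true,true,true,false],[1]⟩,
  ⟨1,[],1,[[1],[4],[0,3],[0],[1,4]],[true,true,true,true,false],[2]⟩,
  ⟨1,[],1,[[1],[4],[0,3],[0],[2,4]],[true,true,true,true,false],[1]⟩,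
  ⟨1,[],1,[[2],[1,1],[0,0],[3],[4]],[true,false,false,false,true],[4]⟩,
  ⟨2,[],1,[[2],[1,0],[1,0],[3],[4]],[true,false,false,false,true],[4]⟩,
  ⟨1,[],1,[[2],[0],[1,3],[0],[4]],[true,true,true,true,true],[4,1]⟩,
  ⟨1,[],1,[[2],[0],[4],[1],[0,3]],[true,true,true,true,true],[4,1]⟩,
  ⟨1,[],1,[[2],[0],[4],[0],[1,3]],[true,true,true,true,true],[4,1]⟩,
  ⟨1,[],1,[[2],[3],[1,1],[0],[4]],[true,false,false,true,true],[4,0]⟩,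
  ⟨2,[],1,[[2],[3],[1,0],[1],[4]],[true,false,false,true,true],[4,0]⟩,
  ⟨2,[],1,[[2],[3],[1,0],[0],[4]],[true,false,false,true,true],[4,1]⟩,
  ⟨1,[],1,[[2],[3],[0,0],[1],[4]],[true,false,false,true,true],[4,1]⟩,
  ⟨2,[],1,[[2],[4],[1,1],[0],[3]],[true,true,false,true,false],[0,4]⟩,
  ⟨1,[],1,[[2],[4],[1,1],[0],[4]],[true,true,false,true,true],[0,3]⟩,
  ⟨1,[],1,[[2],[4],[1,1],[4],[0,0]],[true,true,false,true,false],[3]⟩,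
  ⟨1,[],1,[[2],[4],[1,0],[1],[3]],[true,true,false,true,false],[0,4]⟩,
  ⟨2,[],1,[[2],[4],[1,0],[1],[4]],[true,true,false,true,true],[0,3]⟩,
  ⟨1,[],1,[[2],[4],[1,0],[0],[3]],[true,true,false,true,false],[1,4]⟩,
  ⟨2,[],1,[[2],[4],[1,0],[0],[4]],[true,true,false,true,true],[1,3]⟩,
  ⟨1,[],1,[[2],[4],[1,0],[4],[1,0]],[true,true,false,true,false],[3]⟩,
  ⟨1,[],1,[[2],[4],[1,3],[1],[0,4]],[true,true,true,true,false],[0]⟩,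
  ⟨1,[],1,[[2],[4],[1,3],[0],[1,4]],[true,true,true,true,false],[0]⟩],
  [⟨1,[],1,[[2],[4],[1,3],[0],[0,4]],[true,true,true,true,false],[1]⟩,
  ⟨2,[],1,[[2],[4],[0,0],[1],[3]],[true,true,false,true,false],[1,4]⟩,
  ⟨1,[],1,[[2],[4],[0,0],[1],[4]],[true,true,false,true,true],[1,3]⟩,
  ⟨1,[],1,[[2],[4],[0,0],[4],[1,1]],[true,true,false,true,false],[3]⟩,
  ⟨1,[],1,[[2],[4],[0,3],[1],[1,4]],[true,true,true,true,false],[0]⟩,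
  ⟨1,[],1,[[2],[4],[0,3],[1],[0,4]],[true,true,true,true,false],[1]⟩,
  ⟨1,[],1,[[2],[4],[0,3],[0],[1,4]],[true,true,true,true,false],[1]⟩,
  ⟨2,[],1,[[0],[1,1],[2,0],[3],[4]],[true,false,false,false,true],[4]⟩,
  ⟨1,[],1,[[0],[1,2],[1,0],[3],[4]],[true,false,false,false,true],[4]⟩,
  ⟨1,[],1,[[0],[3],[1,1],[2],[4]],[true,false,false,true,true],[4,0]⟩,
  ⟨1,[],1,[[0],[3],[1,1],[0],[4]],[true,false,false,true,true],[4,2]⟩,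
  ⟨2,[],1,[[0],[3],[1,2],[1],[4]],[true,false,false,true,true],[4,0]⟩,
  ⟨2,[],1,[[0],[3],[1,2],[0],[4]],[true,false,false,true,true],[4,1]⟩,
  ⟨2,[],1,[[0],[3],[1,0],[1],[4]],[true,false,false,true,true],[4,2]⟩,
  ⟨2,[],1,[[0],[3],[1,0],[2],[4]],[true,false,false,true,true],[4,1]⟩,
  ⟨2,[],1,[[0],[3],[2,0],[1],[4]],[true,false,false,true,true],[4,1]⟩,
  ⟨2,[],1,[[0],[4],[1,1],[2],[3]],[true,true,false,true,false],[0,4]⟩,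
  ⟨1,[],1,[[0],[4],[1,1],[2],[4]],[true,true,false,true,true],[0,3]⟩,
  ⟨2,[],1,[[0],[4],[1,1],[0],[3]],[true,true,false,true,false],[2,4]⟩,
  ⟨1,[],1,[[0],[4],[1,1],[0],[4]],[true,true,false,true,true],[2,3]⟩,
  ⟨2,[],1,[[0],[4],[1,1],[4],[2,0]],[true,true,false,true,false],[3]⟩,
  ⟨1,[],1,[[0],[4],[1,2],[1],[3]],[true,true,false,true,false],[0,4]⟩,
  ⟨2,[],1,[[0],[4],[1,2],[1],[4]],[true,true,false,true,true],[0,3]⟩,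
  ⟨1,[],1,[[0],[4],[1,2],[0],[3]],[true,true,false,true,false],[1,4]⟩,
  ⟨2,[],1,[[0],[4],[1,2],[0],[4]],[true,true,false,true,true],[1,3]⟩],
  [⟨1,[],1,[[0],[4],[1,2],[4],[1,0]],[true,true,false,true,false],[3]⟩,
  ⟨1,[],1,[[0],[4],[1,0],[1],[3]],[true,true,false,true,false],[2,4]⟩,
  ⟨2,[],1,[[0],[4],[1,0],[1],[4]],[true,true,false,true,true],[2,3]⟩,
  ⟨1,[],1,[[0],[4],[1,0],[2],[3]],[true,true,false,true,false],[1,4]⟩,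
  ⟨2,[],1,[[0],[4],[1,0],[2],[4]],[true,true,false,true,true],[1,3]⟩,
  ⟨1,[],1,[[0],[4],[1,0],[4],[1,2]],[true,true,false,true,false],[3]⟩,
  ⟨1,[],1,[[0],[4],[1,3],[1],[2,4]],[true,true,true,true,false],[0]⟩,
  ⟨1,[],1,[[0],[4],[1,3],[1],[0,4]],[true,true,true,true,false],[2]⟩,
  ⟨2,[],1,[[0],[4],[1,3],[1],[0]],[true,true,true,true,true],[4,2]⟩,
  ⟨1,[],1,[[0],[4],[1,3],[2],[1,4]],[true,true,true,true,false],[0]⟩,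
  ⟨1,[],1,[[0],[4],[1,3],[2],[0,4]],[true,true,true,true,false],[1]⟩,
  ⟨1,[],1,[[0],[4],[1,3],[0],[1,4]],[true,true,true,true,false],[2]⟩,
  ⟨1,[],1,[[0],[4],[1,3],[0],[2,4]],[true,true,true,true,false],[1]⟩,
  ⟨1,[],1,[[0],[4],[2,0],[1],[3]],[true,true,false,true,false],[1,4]⟩,
  ⟨2,[],1,[[0],[4],[2,0],[1],[4]],[true,true,false,true,true],[1,3]⟩,
  ⟨2,[],1,[[0],[4],[2,0],[4],[1,1]],[true,true,false,true,false],[3]⟩,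
  ⟨1,[],1,[[0],[4],[2,3],[1],[1,4]],[true,true,true,true,false],[0]⟩,
  ⟨1,[],1,[[0],[4],[2,3],[1],[0,4]],[true,true,true,true,false],[1]⟩,
  ⟨2,[],1,[[0],[4],[2,3],[1],[0]],[true,true,true,true,true],[4,1]⟩,
  ⟨1,[],1,[[0],[4],[2,3],[0],[1,4]],[true,true,true,true,false],[1]⟩,
  ⟨1,[],1,[[0],[4],[0,3],[1],[2]],[true,true,true,true,true],[4,1]⟩,
  ⟨1,[],1,[[0],[4],[0,3],[1],[1,4]],[true,true,true,true,false],[2]⟩,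
  ⟨1,[],1,[[0],[4],[0,3],[1],[2,4]],[true,true,true,true,false],[1]⟩,
  ⟨1,[],1,[[0],[4],[0,3],[2],[1,4]],[true,true,true,true,false],[1]⟩,
  ⟨2,[],0,[[1],[1],[2],[0,3],[0],[4]],[true,true,true,true,true,true],[4]⟩],
  [⟨2,[],0,[[1],[1],[2],[0],[3],[4,4]],[true,true,true,true,false,false],[0]⟩,
  ⟨2,[],0,[[1],[1],[2],[3],[0],[0,4]],[true,true,true,false,true,false],[4]⟩,
  ⟨2,[],0,[[1],[1],[2],[3],[0],[4]],[true,true,true,false,true,true],[0,4]⟩,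
  ⟨2,[],0,[[1],[1],[0],[2,3],[0],[4]],[true,true,true,true,true,true],[4]⟩,
  ⟨2,[],0,[[1],[1],[0],[0,3],[2],[4]],[true,true,true,true,true,true],[4]⟩,
  ⟨1,[],0,[[1],[1],[0],[0],[3],[4,4]],[true,true,true,true,false,false],[2]⟩,
  ⟨2,[],0,[[1],[1],[0],[3],[2],[0,4]],[true,true,true,false,true,false],[4]⟩,
  ⟨2,[],0,[[1],[1],[0],[3],[2],[4]],[true,true,true,false,true,true],[0,4]⟩,
  ⟨2,[],0,[[1],[1],[0],[3],[0],[2,4]],[true,true,true,false,true,false],[4]⟩,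
  ⟨2,[],0,[[1],[1],[0],[3],[0],[4]],[true,true,true,false,true,true],[2,4]⟩,
  ⟨1,[],0,[[1],[2],[0],[1,3],[0],[4]],[true,true,true,true,true,true],[4]⟩,
  ⟨1,[],0,[[1],[2],[0],[0,3],[1],[4]],[true,true,true,true,true,true],[4]⟩,
  ⟨2,[],0,[[1],[2],[0],[0],[3],[4,4]],[true,true,true,true,false,false],[1]⟩,
  ⟨1,[],0,[[1],[2],[0],[3],[1],[0,4]],[true,true,true,false,true,false],[4]⟩,
  ⟨1,[],0,[[1],[2],[0],[3],[1],[4]],[true,true,true,false,true,true],[0,4]⟩,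
  ⟨1,[],0,[[1],[2],[0],[3],[0],[1,4]],[true,true,true,false,true,false],[4]⟩,
  ⟨1,[],0,[[1],[2],[0],[3],[0],[4]],[true,true,true,false,true,true],[1,4]⟩,
  ⟨2,[],0,[[1],[0],[0],[1,3],[2],[4]],[true,true,true,true,true,true],[4]⟩,
  ⟨2,[],0,[[1],[0],[0],[2,3],[1],[4]],[true,true,true,true,true,true],[4]⟩,
  ⟨2,[],0,[[1],[0],[0],[3],[1],[2,4]],[true,true,true,false,true,false],[4]⟩,
  ⟨2,[],0,[[1],[0],[0],[3],[1],[4]],[true,true,true,false,true,true],[2,4]⟩,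
  ⟨2,[],0,[[1],[0],[0],[3],[2],[1,4]],[true,true,true,false,true,false],[4]⟩,
  ⟨2,[],0,[[1],[0],[0],[3],[2],[4]],[true,true,true,false,true,true],[1,4]⟩,
  ⟨2,[],0,[[2],[0],[0],[1,3],[1],[4]],[true,true,true,true,true,true],[4]⟩,
  ⟨2,[],0,[[2],[0],[0],[3],[1],[1,4]],[true,true,true,false,true,false],[4]⟩],
  [⟨2,[],0,[[2],[0],[0],[3],[1],[4]],[true,true,true,false,true,true],[1,4]⟩,
  ⟨2,[1],1,[[1],[3],[4],[2],[0,0]],[true,false,true,true,false],[4]⟩,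
  ⟨1,[1],1,[[1],[3],[4],[0],[2,0]],[true,false,true,true,false],[4]⟩,
  ⟨2,[1],1,[[1],[4],[2,0],[3],[4]],[true,true,false,false,true],[0]⟩,
  ⟨2,[1],1,[[1],[4],[2,3],[0],[4]],[true,true,true,true,true],[0]⟩,
  ⟨1,[1],1,[[1],[4],[0,0],[3],[4]],[true,true,false,false,true],[2]⟩,
  ⟨2,[1],1,[[1],[4],[0,3],[2],[4]],[true,true,true,true,true],[0]⟩,
  ⟨2,[1],1,[[1],[4],[0,3],[0],[4]],[true,true,true,true,true],[2]⟩,
  ⟨2,[1],1,[[2],[3],[4],[1],[0,0]],[true,false,true,true,false],[4]⟩,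
  ⟨1,[1],1,[[2],[3],[4],[0],[1,0]],[true,false,true,true,false],[4]⟩,
  ⟨2,[1],1,[[2],[4],[1,0],[3],[4]],[true,true,false,false,true],[0]⟩,
  ⟨2,[1],1,[[2],[4],[1,3],[0],[4]],[true,true,true,true,true],[0]⟩,
  ⟨1,[1],1,[[2],[4],[0,0],[3],[4]],[true,true,false,false,true],[1]⟩,
  ⟨2,[1],1,[[2],[4],[0,3],[1],[4]],[true,true,true,true,true],[0]⟩,
  ⟨2,[1],1,[[2],[4],[0,3],[0],[4]],[true,true,true,true,true],[1]⟩,
  ⟨1,[1],1,[[0],[3],[4],[1],[2,0]],[true,false,true,true,false],[4]⟩,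
  ⟨1,[1],1,[[0],[3],[4],[2],[1,0]],[true,false,true,true,false],[4]⟩,
  ⟨1,[1],1,[[0],[3],[4],[0],[1,2]],[true,false,true,true,false],[4]⟩,
  ⟨2,[1],1,[[0],[4],[1,2],[3],[4]],[true,true,false,false,true],[0]⟩,
  ⟨2,[1],1,[[0],[4],[1,0],[3],[4]],[true,true,false,false,true],[2]⟩,
  ⟨2,[1],1,[[0],[4],[1,3],[2],[4]],[true,true,true,true,true],[0]⟩,
  ⟨2,[1],1,[[0],[4],[1,3],[0],[4]],[true,true,true,true,true],[2]⟩,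
  ⟨2,[1],1,[[0],[4],[2,0],[3],[4]],[true,true,false,false,true],[1]⟩,
  ⟨2,[1],1,[[0],[4],[2,3],[1],[4]],[true,true,true,true,true],[0]⟩,
  ⟨2,[1],1,[[0],[4],[2,3],[0],[4]],[true,true,true,true,true],[1]⟩],
  [⟨2,[1],1,[[0],[4],[0,3],[1],[4]],[true,true,true,true,true],[2]⟩,
  ⟨2,[1],1,[[0],[4],[0,3],[2],[4]],[true,true,true,true,true],[1]⟩,
  ⟨2,[1,1],1,[[2],[0],[4],[0],[4]],[true,true,true,true,true],[3]⟩,
  ⟨2,[1,2],1,[[1],[0],[4],[0],[4]],[true,true,true,true,true],[3]⟩,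
  ⟨1,[1,0],1,[[1],[0],[4],[2],[4]],[true,true,true,true,true],[3]⟩,
  ⟨1,[1,0],1,[[2],[0],[4],[1],[4]],[true,true,true,true,true],[3]⟩,
  ⟨2,[2],1,[[1],[3],[4],[1],[0,0]],[true,false,true,true,false],[4]⟩,
  ⟨1,[2],1,[[1],[3],[4],[0],[1,0]],[true,false,true,true,false],[4]⟩,
  ⟨2,[2],1,[[1],[4],[1,0],[3],[4]],[true,true,false,false,true],[0]⟩,
  ⟨2,[2],1,[[1],[4],[1,3],[0],[4]],[true,true,true,true,true],[0]⟩,
  ⟨1,[2],1,[[1],[4],[0,0],[3],[4]],[true,true,false,false,true],[1]⟩,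
  ⟨2,[2],1,[[1],[4],[0,3],[1],[4]],[true,true,true,true,true],[0]⟩,
  ⟨2,[2],1,[[1],[4],[0,3],[0],[4]],[true,true,true,true,true],[1]⟩,
  ⟨1,[2],1,[[0],[3],[4],[1],[1,0]],[true,false,true,true,false],[4]⟩,
  ⟨2,[2],1,[[0],[3],[4],[0],[1,1]],[true,false,true,true,false],[4]⟩,
  ⟨1,[2],1,[[0],[4],[1,1],[3],[4]],[true,true,false,false,true],[0]⟩,
  ⟨2,[2],1,[[0],[4],[1,0],[3],[4]],[true,true,false,false,true],[1]⟩,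
  ⟨2,[2],1,[[0],[4],[1,3],[1],[4]],[true,true,true,true,true],[0]⟩,
  ⟨2,[2],1,[[0],[4],[1,3],[0],[4]],[true,true,true,true,true],[1]⟩,
  ⟨2,[2],1,[[0],[4],[0,3],[1],[4]],[true,true,true,true,true],[1]⟩,
  ⟨2,[2,1],1,[[1],[0],[4],[0],[4]],[true,true,true,true,true],[3]⟩,
  ⟨1,[2,0],1,[[1],[0],[4],[1],[4]],[true,true,true,true,true],[3]⟩,
  ⟨1,[0],1,[[1],[3],[4],[1],[2,0]],[true,false,true,true,false],[4]⟩,
  ⟨1,[0],1,[[1],[3],[4],[2],[1,0]],[true,false,true,true,false],[4]⟩,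
  ⟨1,[0],1,[[1],[3],[4],[0],[1,2]],[true,false,true,true,false],[4]⟩],
  [⟨2,[0],1,[[1],[4],[1,2],[3],[4]],[true,true,false,false,true],[0]⟩,
  ⟨2,[0],1,[[1],[4],[1,0],[3],[4]],[true,true,false,false,true],[2]⟩,
  ⟨2,[0],1,[[1],[4],[1,3],[2],[4]],[true,true,true,true,true],[0]⟩,
  ⟨2,[0],1,[[1],[4],[1,3],[0],[4]],[true,true,true,true,true],[2]⟩,
  ⟨2,[0],1,[[1],[4],[2,0],[3],[4]],[true,true,false,false,true],[1]⟩,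
  ⟨2,[0],1,[[1],[4],[2,3],[1],[4]],[true,true,true,true,true],[0]⟩,
  ⟨2,[0],1,[[1],[4],[2,3],[0],[4]],[true,true,true,true,true],[1]⟩,
  ⟨2,[0],1,[[1],[4],[0,3],[1],[4]],[true,true,true,true,true],[2]⟩,
  ⟨2,[0],1,[[1],[4],[0,3],[2],[4]],[true,true,true,true,true],[1]⟩,
  ⟨1,[0],1,[[2],[3],[4],[1],[1,0]],[true,false,true,true,false],[4]⟩,
  ⟨2,[0],1,[[2],[3],[4],[0],[1,1]],[true,false,true,true,false],[4]⟩,
  ⟨1,[0],1,[[2],[4],[1,1],[3],[4]],[true,true,false,false,true],[0]⟩,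
  ⟨2,[0],1,[[2],[4],[1,0],[3],[4]],[true,true,false,false,true],[1]⟩,
  ⟨2,[0],1,[[2],[4],[1,3],[1],[4]],[true,true,true,true,true],[0]⟩,
  ⟨2,[0],1,[[2],[4],[1,3],[0],[4]],[true,true,true,true,true],[1]⟩,
  ⟨2,[0],1,[[2],[4],[0,3],[1],[4]],[true,true,true,true,true],[1]⟩,
  ⟨1,[0],1,[[0],[3],[4],[1],[1,2]],[true,false,true,true,false],[4]⟩,
  ⟨2,[0],1,[[0],[3],[4],[2],[1,1]],[true,false,true,true,false],[4]⟩,
  ⟨1,[0],1,[[0],[4],[1,1],[3],[4]],[true,true,false,false,true],[2]⟩,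
  ⟨2,[0],1,[[0],[4],[1,2],[3],[4]],[true,true,false,false,true],[1]⟩,
  ⟨2,[0],1,[[0],[4],[1,3],[1],[4]],[true,true,true,true,true],[2]⟩,
  ⟨2,[0],1,[[0],[4],[1,3],[2],[4]],[true,true,true,true,true],[1]⟩,
  ⟨2,[0],1,[[0],[4],[2,3],[1],[4]],[true,true,true,true,true],[1]⟩,
  ⟨2,[0,1],1,[[1],[2],[4],[0],[4]],[true,true,true,true,true],[3]⟩,
  ⟨2,[0,1],1,[[1],[0],[4],[2],[4]],[true,true,true,true,true],[3]⟩],
  [⟨1,[0,2],1,[[1],[0],[4],[1],[4]],[true,true,true,true,true],[3]⟩,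
  ⟨1,[0,0],1,[[1],[2],[4],[1],[4]],[true,true,true,true,true],[3]⟩,
  ⟨2,[3],0,[[1],[1],[2],[0],[0],[4]],[true,true,true,true,true,true],[4]⟩,
  ⟨1,[3],0,[[1],[1],[0],[0],[2],[4]],[true,true,true,true,true,true],[4]⟩,
  ⟨2,[3],0,[[1],[2],[0],[0],[1],[4]],[true,true,true,true,true,true],[4]⟩,
  ⟨2,[4],1,[[1],[2],[0,4],[1],[0]],[true,true,false,true,true],[3]⟩,
  ⟨2,[4],1,[[1],[2],[0],[0],[1,4]],[true,true,true,true,false],[3]⟩,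
  ⟨2,[4],1,[[1],[0],[2,4],[1],[0]],[true,true,false,true,true],[3]⟩,
  ⟨2,[4],1,[[1],[0],[0,4],[1],[2]],[true,true,false,true,true],[3]⟩,
  ⟨1,[4],1,[[2],[0],[1,4],[1],[0]],[true,true,false,true,true],[3]⟩,
  ⟨2,[4,1],1,[[1],[0],[4],[2],[3]],[true,true,true,true,false],[0]⟩,
  ⟨1,[4,1],1,[[1],[0],[4],[0],[3]],[true,true,true,true,false],[2]⟩,
  ⟨1,[4,1],1,[[1],[3],[4],[2],[0]],[true,false,true,true,true],[0]⟩,
  ⟨1,[4,1],1,[[2],[0],[3],[0],[4]],[true,true,false,true,true],[1]⟩,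
  ⟨2,[4,1],1,[[2],[0],[4],[1],[3]],[true,true,true,true,false],[0]⟩,
  ⟨1,[4,1],1,[[2],[3],[4],[1],[0]],[true,false,true,true,true],[0]⟩,
  ⟨2,[4,1],1,[[0],[3],[4],[1],[0]],[true,false,true,true,true],[2]⟩,
  ⟨1,[4,1],1,[[0],[3],[4],[2],[0]],[true,false,true,true,true],[1]⟩,
  ⟨2,[4,2],1,[[1],[0],[3],[1],[4]],[true,true,false,true,true],[0]⟩,
  ⟨1,[4,2],1,[[1],[0],[3],[0],[4]],[true,true,false,true,true],[1]⟩,
  ⟨2,[4,2],1,[[1],[3],[4],[1],[0]],[true,false,true,true,true],[0]⟩,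
  ⟨1,[4,2],1,[[0],[3],[4],[1],[0]],[true,false,true,true,true],[1]⟩,
  ⟨2,[4,0],1,[[1],[2],[3],[1],[4]],[true,true,false,true,true],[0]⟩,
  ⟨2,[4,0],1,[[1],[0],[4],[1],[3]],[true,true,true,true,false],[2]⟩,
  ⟨2,[4,0],1,[[1],[0],[4],[2],[3]],[true,true,true,true,false],[1]⟩],
  [⟨2,[4,0],1,[[1],[3],[4],[1],[2]],[true,false,true,true,true],[0]⟩,
  ⟨1,[4,0],1,[[1],[3],[4],[1],[0]],[true,false,true,true,true],[2]⟩,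
  ⟨1,[4,0],1,[[1],[3],[4],[2],[0]],[true,false,true,true,true],[1]⟩,
  ⟨2,[4,0],1,[[2],[0],[4],[1],[3]],[true,true,true,true,false],[1]⟩,
  ⟨1,[4,0],1,[[2],[3],[4],[1],[0]],[true,false,true,true,true],[1]⟩]]

end II2

end Pool.Agent.Lib.MP_107960_al.H95
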