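import Pool.Agent.Lib.MP_107960_al.H95.Gens

namespace Pool.Agent.Lib.MP_107960_al.H95

universe u

open Pool.Agent.Lib.MP_107960_al.H53

namespace II4

/-- left factor -/
def g : Poly := [(1,[0,0,1,1]),(1,[0,1,0,1]),(1,[0,1,1,0]),(1,[1,0,0,1]),(1,[1,0,1,0]),(1,[1,1,0,0])]

/-- right factor -/
def p : Poly := [(1,[2,2,3,3]),(1,[2,3,2,3]),(1,[2,3,3,2]),(1,[3,2,2,3]),(1,[3,2,3,2]),(1,[3,3,2,2])]

/-- certificate -/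
def its : List (List Item) := [[⟨1,[],0,[[1],[1],[0],[0],[2]],[true,true,true,true,true],[3,2,3]⟩,
  ⟨1,[],0,[[1],[1],[0],[0],[3]],[true,true,true,true,true],[3,2,2]⟩,
  ⟨2,[],0,[[3],[3],[2],[2],[0]],[true,true,true,true,true],[1,0,1]⟩,
  ⟨2,[],0,[[1],[1],[2],[2],[3,3]],[true,true,true,true,false],[0,0]⟩,
  ⟨1,[0,1],0,[[3],[3],[2],[2],[1]],[true,true,true,true,true],[0]⟩,
  ⟨2,[],0,[[0],[0],[2],[2],[3,3]],[true,true,true,true,false],[1,1]⟩,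
  ⟨2,[0,0,1],0,[[2],[2],[3],[3],[1]],[true,true,true,true,true],[]⟩,
  ⟨2,[1,0,1],0,[[2],[2],[3],[3],[0]],[true,true,true,true,true],[]⟩,
  ⟨2,[],0,[[3],[3],[2],[2],[0]],[true,true,true,true,true],[1,1,0]⟩,
  ⟨1,[],0,[[1],[1],[0],[2],[0]],[true,true,true,true,true],[2,3,3]⟩,
  ⟨1,[],0,[[1],[0],[0],[2],[1]],[true,true,true,true,true],[2,3,3]⟩,
  ⟨2,[3,0,0],0,[[1],[2],[2],[3],[1]],[true,true,true,true,true],[]⟩,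
  ⟨1,[0],0,[[0],[1],[1],[2,2],[3,3]],[true,true,true,false,false],[]⟩,
  ⟨2,[0,1,0],0,[[2],[2],[3],[3],[1]],[true,true,true,true,true],[]⟩,
  ⟨2,[2,0,0],0,[[1],[1],[3],[3],[2]],[true,true,true,true,true],[]⟩,
  ⟨2,[3],0,[[1],[1],[0],[0],[2,2]],[true,true,true,true,false],[3]⟩,
  ⟨1,[2,0,0],0,[[1],[1],[2],[3],[3]],[true,true,true,true,true],[]⟩,
  ⟨1,[],0,[[0],[0],[2],[1,1],[3]],[true,true,true,false,true],[3,2]⟩,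
  ⟨1,[],0,[[0],[2],[2],[3,3],[1,1]],[true,true,true,false,false],[0]⟩,
  ⟨2,[3,2],0,[[1],[1],[0],[2],[0]],[true,true,true,true,true],[3]⟩,
  ⟨1,[3,0,1],0,[[0],[1],[2],[2],[3]],[true,true,true,true,true],[]⟩,
  ⟨1,[],0,[[0],[0],[3],[1,1],[3]],[true,true,true,false,true],[2,2]⟩,
  ⟨2,[],0,[[3],[3],[2],[2],[1]],[true,true,true,true,true],[1,0,0]⟩,
  ⟨2,[],0,[[1],[1],[3],[3],[2,2]],[true,true,true,true,false],[0,0]⟩,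
  ⟨2,[3],0,[[1],[1],[0],[2,2],[0]],[true,true,true,false,true],[3]⟩],
  [⟨2,[2],0,[[1],[1],[0],[3,3],[0]],[true,true,true,false,true],[2]⟩,
  ⟨2,[2,1,0],0,[[0],[2],[3],[3],[1]],[true,true,true,true,true],[]⟩,
  ⟨2,[2,1,0],0,[[1],[2],[3],[3],[0]],[true,true,true,true,true],[]⟩,
  ⟨1,[],0,[[1],[1],[0],[3],[0]],[true,true,true,true,true],[3,2,2]⟩,
  ⟨2,[2,3],0,[[1],[1],[0],[2],[0]],[true,true,true,true,true],[3]⟩,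
  ⟨1,[],0,[[1],[1],[0],[0],[3]],[true,true,true,true,true],[2,3,2]⟩,
  ⟨1,[1,1],0,[[3],[3],[2],[2],[0]],[true,true,true,true,true],[0]⟩,
  ⟨2,[2],0,[[1],[1],[0],[0],[3,3]],[true,true,true,true,false],[2]⟩,
  ⟨1,[],0,[[1],[1],[2],[0,0],[3]],[true,true,true,false,true],[2,3]⟩,
  ⟨1,[],0,[[1],[3],[2],[2],[3]],[true,true,true,true,true],[1,0,0]⟩,
  ⟨1,[1,0],0,[[3],[3],[2],[2],[0]],[true,true,true,true,true],[1]⟩,
  ⟨2,[3,0,0],0,[[1],[1],[2],[2],[3]],[true,true,true,true,true],[]⟩,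
  ⟨1,[],0,[[1],[1],[0],[2],[0]],[true,true,true,true,true],[3,2,3]⟩,
  ⟨2,[2,1,1],0,[[0],[0],[3],[3],[2]],[true,true,true,true,true],[]⟩,
  ⟨1,[],0,[[1],[1],[3],[0,0],[2]],[true,true,true,false,true],[3,2]⟩,
  ⟨2,[],0,[[3],[3],[2],[2],[1]],[true,true,true,true,true],[0,1,0]⟩,
  ⟨2,[2],0,[[1],[0],[0],[3,3],[1]],[true,true,true,false,true],[2]⟩,
  ⟨1,[1,0],0,[[3],[3],[2],[2],[1]],[true,true,true,true,true],[0]⟩,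
  ⟨2,[2,2],0,[[0],[1],[1],[3,3],[0]],[true,true,true,false,true],[]⟩,
  ⟨1,[],0,[[1],[1],[0],[0],[3]],[true,true,true,true,true],[2,2,3]⟩,
  ⟨1,[],0,[[3],[3],[2],[0,0],[1]],[true,true,true,false,true],[2,1]⟩,
  ⟨2,[],0,[[0],[0],[3],[3],[2,2]],[true,true,true,true,false],[1,1]⟩,
  ⟨1,[],0,[[1],[0],[0],[2],[1]],[true,true,true,true,true],[3,3,2]⟩,
  ⟨1,[2,0,1],0,[[0],[1],[3],[3],[2]],[true,true,true,true,true],[]⟩,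
  ⟨1,[],3,[[1],[3],[0,0],[1],[3]],[true,true,false,true,true],[2,2]⟩],
  [⟨2,[2,0,1],0,[[0],[2],[3],[3],[1]],[true,true,true,true,true],[]⟩,
  ⟨1,[2],0,[[1],[1],[0],[0],[3,2]],[true,true,true,true,false],[3]⟩,
  ⟨2,[3],0,[[1],[3],[2],[2],[0,0]],[true,true,true,true,false],[1]⟩,
  ⟨1,[2],0,[[1],[1],[3,3],[0,0],[2]],[true,true,false,false,true],[]⟩,
  ⟨1,[1],0,[[0],[0],[1],[2,2],[3,3]],[true,true,true,false,false],[]⟩,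
  ⟨1,[],0,[[1],[3],[3],[2],[2]],[true,true,true,true,true],[0,1,0]⟩,
  ⟨1,[],0,[[3],[2],[2],[1,1],[0]],[true,true,true,false,true],[3,0]⟩,
  ⟨1,[],0,[[1],[1],[2],[0,0],[3]],[true,true,true,false,true],[3,2]⟩,
  ⟨2,[1,1,0],0,[[2],[2],[3],[3],[0]],[true,true,true,true,true],[]⟩,
  ⟨2,[],0,[[3],[3],[2],[2],[1]],[true,true,true,true,true],[0,0,1]⟩,
  ⟨1,[],0,[[0],[3],[2],[2],[3]],[true,true,true,true,true],[1,0,1]⟩,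
  ⟨1,[],0,[[1],[1],[0],[0],[2]],[true,true,true,true,true],[2,3,3]⟩,
  ⟨2,[2,0,0],0,[[1],[2],[3],[3],[1]],[true,true,true,true,true],[]⟩,
  ⟨1,[],0,[[0],[3],[2],[2],[3]],[true,true,true,true,true],[1,1,0]⟩,
  ⟨1,[1],0,[[0],[0],[1],[3,3],[2,2]],[true,true,true,false,false],[]⟩,
  ⟨2,[3],0,[[1],[0],[0],[2,2],[1]],[true,true,true,false,true],[3]⟩,
  ⟨1,[],0,[[1],[1],[0],[0],[2]],[true,true,true,true,true],[3,3,2]⟩,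
  ⟨2,[],0,[[3],[3],[2],[2],[0]],[true,true,true,true,true],[0,1,1]⟩,
  ⟨1,[0,1],0,[[3],[3],[2],[2],[0]],[true,true,true,true,true],[1]⟩,
  ⟨1,[],0,[[1],[3],[3],[2],[2]],[true,true,true,true,true],[1,0,0]⟩,
  ⟨1,[],0,[[3],[3],[2],[1,1],[0]],[true,true,true,false,true],[2,0]⟩,
  ⟨2,[3],0,[[2],[2],[3],[1,1],[0,0]],[true,true,true,false,false],[]⟩,
  ⟨1,[3,3],0,[[0],[0],[2],[1,2],[1]],[true,true,true,false,true],[]⟩,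
  ⟨2,[3,1,1],0,[[0],[0],[2],[2],[3]],[true,true,true,true,true],[]⟩,
  ⟨1,[2],0,[[0],[0],[3,3],[1,1],[2]],[true,true,false,false,true],[]⟩],
  [⟨1,[],0,[[1],[0],[2],[2],[3,3]],[true,true,true,true,false],[0,1]⟩,
  ⟨2,[2],0,[[2],[3],[3],[1,1],[0,0]],[true,true,true,false,false],[]⟩,
  ⟨2,[],0,[[0],[2],[2],[3,3],[1,0]],[true,true,true,false,false],[1]⟩,
  ⟨1,[3,2],0,[[0],[0],[1],[2,3],[1]],[true,true,true,false,true],[]⟩,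
  ⟨1,[3],0,[[0],[0],[2,2],[1,1],[3]],[true,true,false,false,true],[]⟩,
  ⟨2,[2],0,[[1],[3],[3],[2],[0,0]],[true,true,true,true,false],[1]⟩,
  ⟨1,[],3,[[1],[2],[0,0],[1],[3]],[true,true,false,true,true],[2,3]⟩,
  ⟨2,[2,2],0,[[1],[0],[0],[3],[1]],[true,true,true,true,true],[3]⟩,
  ⟨1,[],0,[[1],[1],[3],[0,0],[2]],[true,true,true,false,true],[2,3]⟩,
  ⟨1,[2,3],0,[[1],[0],[0],[2],[1]],[true,true,true,true,true],[3]⟩,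
  ⟨1,[],0,[[1],[3],[2],[2],[3]],[true,true,true,true,true],[0,0,1]⟩,
  ⟨1,[],0,[[1],[2],[2],[3,3],[0,0]],[true,true,true,false,false],[1]⟩,
  ⟨1,[0,0],0,[[3],[3],[2],[2],[1]],[true,true,true,true,true],[1]⟩,
  ⟨1,[3,2],0,[[0],[0],[2],[1,3],[1]],[true,true,true,false,true],[]⟩,
  ⟨2,[3],0,[[0],[0],[2,3],[1,1],[2]],[true,true,false,false,true],[]⟩,
  ⟨2,[3],0,[[2],[2],[3],[0,0],[1,1]],[true,true,true,false,false],[]⟩,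
  ⟨2,[1,0,0],0,[[2],[2],[3],[3],[1]],[true,true,true,true,true],[]⟩,
  ⟨2,[0,1,1],0,[[2],[2],[3],[3],[0]],[true,true,true,true,true],[]⟩,
  ⟨2,[3,2],0,[[1],[0],[0],[3],[1]],[true,true,true,true,true],[2]⟩,
  ⟨1,[],0,[[0],[0],[3],[1,1],[2]],[true,true,true,false,true],[2,3]⟩,
  ⟨1,[],3,[[0],[3],[1,1],[0],[2]],[true,true,false,true,true],[2,3]⟩,
  ⟨1,[],3,[[1],[2],[0,0],[1],[2]],[true,true,false,true,true],[3,3]⟩,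
  ⟨1,[],0,[[1],[1],[2],[0,0],[2]],[true,true,true,false,true],[3,3]⟩,
  ⟨1,[],0,[[1],[0],[0],[3],[1]],[true,true,true,true,true],[3,2,2]⟩,
  ⟨1,[],0,[[1],[3],[3],[2,2],[0,0]],[true,true,true,false,false],[1]⟩],
  [⟨1,[],0,[[1],[1],[0],[3],[0]],[true,true,true,true,true],[2,2,3]⟩,
  ⟨2,[3,2],0,[[1],[0],[0],[2],[1]],[true,true,true,true,true],[3]⟩,
  ⟨1,[],0,[[1],[0],[0],[3],[1]],[true,true,true,true,true],[2,2,3]⟩,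
  ⟨2,[],3,[[1],[2],[0,0],[3],[3,2]],[true,true,false,true,false],[1]⟩,
  ⟨2,[3,3],0,[[1],[1],[0],[2],[0]],[true,true,true,true,true],[2]⟩,
  ⟨2,[3,3],0,[[0],[1],[2],[0,2],[1]],[true,true,true,false,true],[]⟩,
  ⟨2,[3,2],0,[[1],[1],[0],[3],[0]],[true,true,true,true,true],[2]⟩,
  ⟨1,[],0,[[1],[0],[0],[2],[1]],[true,true,true,true,true],[3,2,3]⟩,
  ⟨2,[],3,[[1],[3,3],[0,0],[1],[2,2]],[true,false,false,true,false],[]⟩,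
  ⟨1,[],0,[[0],[3],[2],[3,2],[1,1]],[true,true,true,false,false],[0]⟩,
  ⟨2,[3,0,1],0,[[0],[2],[2],[3],[1]],[true,true,true,true,true],[]⟩,
  ⟨1,[],0,[[1],[0],[2],[1,0],[3]],[true,true,true,false,true],[3,2]⟩,
  ⟨1,[],0,[[1],[0],[3],[3],[2,2]],[true,true,true,true,false],[1,0]⟩,
  ⟨1,[2],0,[[1],[3],[3],[2],[1,0]],[true,true,true,true,false],[0]⟩,
  ⟨1,[3],0,[[0],[1],[2,2],[0,1],[3]],[true,true,false,false,true],[]⟩,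
  ⟨2,[],0,[[1],[2],[2],[3,3],[1,0]],[true,true,true,false,false],[0]⟩,
  ⟨1,[],0,[[1],[0],[0],[3],[1]],[true,true,true,true,true],[2,3,2]⟩,
  ⟨1,[],0,[[0],[0],[2],[1,1],[2]],[true,true,true,false,true],[3,3]⟩,
  ⟨2,[],3,[[0],[3,3],[1,1],[0],[2,2]],[true,false,false,true,false],[]⟩,
  ⟨2,[3,1,1],0,[[0],[2],[2],[3],[0]],[true,true,true,true,true],[]⟩,
  ⟨2,[3],0,[[0],[3],[2],[2],[1,1]],[true,true,true,true,false],[0]⟩,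
  ⟨1,[],0,[[1],[1],[0],[3],[0]],[true,true,true,true,true],[2,3,2]⟩,
  ⟨1,[],0,[[1],[1],[3],[0,0],[3]],[true,true,true,false,true],[2,2]⟩,
  ⟨2,[3,3],0,[[0],[0],[1],[2,2],[1]],[true,true,true,false,true],[]⟩,
  ⟨1,[],0,[[0],[3],[2],[2],[3]],[true,true,true,true,true],[0,1,1]⟩],
  [⟨2,[2],0,[[0],[1],[1],[2],[3,3,0]],[true,true,true,true,true],[]⟩,
  ⟨2,[3,1,0],0,[[0],[2],[2],[3],[1]],[true,true,true,true,true],[]⟩,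
  ⟨1,[],0,[[0],[3],[3],[2],[2]],[true,true,true,true,true],[1,1,0]⟩,
  ⟨1,[2,3],0,[[0],[0],[3],[1,2],[1]],[true,true,true,false,true],[]⟩,
  ⟨2,[2],0,[[0],[3],[3],[2],[1,1]],[true,true,true,true,false],[0]⟩,
  ⟨2,[],3,[[1],[2],[1,0],[0],[3]],[true,true,false,true,true],[2,3]⟩,
  ⟨2,[3,3],0,[[1],[0],[0],[2],[1]],[true,true,true,true,true],[2]⟩,
  ⟨2,[],3,[[0],[2],[1,0],[1],[2]],[true,true,false,true,true],[3,3]⟩,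
  ⟨1,[2,1,1],0,[[0],[0],[2],[3],[3]],[true,true,true,true,true],[]⟩,
  ⟨2,[3,0,1],0,[[0],[1],[2],[3],[2]],[true,true,true,true,true],[]⟩,
  ⟨1,[],0,[[1],[1],[0],[2],[0]],[true,true,true,true,true],[3,3,2]⟩,
  ⟨2,[],3,[[0],[2,2],[1,1],[0],[3,3]],[true,false,false,true,false],[]⟩,
  ⟨1,[],0,[[1],[3],[3],[2],[2]],[true,true,true,true,true],[0,0,1]⟩,
  ⟨2,[3,1,0],0,[[1],[2],[2],[3],[0]],[true,true,true,true,true],[]⟩,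
  ⟨1,[],0,[[0],[3],[3],[2],[2]],[true,true,true,true,true],[1,0,1]⟩,
  ⟨1,[],0,[[1],[0],[3],[2],[3,2]],[true,true,true,true,false],[0,1]⟩,
  ⟨2,[3,3],0,[[0],[1],[1],[2,2],[0]],[true,true,true,false,true],[]⟩,
  ⟨2,[2,0,1],0,[[0],[1],[2],[3],[3]],[true,true,true,true,true],[]⟩,
  ⟨2,[3],0,[[2],[2],[3],[0,1],[0,1]],[true,true,true,false,false],[]⟩,
  ⟨1,[],3,[[1],[2],[0,0],[1],[3]],[true,true,false,true,true],[3,2]⟩,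
  ⟨1,[3,0,0],0,[[1],[1],[2],[3],[2]],[true,true,true,true,true],[]⟩,
  ⟨2,[2,3],0,[[1],[0],[0],[3],[1]],[true,true,true,true,true],[2]⟩,
  ⟨1,[],0,[[0],[3],[3],[2,2],[1,1]],[true,true,true,false,false],[0]⟩,
  ⟨1,[0],0,[[0],[1],[1],[3,3],[2,2]],[true,true,true,false,false],[]⟩,
  ⟨1,[],0,[[0],[0],[2],[1,1],[3]],[true,true,true,false,true],[2,3]⟩],
  [⟨1,[3],0,[[1],[0],[0],[3,2],[1]],[true,true,true,false,true],[2]⟩,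
  ⟨2,[2,2],0,[[1],[1],[0],[3],[0]],[true,true,true,true,true],[3]⟩,
  ⟨2,[2,2],0,[[0],[1],[3],[1,3],[0]],[true,true,true,false,true],[]⟩,
  ⟨1,[3,1,1],0,[[0],[0],[2],[3],[2]],[true,true,true,true,true],[]⟩,
  ⟨1,[],3,[[2],[1,1],[0,0],[3],[2,3]],[true,false,false,true,false],[]⟩,
  ⟨1,[],0,[[1],[0],[2],[1,0],[2]],[true,true,true,false,true],[3,3]⟩,
  ⟨2,[2,1,1],0,[[0],[2],[3],[3],[0]],[true,true,true,true,true],[]⟩,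
  ⟨1,[3,1,0],0,[[0],[1],[2],[2],[3]],[true,true,true,true,true],[]⟩,
  ⟨2,[2,2],0,[[0],[0],[1],[3,3],[1]],[true,true,true,false,true],[]⟩,
  ⟨1,[],0,[[1],[3],[2],[2],[3]],[true,true,true,true,true],[0,1,0]⟩,
  ⟨1,[],3,[[0],[3],[1,1],[0],[3]],[true,true,false,true,true],[2,2]⟩,
  ⟨1,[3],0,[[1],[1],[0],[3,2],[0]],[true,true,true,false,true],[2]⟩,
  ⟨2,[2,3],0,[[1],[1],[0],[3],[0]],[true,true,true,true,true],[2]⟩,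
  ⟨1,[],0,[[0],[3],[3],[2],[2]],[true,true,true,true,true],[0,1,1]⟩,
  ⟨2,[2,2],0,[[0],[1],[3],[0,3],[1]],[true,true,true,false,true],[]⟩,
  ⟨1,[],0,[[1],[0],[2],[2],[3,3]],[true,true,true,true,false],[1,0]⟩,
  ⟨2,[],0,[[1],[1],[3],[2],[3,2]],[true,true,true,true,false],[0,0]⟩,
  ⟨1,[],0,[[3],[2],[2],[0,0],[1]],[true,true,true,false,true],[3,1]⟩,
  ⟨1,[],3,[[0],[2],[1,1],[0],[2]],[true,true,false,true,true],[3,3]⟩,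
  ⟨1,[3],0,[[1],[1],[2,2],[0,0],[3]],[true,true,false,false,true],[]⟩,
  ⟨1,[3,2],0,[[0],[1],[1],[2,3],[0]],[true,true,true,false,true],[]⟩,
  ⟨2,[2],0,[[2],[3],[3],[0,0],[1,1]],[true,true,true,false,false],[]⟩,
  ⟨1,[2],0,[[1],[0],[0],[3,2],[1]],[true,true,true,false,true],[3]⟩,
  ⟨2,[2,0,1],0,[[1],[2],[3],[3],[0]],[true,true,true,true,true],[]⟩,
  ⟨1,[2,1,0],0,[[0],[1],[3],[3],[2]],[true,true,true,true,true],[]⟩],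
  [⟨1,[2,2],0,[[1],[1],[3],[0,3],[0]],[true,true,true,false,true],[]⟩,
  ⟨2,[],3,[[0],[3],[1,1],[2],[3,2]],[true,true,false,true,false],[0]⟩,
  ⟨1,[],0,[[0],[0],[3],[1,1],[2]],[true,true,true,false,true],[3,2]⟩,
  ⟨2,[3,0,1],0,[[1],[2],[2],[3],[0]],[true,true,true,true,true],[]⟩,
  ⟨1,[2,2],0,[[0],[0],[3],[1,3],[1]],[true,true,true,false,true],[]⟩,
  ⟨1,[],0,[[1],[0],[3],[3],[2,2]],[true,true,true,true,false],[0,1]⟩,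
  ⟨1,[],3,[[0],[3],[1,1],[3],[2,2]],[true,true,false,true,false],[0]⟩,
  ⟨1,[3],0,[[1],[1],[0],[0],[3,2]],[true,true,true,true,false],[2]⟩,
  ⟨2,[],3,[[0],[3],[1,0],[1],[3]],[true,true,false,true,true],[2,2]⟩,
  ⟨1,[2,3],0,[[0],[1],[1],[2,3],[0]],[true,true,true,false,true],[]⟩,
  ⟨1,[],3,[[0],[2],[1,1],[2],[3,3]],[true,true,false,true,false],[0]⟩,
  ⟨2,[],0,[[3],[3],[2],[1,0],[0]],[true,true,true,false,true],[2,1]⟩,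
  ⟨2,[3],0,[[0],[1],[1],[3],[2,2,0]],[true,true,true,true,true],[]⟩,
  ⟨2,[],3,[[1],[2,2],[0,0],[1],[3,3]],[true,false,false,true,false],[]⟩,
  ⟨1,[],3,[[1],[3],[0,0],[1],[2]],[true,true,false,true,true],[3,2]⟩,
  ⟨2,[2,1,0],0,[[0],[1],[2],[3],[3]],[true,true,true,true,true],[]⟩,
  ⟨1,[3],0,[[0],[0],[1],[2],[2,3,1]],[true,true,true,true,true],[]⟩,
  ⟨1,[2],0,[[0],[3],[3],[2],[1,0]],[true,true,true,true,false],[1]⟩,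
  ⟨2,[],0,[[3],[2],[2],[1,0],[1]],[true,true,true,false,true],[3,0]⟩,
  ⟨1,[3,3],0,[[1],[1],[2],[0,2],[0]],[true,true,true,false,true],[]⟩,
  ⟨2,[],3,[[3],[1,1],[0,0],[3],[2,2]],[true,false,false,true,false],[]⟩,
  ⟨2,[3,3],0,[[0],[1],[2],[1,2],[0]],[true,true,true,false,true],[]⟩,
  ⟨1,[],0,[[1],[0],[3],[1,0],[2]],[true,true,true,false,true],[2,3]⟩,
  ⟨1,[],3,[[0],[2,2],[0,1],[1],[3,3]],[true,false,false,true,false],[]⟩,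
  ⟨1,[3],0,[[0],[3],[2],[2],[1,0]],[true,true,true,true,false],[1]⟩],
  [⟨1,[],0,[[1],[0],[2],[1,0],[3]],[true,true,true,false,true],[2,3]⟩,
  ⟨2,[3],0,[[0],[0],[1],[3],[2,2,1]],[true,true,true,true,true],[]⟩,
  ⟨2,[],0,[[3],[3],[2],[1,0],[1]],[true,true,true,false,true],[2,0]⟩,
  ⟨1,[],3,[[0],[2],[1,1],[0],[3]],[true,true,false,true,true],[3,2]⟩,
  ⟨2,[],3,[[1],[3],[1,0],[3],[2,2]],[true,true,false,true,false],[0]⟩,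
  ⟨2,[],0,[[0],[0],[3],[2],[3,2]],[true,true,true,true,false],[1,1]⟩,
  ⟨2,[2],0,[[0],[0],[2,3],[1,1],[3]],[true,true,false,false,true],[]⟩,
  ⟨2,[3,2],0,[[0],[1],[3],[0,2],[1]],[true,true,true,false,true],[]⟩,
  ⟨2,[3],0,[[1],[1],[2,3],[0,0],[2]],[true,true,false,false,true],[]⟩,
  ⟨2,[2],0,[[0],[0],[1],[2],[3,3,1]],[true,true,true,true,true],[]⟩,
  ⟨1,[],3,[[0],[2],[1,1],[0],[3]],[true,true,false,true,true],[2,3]⟩,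
  ⟨2,[3,2],0,[[0],[1],[2],[0,3],[1]],[true,true,true,false,true],[]⟩,
  ⟨1,[],3,[[0],[3],[1,1],[0],[2]],[true,true,false,true,true],[3,2]⟩,
  ⟨1,[],0,[[1],[0],[3],[1,0],[2]],[true,true,true,false,true],[3,2]⟩,
  ⟨2,[3,2],0,[[0],[1],[3],[1,2],[0]],[true,true,true,false,true],[]⟩,
  ⟨2,[],0,[[3],[2],[2],[1,0],[0]],[true,true,true,false,true],[3,1]⟩,
  ⟨2,[2,3,3],0,[[0],[0],[1],[2],[1]],[true,true,true,true,true],[]⟩,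
  ⟨2,[3,1,0],0,[[0],[1],[2],[3],[2]],[true,true,true,true,true],[]⟩,
  ⟨2,[2],0,[[1],[1],[2,3],[0,0],[3]],[true,true,false,false,true],[]⟩,
  ⟨2,[],3,[[1],[3],[1,0],[0],[3]],[true,true,false,true,true],[2,2]⟩,
  ⟨2,[],3,[[0],[2,3],[2,3],[0],[1,1]],[true,false,false,true,false],[]⟩,
  ⟨2,[],3,[[2],[1,1],[0,0],[2],[3,3]],[true,false,false,true,false],[]⟩,
  ⟨1,[2],0,[[1],[1],[0],[3,2],[0]],[true,true,true,false,true],[3]⟩,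
  ⟨2,[],3,[[1],[3],[0,0],[2],[3,2]],[true,true,false,true,false],[1]⟩,
  ⟨2,[],0,[[1],[3],[3],[2,2],[1,0]],[true,true,true,false,false],[0]⟩],
  [⟨2,[],3,[[1],[3],[1,0],[0],[2]],[true,true,false,true,true],[3,2]⟩,
  ⟨2,[2,3],0,[[0],[1],[2],[1,3],[0]],[true,true,true,false,true],[]⟩,
  ⟨1,[],3,[[1],[3],[0,0],[1],[2]],[true,true,false,true,true],[2,3]⟩,
  ⟨1,[],3,[[3],[2,2],[0,1],[3],[0,1]],[true,false,false,true,false],[]⟩,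
  ⟨2,[],3,[[0],[2],[1,0],[2],[3,3]],[true,true,false,true,false],[1]⟩,
  ⟨2,[],3,[[0],[3],[1,0],[1],[2]],[true,true,false,true,true],[2,3]⟩,
  ⟨1,[1],0,[[0],[0],[1],[2,3],[2,3]],[true,true,true,false,false],[]⟩,
  ⟨2,[],3,[[0],[3],[1,0],[3],[2,2]],[true,true,false,true,false],[1]⟩,
  ⟨1,[],0,[[1],[3],[2],[3,2],[0,0]],[true,true,true,false,false],[1]⟩,
  ⟨1,[],3,[[1],[2],[0,0],[2],[3,3]],[true,true,false,true,false],[1]⟩,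
  ⟨1,[3],0,[[1],[3],[2],[2],[1,0]],[true,true,true,true,false],[0]⟩,
  ⟨1,[3,2],0,[[0],[0],[3],[1,2],[1]],[true,true,true,false,true],[]⟩,
  ⟨1,[3,2],0,[[1],[1],[3],[0,2],[0]],[true,true,true,false,true],[]⟩,
  ⟨1,[],3,[[1],[2,2],[0,1],[0],[3,3]],[true,false,false,true,false],[]⟩,
  ⟨1,[],3,[[1],[3],[0,0],[3],[2,2]],[true,true,false,true,false],[1]⟩,
  ⟨2,[2,3],0,[[0],[1],[3],[0,2],[1]],[true,true,true,false,true],[]⟩,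
  ⟨1,[2,3],0,[[1],[1],[2],[0,3],[0]],[true,true,true,false,true],[]⟩,
  ⟨2,[],3,[[1],[3],[1,0],[0],[2]],[true,true,false,true,true],[2,3]⟩,
  ⟨1,[3,2],0,[[1],[1],[2],[0,3],[0]],[true,true,true,false,true],[]⟩,
  ⟨2,[],0,[[0],[3],[3],[2,2],[1,0]],[true,true,true,false,false],[1]⟩,
  ⟨1,[2],0,[[0],[1],[1],[3],[2,3,0]],[true,true,true,true,true],[]⟩,
  ⟨1,[],0,[[1],[0],[3],[1,0],[3]],[true,true,true,false,true],[2,2]⟩,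
  ⟨1,[2,3],0,[[1],[1],[3],[0,2],[0]],[true,true,true,false,true],[]⟩,
  ⟨2,[],3,[[1],[2],[1,0],[0],[2]],[true,true,false,true,true],[3,3]⟩,
  ⟨1,[],3,[[0],[3,3],[0,1],[1],[2,2]],[true,false,false,true,false],[]⟩],
  [⟨2,[],3,[[0],[3],[1,0],[1],[2]],[true,true,false,true,true],[3,2]⟩,
  ⟨1,[2,3],0,[[0],[0],[1],[2],[1,3]],[true,true,true,true,false],[]⟩,
  ⟨2,[],3,[[2],[0,1],[0,1],[3],[2,3]],[true,false,false,true,false],[]⟩,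
  ⟨2,[2],0,[[2],[3],[3],[0,1],[0,1]],[true,true,true,false,false],[]⟩,
  ⟨2,[],3,[[0],[2],[1,0],[1],[3]],[true,true,false,true,true],[2,3]⟩,
  ⟨1,[],3,[[3],[1,1],[0,0],[2],[2,3]],[true,false,false,true,false],[]⟩,
  ⟨2,[],3,[[0],[2],[1,1],[3],[3,2]],[true,true,false,true,false],[0]⟩,
  ⟨1,[],3,[[1],[3,3],[0,1],[0],[2,2]],[true,false,false,true,false],[]⟩,
  ⟨1,[2],0,[[0],[1],[3,3],[0,1],[2]],[true,true,false,false,true],[]⟩,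
  ⟨2,[],3,[[1],[2],[1,0],[0],[3]],[true,true,false,true,true],[3,2]⟩,
  ⟨2,[2,3],0,[[0],[1],[3],[1,2],[0]],[true,true,true,false,true],[]⟩,
  ⟨2,[],3,[[0],[2],[1,0],[1],[3]],[true,true,false,true,true],[3,2]⟩,
  ⟨2,[],3,[[1],[2,3],[2,3],[1],[0,0]],[true,false,false,true,false],[]⟩,
  ⟨1,[],0,[[1],[0],[3],[2],[3,2]],[true,true,true,true,false],[1,0]⟩,
  ⟨1,[],3,[[1],[2],[1,0],[3],[3,2]],[true,true,false,true,false],[0]⟩,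
  ⟨2,[2],0,[[0],[1],[2,3],[0,1],[3]],[true,true,false,false,true],[]⟩,
  ⟨2,[],3,[[1],[2],[1,0],[2],[3,3]],[true,true,false,true,false],[0]⟩,
  ⟨1,[0],0,[[0],[1],[1],[2,3],[2,3]],[true,true,true,false,false],[]⟩,
  ⟨2,[3,2],0,[[0],[1],[2],[1,3],[0]],[true,true,true,false,true],[]⟩,
  ⟨2,[3],0,[[0],[1],[2,3],[0,1],[2]],[true,true,false,false,true],[]⟩,
  ⟨1,[2],0,[[0],[0],[1],[3],[2,3,1]],[true,true,true,true,true],[]⟩,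
  ⟨1,[],2,[[0],[0],[1],[1],[3,3],[2,2]],[true,true,true,true,false,false],[]⟩,
  ⟨2,[],0,[[0],[3],[2],[3,2],[1,0]],[true,true,true,false,false],[1]⟩,
  ⟨1,[3],0,[[0],[1],[1],[2],[2,3,0]],[true,true,true,true,true],[]⟩,
  ⟨1,[],3,[[2],[3,3],[0,1],[2],[0,1]],[true,false,false,true,false],[]⟩],
  [⟨1,[],3,[[0],[3],[1,0],[2],[3,2]],[true,true,false,true,false],[1]⟩,
  ⟨1,[],3,[[0],[2],[1,0],[3],[3,2]],[true,true,false,true,false],[1]⟩,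
  ⟨1,[],3,[[0],[2,3],[0,1],[1],[2,3]],[true,false,false,true,false],[]⟩,
  ⟨2,[],0,[[1],[3],[2],[3,2],[1,0]],[true,true,true,false,false],[0]⟩,
  ⟨1,[],3,[[1],[3],[1,0],[2],[3,2]],[true,true,false,true,false],[0]⟩,
  ⟨2,[],3,[[3],[0,1],[0,1],[2],[2,3]],[true,false,false,true,false],[]⟩,
  ⟨1,[],3,[[1],[2,3],[0,1],[0],[2,3]],[true,false,false,true,false],[]⟩,
  ⟨2,[],2,[[0],[0],[1],[1],[2,3],[2,3]],[true,true,true,true,false,false],[]⟩]]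

end II4

end Pool.Agent.Lib.MP_107960_al.H95
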