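import Pool.Agent.Lib.MP_107960_al.H95.Bd
import Pool.Agent.Lib.MP_107960_al.H95.Ext

/-!
# From super identities to multilinear identities
-/

namespace Pool.Agent.Lib.MP_107960_al.H95

universe u

/-- product of polynomials -/
def pmul (p q : Poly) : Poly := p.flatMap fun s => q.map fun t => (s.1 * t.1, s.2 ++ t.2)

/-- replace one occurrence of `j` by `j'`, in all ways -/
def pol1 (j j' : ℕ) : List ℕ → List (List ℕ)
  | [] => []
  | a :: w => (if a = j then [j' :: w] else []) ++ (pol1 j j' w).map (fun w' => a :: w')

/-- polarisation of the letter `j`, with the new letter `j'` -/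
def pol (j j' : ℕ) (p : Poly) : Poly := p.flatMap fun t => (pol1 j j' t.2).map fun w => (t.1, w)

/-- remove the signs -/
def uns (π : ℕ → Bool) (p : Poly) : Poly :=
  p.map fun t => (if inv π t.2 then 2 * t.1 else t.1, t.2)

/-- relabel -/
def rl (σ : ℕ → ℕ) (p : Poly) : Poly := p.map fun t => (t.1, t.2.map σ)

section
variable {R : Type u} [Ring R]

lemma ev_map_left (v : ℕ → R) (c : ℕ) (w : List ℕ) (q : Poly) :
    ev v (q.map fun t => (c * t.1, w ++ t.2)) = (c : R) * wd v w * ev v q := by
  induction q with
  | nil => simp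
  | cons t q ih =>
    rw [List.map_cons, ev_cons, ev_cons, ih, wd_append]
    push_cast
    have hc : wd v w * (t.1 : R) = (t.1 : R) * wd v w := (Nat.cast_commute t.1 _).eq.symm
    rw [mul_add]
    congr 1
    rw [mul_assoc (c : R) (wd v w), ← mul_assoc (wd v w) (t.1 : R), hc]
    simp only [mul_assoc]

lemma ev_pmul (v : ℕ → R) (p q : Poly) : ev v (pmul p q) = ev v p * ev v q := by
  unfold pmul
  induction p with
  | nil => simp
  | cons s p ih => rw [List.flatMap_cons, ev_append, ih, ev_map_left, ev_cons, add_mul]

lemma ev_congr {v v' : ℕ → R} {p : Poly} (h : ∀ t ∈ p, ∀ i ∈ t.2, v i = v' i) :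
    ev v p = ev v' p := by
  induction p with
  | nil => rfl
  | cons t p ih =>
    rw [ev_cons, ev_cons, ih (fun t' ht' => h t' (List.mem_cons_of_mem _ ht')),
      wd_congr (h t List.mem_cons_self)]

lemma wd_map (v : ℕ → R) (σ : ℕ → ℕ) (w : List ℕ) : wd v (w.map σ) = wd (fun i => v (σ i)) w := by
  induction w with
  | nil => rfl
  | cons a w ih => rw [List.map_cons, wd_cons, wd_cons, ih]

lemma ev_rl (v : ℕ → R) (σ : ℕ → ℕ) (p : Poly) : ev v (rl σ p) = ev (fun i => v (σ i)) p := by
  unfold rl
  induction p with
  | nil => rfl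
  | cons t p ih => rw [List.map_cons, ev_cons, ev_cons, ih, wd_map]

lemma pol1_nil_of_not_mem {j j' : ℕ} {w : List ℕ} (h : j ∉ w) : pol1 j j' w = [] := by
  induction w with
  | nil => rfl
  | cons a w ih =>
    rw [List.mem_cons, not_or] at h
    have : ¬ a = j := fun e => h.1 e.symm
    simp [pol1, this, ih h.2]

lemma sum_map_cons (v : ℕ → R) (a : ℕ) (l : List (List ℕ)) :
    ((l.map (fun w' => a :: w')).map (wd v)).sum = v a * (l.map (wd v)).sum := by
  rw [List.map_map, ← List.sum_map_mul_left]
  rfl

lemma pol1_one {j j' : ℕ} (v : ℕ → R) (y : R) {w : List ℕ} (h : w.count j = 1)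
    (h' : j' ∉ w) (x : R) (hjj : j ≠ j') :
    ((pol1 j j' w).map (wd (Function.update (Function.update v j x) j' y))).sum
      = wd (Function.update v j y) w := by
  induction w with
  | nil => simp at h
  | cons a w ih =>
    rw [List.mem_cons, not_or] at h'
    by_cases ha : a = j
    · subst ha
      rw [List.count_cons_self] at h
      have h0 : a ∉ w := by rw [← List.count_eq_zero]; omega
      simp only [pol1, if_true, pol1_nil_of_not_mem h0, List.map_nil, List.append_nil,
        List.map_cons, List.sum_cons, List.sum_nil, add_zero, wd_cons, Function.update_self]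
      rw [wd_update_of_not_mem _ h'.2, wd_update_of_not_mem _ h0, wd_update_of_not_mem _ h0]
    · rw [List.count_cons_of_ne ha] at h
      have ha' : a ≠ j' := fun e => h'.1 e.symm
      simp only [pol1, ha, if_false, List.nil_append]
      rw [sum_map_cons, ih h h'.2, wd_cons, Function.update_of_ne ha', Function.update_of_ne ha,
        Function.update_of_ne ha]

lemma pol1_two {j j' : ℕ} (v : ℕ → R) (x y : R) {w : List ℕ} (h : w.count j = 2)
    (h' : j' ∉ w) (hjj : j ≠ j') :
    wd (Function.update v j (x + y)) w = wd (Function.update v j x) w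
      + wd (Function.update v j y) w
      + ((pol1 j j' w).map (wd (Function.update (Function.update v j x) j' y))).sum := by
  induction w with
  | nil => simp at h
  | cons a w ih =>
    rw [List.mem_cons, not_or] at h'
    by_cases ha : a = j
    · subst ha
      rw [List.count_cons_self] at h
      have h1 : w.count a = 1 := by omega
      simp only [pol1, if_true, List.cons_append, List.nil_append, List.map_cons, List.sum_cons]
      rw [sum_map_cons, pol1_one v y h1 h'.2 x hjj]
      simp only [wd_cons, Function.update_self]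
      rw [Function.update_of_ne hjj, Function.update_self, wd_update_of_not_mem _ h'.2,
        wd_update_add x y h1]
      noncomm_ring
    · rw [List.count_cons_of_ne ha] at h
      have ha' : a ≠ j' := fun e => h'.1 e.symm
      simp only [pol1, ha, if_false, List.nil_append]
      rw [sum_map_cons, wd_cons, wd_cons, wd_cons, ih h h'.2, Function.update_of_ne ha',
        Function.update_of_ne ha, Function.update_of_ne ha, Function.update_of_ne ha]
      noncomm_ring

lemma pol_two {j j' : ℕ} (v : ℕ → R) (x y : R) {p : Poly} (h : ∀ t ∈ p, t.2.count j = 2)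
    (h' : ∀ t ∈ p, j' ∉ t.2) (hjj : j ≠ j') :
    ev (Function.update v j (x + y)) p = ev (Function.update v j x) p
      + ev (Function.update v j y) p
      + ev (Function.update (Function.update v j x) j' y) (pol j j' p) := by
  induction p with
  | nil => simp [pol]
  | cons t p ih =>
    have h2 : pol j j' (t :: p) = ((pol1 j j' t.2).map fun w => (t.1, w)) ++ pol j j' p := rfl
    have h3 : ∀ l : List (List ℕ), ∀ u : ℕ → R, ev u (l.map fun w => (t.1, w))
        = (t.1 : R) * (l.map (wd u)).sum := by
      intro l u
      induction l with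
      | nil => simp
      | cons a l ih2 => rw [List.map_cons, ev_cons, ih2, List.map_cons, List.sum_cons, mul_add]
    rw [h2, ev_append, h3, ev_cons, ev_cons, ev_cons,
      ih (fun t' ht' => h t' (List.mem_cons_of_mem _ ht'))
        (fun t' ht' => h' t' (List.mem_cons_of_mem _ ht')),
      pol1_two v x y (h t List.mem_cons_self) (h' t List.mem_cons_self) hjj]
    noncomm_ring

end

section
variable {A : Type u} [Ring A] {L : AddSubgroup A}

/-- the super statement `g p = 0` -/
def HH (X : SExt A) (L : AddSubgroup A) (π : ℕ → Bool) (g p : Poly) : Prop :=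
  ∀ v : ℕ → X.B, (∀ j, v j ∈ Lp X L (π j)) → ev v g * ev v p = 0

variable {X : SExt A}

lemma HH_polR {π : ℕ → Bool} {g p : Poly} {j j' : ℕ} (hjj : j ≠ j')
    (hg : ∀ t ∈ g, j ∉ t.2 ∧ j' ∉ t.2) (hp : ∀ t ∈ p, t.2.count j = 2) (hp' : ∀ t ∈ p, j' ∉ t.2)
    (h : HH X L π g p) : HH X L (Function.update π j' (π j)) g (pol j j' p) := by
  intro v hv
  have hvj : v j ∈ Lp X L (π j) := by
    have := hv j; rwa [Function.update_of_ne hjj] at this
  have hvj' : v j' ∈ Lp X L (π j) := by
    have := hv j'; rwa [Function.update_self] at this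
  let u : ℕ → X.B := Function.update v j' 0
  have hu : ∀ z ∈ Lp X L (π j), ∀ i, Function.update u j z i ∈ Lp X L (π i) := by
    intro z hz i
    by_cases hi : i = j
    · subst hi; rw [Function.update_self]; exact hz
    · rw [Function.update_of_ne hi]
      by_cases hi' : i = j'
      · subst hi'; simp only [u, Function.update_self]; exact AddSubgroup.zero_mem _
      · simp only [u, Function.update_of_ne hi']
        have := hv i; rwa [Function.update_of_ne hi'] at this
  have hgz : ∀ z, ev (Function.update u j z) g = ev v g := by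
    intro z
    apply ev_congr
    intro t ht i hi
    have h1 : i ≠ j := by rintro rfl; exact (hg t ht).1 hi
    have h2 : i ≠ j' := by rintro rfl; exact (hg t ht).2 hi
    rw [Function.update_of_ne h1]
    simp only [u, Function.update_of_ne h2]
  have e1 := h _ (hu _ (AddSubgroup.add_mem _ hvj hvj'))
  have e2 := h _ (hu _ hvj)
  have e3 := h _ (hu _ hvj')
  rw [hgz] at e1 e2 e3
  rw [pol_two u (v j) (v j') hp hp' hjj, mul_add, mul_add, e2, e3, zero_add, zero_add] at e1
  have e4 : Function.update (Function.update u j (v j)) j' (v j') = v := by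
    funext i
    by_cases hi' : i = j'
    · subst hi'; rw [Function.update_self]
    · rw [Function.update_of_ne hi']
      by_cases hi : i = j
      · subst hi; rw [Function.update_self]
      · rw [Function.update_of_ne hi]; simp only [u, Function.update_of_ne hi']
  rwa [e4] at e1

lemma HH_polL {π : ℕ → Bool} {g p : Poly} {j j' : ℕ} (hjj : j ≠ j')
    (hp : ∀ t ∈ p, j ∉ t.2 ∧ j' ∉ t.2) (hg : ∀ t ∈ g, t.2.count j = 2) (hg' : ∀ t ∈ g, j' ∉ t.2)
    (h : HH X L π g p) : HH X L (Function.update π j' (π j)) (pol j j' g) p := by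
  intro v hv
  have hvj : v j ∈ Lp X L (π j) := by
    have := hv j; rwa [Function.update_of_ne hjj] at this
  have hvj' : v j' ∈ Lp X L (π j) := by
    have := hv j'; rwa [Function.update_self] at this
  let u : ℕ → X.B := Function.update v j' 0
  have hu : ∀ z ∈ Lp X L (π j), ∀ i, Function.update u j z i ∈ Lp X L (π i) := by
    intro z hz i
    by_cases hi : i = j
    · subst hi; rw [Function.update_self]; exact hz
    · rw [Function.update_of_ne hi]
      by_cases hi' : i = j'
      · subst hi'; simp only [u, Function.update_self]; exact AddSubgroup.zero_mem _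
      · simp only [u, Function.update_of_ne hi']
        have := hv i; rwa [Function.update_of_ne hi'] at this
  have hgz : ∀ z, ev (Function.update u j z) p = ev v p := by
    intro z
    apply ev_congr
    intro t ht i hi
    have h1 : i ≠ j := by rintro rfl; exact (hp t ht).1 hi
    have h2 : i ≠ j' := by rintro rfl; exact (hp t ht).2 hi
    rw [Function.update_of_ne h1]
    simp only [u, Function.update_of_ne h2]
  have e1 := h _ (hu _ (AddSubgroup.add_mem _ hvj hvj'))
  have e2 := h _ (hu _ hvj)
  have e3 := h _ (hu _ hvj')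
  rw [hgz] at e1 e2 e3
  rw [pol_two u (v j) (v j') hg hg' hjj, add_mul, add_mul, e2, e3, zero_add, zero_add] at e1
  have e4 : Function.update (Function.update u j (v j)) j' (v j') = v := by
    funext i
    by_cases hi' : i = j'
    · subst hi'; rw [Function.update_self]
    · rw [Function.update_of_ne hi']
      by_cases hi : i = j
      · subst hi; rw [Function.update_self]
      · rw [Function.update_of_ne hi]; simp only [u, Function.update_of_ne hi']
  rwa [e4] at e1

/-- the parameters `e_i` with distinct indices have nonzero product -/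
lemma faithful' (a : A) (S : List ℕ) (hS : S.Nodup) (hS8 : ∀ i ∈ S, i < 8)
    (h : X.ι a * wd X.e S = 0) : a = 0 := by
  apply X.faithful
  let S' := (List.range 8).filter (fun i => decide (i ∉ S))
  have hperm : (S ++ S').Perm (List.range 8) := by
    rw [List.perm_ext_iff_of_nodup]
    · intro i
      rw [List.mem_append, List.mem_filter, List.mem_range]
      constructor
      · rintro (h | h)
        · exact hS8 i h
        · exact h.1
      · intro hi
        by_cases h : i ∈ S
        · exact Or.inl h
        · exact Or.inr ⟨hi, by simpa using h⟩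
    · rw [List.nodup_append]
      refine ⟨hS, List.nodup_range.filter _, ?_⟩
      intro i hi j hj hij
      subst hij
      have := (List.mem_filter.mp hj).2
      simp at this
      exact this hi
    · exact List.nodup_range
  have h1 := wd_perm (fun _ => true) X.e (fun i j => by rw [X.anti i j]; simp) hperm
  have h2 : wd X.e (List.range 8) = sg (inv (fun _ => true) (List.range 8)) *
      (sg (inv (fun _ => true) (S ++ S')) * wd X.e (S ++ S')) := by
    rw [h1, ← mul_assoc, sg_sq, one_mul]
  rw [h2, wd_append, ← mul_assoc, ← mul_assoc, ← mul_assoc, mul_assoc (X.ι a), ← sg_xor,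
    ← sg_comm, mul_assoc (sg _), h]
  simp

lemma ev_uns {π : ℕ → Bool} (h3 : (3 : A) = 0) (l : ℕ → A) (m : ℕ → X.B)
    (hm : ∀ i, m i ∈ Mon X (π i)) {p : Poly} {W : List ℕ} (hp : ∀ t ∈ p, t.2.Perm W) :
    ev (fun i => X.ι (l i) * m i) p
      = X.ι (ev l (uns π p)) * (sg (inv π W) * wd m W) := by
  have hmm : ∀ i j, m i * m j = sg (π i && π j) * (m j * m i) := fun i j =>
    Mon_comm (hm i) (hm j)
  have hw : ∀ w : List ℕ, wd (fun i => X.ι (l i) * m i) w = X.ι (wd l w) * wd m w := by
    intro w
    induction w with
    | nil => simp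
    | cons a w ih =>
      rw [wd_cons, wd_cons, wd_cons, ih, map_mul]
      rw [mul_assoc, ← mul_assoc (m a), Mon_ι (hm a)]
      simp only [mul_assoc]
  induction p with
  | nil => simp [uns]
  | cons t p ih =>
    have h1 := wd_perm π m hmm (hp t List.mem_cons_self)
    have h2 : wd m t.2 = sg (inv π t.2) * (sg (inv π W) * wd m W) := by
      rw [← h1, ← mul_assoc, sg_sq, one_mul]
    have h4 : uns π (t :: p) = (if inv π t.2 then 2 * t.1 else t.1, t.2) :: uns π p := rfl
    rw [h4, ev_cons, ev_cons, ih (fun t' ht' => hp t' (List.mem_cons_of_mem _ ht')), map_add,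
      add_mul, hw, h2]
    congr 1
    have h5 : X.ι (((if inv π t.2 then 2 * t.1 else t.1 : ℕ) : A) * wd l t.2)
        = (t.1 : X.B) * (sg (inv π t.2) * X.ι (wd l t.2)) := by
      cases inv π t.2 with
      | false => simp
      | true =>
        simp only [if_true, sg_true]
        push_cast
        rw [two_eq h3]
        simp
    have h6 : X.ι (wd l t.2) * sg (inv π t.2) = sg (inv π t.2) * X.ι (wd l t.2) :=
      (sg_comm _ _).symm
    rw [h5, ← mul_assoc (X.ι (wd l t.2)), h6, ← mul_assoc]

/-- from multiplicity one super statements to statements in `A` -/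
lemma HH_final (h3 : (3 : A) = 0) {π : ℕ → Bool} {g p : Poly} {Wg Wp : List ℕ}
    (hg : ∀ t ∈ g, t.2.Perm Wg) (hp : ∀ t ∈ p, t.2.Perm Wp) (hW : (Wg ++ Wp).Nodup)
    (hlen : (Wg ++ Wp).length ≤ 8) (h : HH X L π g p) (l : ℕ → A) (hl : ∀ i, l i ∈ L) :
    ev l (uns π g) * ev l (uns π p) = 0 := by
  classical
  let idx : ℕ → ℕ := fun j => (Wg ++ Wp).idxOf j
  let m : ℕ → X.B := fun j => if π j then X.e (idx j) else 1
  have hm : ∀ i, m i ∈ Mon X (π i) := by
    intro i
    simp only [m]
    cases hπ : π i
    · exact ⟨[], by simp, by simp⟩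
    · exact ⟨[idx i], by simp, by simp⟩
  have hv := h (fun i => X.ι (l i) * m i) (fun i => AddSubgroup.subset_closure
    ⟨l i, hl i, m i, hm i, rfl⟩)
  rw [ev_uns h3 l m hm hg, ev_uns h3 l m hm hp] at hv
  have hMon : ∀ W : List ℕ, ∃ b, wd m W ∈ Mon X b := by
    intro W
    induction W with
    | nil => exact ⟨false, [], by simp, by simp⟩
    | cons a W ih =>
      obtain ⟨b, hb⟩ := ih
      exact ⟨_, by rw [wd_cons]; exact Mon_mul (hm a) hb⟩
  obtain ⟨bg, hbg⟩ := hMon Wg
  have h4 : X.ι (ev l (uns π g) * ev l (uns π p)) * wd m (Wg ++ Wp) = 0 := by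
    have : X.ι (ev l (uns π g)) * (sg (inv π Wg) * wd m Wg) *
        (X.ι (ev l (uns π p)) * (sg (inv π Wp) * wd m Wp))
        = (sg (inv π Wg) * sg (inv π Wp)) *
          (X.ι (ev l (uns π g) * ev l (uns π p)) * wd m (Wg ++ Wp)) := by
      rw [map_mul, wd_append]
      have c1 : wd m Wg * X.ι (ev l (uns π p)) = X.ι (ev l (uns π p)) * wd m Wg := Mon_ι hbg _
      generalize X.ι (ev l (uns π g)) = G at *
      generalize X.ι (ev l (uns π p)) = Q at *
      generalize wd m Wg = U at *
      generalize wd m Wp = V at *
      cases inv π Wg <;> cases inv π Wp <;> simp only [sg_true, sg_false, one_mul, mul_one,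
        neg_mul, mul_neg, neg_neg, neg_inj] <;>
      · rw [mul_assoc G U, ← mul_assoc U Q V, c1]; simp only [mul_assoc]
    rw [this] at hv
    have := congrArg (fun z => sg (inv π Wg) * sg (inv π Wp) * z) hv
    simp only [mul_zero] at this
    rw [← mul_assoc, ← sg_xor, sg_sq, one_mul] at this
    exact this
  have h5 : ∀ W : List ℕ, wd m W = wd X.e ((W.filter (fun j => π j)).map idx) := by
    intro W
    induction W with
    | nil => rfl
    | cons a W ih =>
      rw [wd_cons, ih]
      simp only [m]
      cases hπ : π a <;> simp [hπ]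
  rw [h5] at h4
  apply faithful' (X := X) _ _ _ _ h4
  · apply List.Nodup.map_on
    · intro x hx y hy hxy
      have hx' := (List.mem_filter.mp hx).1
      have hy' := (List.mem_filter.mp hy).1
      exact (List.idxOf_inj hx').mp hxy
    · exact hW.filter _
  · intro i hi
    rw [List.mem_map] at hi
    obtain ⟨j, hj, rfl⟩ := hi
    have hj' := (List.mem_filter.mp hj).1
    exact lt_of_lt_of_le (List.idxOf_lt_length_of_mem hj') hlen

end

end Pool.Agent.Lib.MP_107960_al.H95
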