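import Pool.Agent.Lib.MP_107960_al.H95.Polar

/-!
# Steps of the chain
-/

namespace Pool.Agent.Lib.MP_107960_al.H95

universe u

/-- equality of polynomials over `F_3` -/
noncomputable def eqv (p q : Poly) : Bool := P.isZ (P.add (ofPoly 1 p) (ofPoly 2 q))

lemma eqv_sound {R : Type u} [Ring R] (h3 : (3 : R) = 0) {p q : Poly} (h : eqv p q = true)
    (v : ℕ → R) : ev v p = ev v q := by
  have h1 := P.ev_isZ v h3 _ h
  rw [P.ev_add, ev_ofPoly, ev_ofPoly] at h1
  push_cast at h1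
  rw [two_eq h3] at h1
  rw [one_mul, neg_one_mul, ← sub_eq_add_neg] at h1
  exact sub_eq_zero.mp h1

section
variable {A : Type u} [Ring A] {L : AddSubgroup A}

lemma HH_of_check (hP : Pr A L) {Γ : List Poly} (hΓ : Md Γ L) (X : SExt A) {par : List Bool}
    {its : List (List Item)} {g p : Poly} (hc : check Γ par its (pmul g p) = true) :
    HH X L (pr par) g p := by
  intro v hv
  have h3 : (3 : X.B) = 0 := by
    have := congrArg X.ι hP.h3
    rwa [map_zero, map_ofNat] at this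
  have h := check_sound h3 hP.cl hΓ par its _ hc v hv
  rw [ev_pmul] at h
  exact h

lemma HH_of_checkj (hP : Pr A L) {Γ : List Poly} (hΓ : Md Γ L) (X : SExt A) {par : List Bool}
    {its : List (List Item)} {g p : Poly} (n : ℕ) (h0 : 0 < n)
    (hr : checkr n Γ par its (pmul g p) = true)
    (hj : ∀ j, j < n → checkj j Γ par its (pmul g p) = true) :
    HH X L (pr par) g p := by
  intro v hv
  have h3 : (3 : X.B) = 0 := by
    have := congrArg X.ι hP.h3
    rwa [map_zero, map_ofNat] at this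
  have h := checkj_sound h3 hP.cl hΓ par its _ n h0 hr hj v hv
  rw [ev_pmul] at h
  exact h

lemma HH_out (h3 : (3 : A) = 0) {X : SExt A} {π : ℕ → Bool} {g p : Poly} (Wg Wp : List ℕ)
    (hg : ∀ t ∈ g, t.2.Perm Wg) (hp : ∀ t ∈ p, t.2.Perm Wp) (hW : (Wg ++ Wp).Nodup)
    (hlen : (Wg ++ Wp).length ≤ 8) (h : HH X L π g p) (τ σ : ℕ → ℕ) (G Q : Poly)
    (hG : eqv (rl τ (uns π g)) G = true) (hQ : eqv (rl σ (uns π p)) Q = true)
    (l l' : ℕ → A) (hl : ∀ i, l i ∈ L) (hl' : ∀ i, l' i ∈ L) :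
    ev l G * ev l' Q = 0 := by
  classical
  let l0 : ℕ → A := fun j => if j ∈ Wg then l (τ j) else l' (σ j)
  have hl0 : ∀ i, l0 i ∈ L := by
    intro i
    simp only [l0]
    split_ifs
    · exact hl _
    · exact hl' _
  have key := HH_final h3 hg hp hW hlen h l0 hl0
  have huns : ∀ (q : Poly) (t : ℕ × List ℕ), t ∈ uns π q → ∃ s ∈ q, t.2 = s.2 := by
    intro q t ht
    unfold uns at ht
    rw [List.mem_map] at ht
    obtain ⟨s, hs, rfl⟩ := ht
    exact ⟨s, hs, rfl⟩
  have e1 : ev l0 (uns π g) = ev l G := by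
    rw [← eqv_sound h3 hG l, ev_rl]
    apply ev_congr
    intro t ht i hi
    obtain ⟨s, hs, hts⟩ := huns g t ht
    have : i ∈ Wg := (hg s hs).mem_iff.mp (hts ▸ hi)
    simp [l0, this]
  have e2 : ev l0 (uns π p) = ev l' Q := by
    rw [← eqv_sound h3 hQ l', ev_rl]
    apply ev_congr
    intro t ht i hi
    obtain ⟨s, hs, hts⟩ := huns p t ht
    have h1 : i ∈ Wp := (hp s hs).mem_iff.mp (hts ▸ hi)
    have h2 : i ∉ Wg := by
      intro h2
      have := List.nodup_append.mp hW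
      exact this.2.2 i h2 i h1 rfl
    simp [l0, h2]
  rw [← e1, ← e2]
  exact key

end

/-- decidable multilinearity -/
def mlB (W : List ℕ) (p : Poly) : Bool := p.all fun t => decide (t.2.Perm W)

lemma mlB_sound {W : List ℕ} {p : Poly} (h : mlB W p = true) : ∀ t ∈ p, t.2.Perm W := by
  intro t ht
  unfold mlB at h
  rw [List.all_eq_true] at h
  exact of_decide_eq_true (h t ht)

/-- decidable count -/
def cntB (n j : ℕ) (p : Poly) : Bool := p.all fun t => decide (t.2.count j = n)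

lemma cntB_sound {n j : ℕ} {p : Poly} (h : cntB n j p = true) : ∀ t ∈ p, t.2.count j = n := by
  intro t ht
  unfold cntB at h
  rw [List.all_eq_true] at h
  exact of_decide_eq_true (h t ht)

lemma cntB_zero {j : ℕ} {p : Poly} (h : cntB 0 j p = true) : ∀ t ∈ p, j ∉ t.2 := fun t ht =>
  List.count_eq_zero.mp (cntB_sound h t ht)

section
variable {A : Type u} [Ring A] {L : AddSubgroup A} {X : SExt A}

lemma HH_polR' {π : ℕ → Bool} {g p : Poly} (j j' : ℕ)
    (hc : (!(Nat.beq j j') && cntB 0 j g && cntB 0 j' g && cntB 2 j p && cntB 0 j' p) = true)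
    (h : HH X L π g p) : HH X L (Function.update π j' (π j)) g (pol j j' p) := by
  simp only [Bool.and_eq_true, Bool.not_eq_true'] at hc
  obtain ⟨⟨⟨⟨h1, h2⟩, h3⟩, h4⟩, h5⟩ := hc
  have hjj : j ≠ j' := by
    rintro rfl
    simp [Nat.beq_refl] at h1
  exact HH_polR hjj (fun t ht => ⟨cntB_zero h2 t ht, cntB_zero h3 t ht⟩) (cntB_sound h4)
    (cntB_zero h5) h

lemma HH_polL' {π : ℕ → Bool} {g p : Poly} (j j' : ℕ)
    (hc : (!(Nat.beq j j') && cntB 0 j p && cntB 0 j' p && cntB 2 j g && cntB 0 j' g) = true)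
    (h : HH X L π g p) : HH X L (Function.update π j' (π j)) (pol j j' g) p := by
  simp only [Bool.and_eq_true, Bool.not_eq_true'] at hc
  obtain ⟨⟨⟨⟨h1, h2⟩, h3⟩, h4⟩, h5⟩ := hc
  have hjj : j ≠ j' := by
    rintro rfl
    simp [Nat.beq_refl] at h1
  exact HH_polL hjj (fun t ht => ⟨cntB_zero h2 t ht, cntB_zero h3 t ht⟩) (cntB_sound h4)
    (cntB_zero h5) h

end

end Pool.Agent.Lib.MP_107960_al.H95
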