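import Mathlib

/-!
# Super extension and super evaluation of multilinear identities

`A` is a ring, `L` an additive subgroup of `A` closed under commutators.  `SExt A` is a ring `B`
containing `A` and anticommuting elements `e i` which commute with `A`.  `Lp L X π` is the even
(`π = false`) or odd (`π = true`) part of `L ⊗ Λ`.

`evS_zero`: a multilinear polynomial that vanishes on `L` vanishes, with the sign rule, on all
homogeneous elements of `L ⊗ Λ`.
-/

namespace Pool.Agent.Lib.MP_107960_al.H95

universe u

/-- value of a word -/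
def wd {R : Type u} [Monoid R] (v : ℕ → R) (w : List ℕ) : R := (w.map v).prod

/-- noncommutative polynomials: lists of (coefficient, word) -/
abbrev Poly := List (ℕ × List ℕ)

/-- value of a polynomial -/
def ev {R : Type u} [Ring R] (v : ℕ → R) (p : Poly) : R :=
  (p.map fun t => (t.1 : R) * wd v t.2).sum

/-- parity of the number of odd letters of the word smaller than `a` -/
def oc (π : ℕ → Bool) (a : ℕ) : List ℕ → Bool
  | [] => false
  | b :: w => xor (Nat.blt b a && π b) (oc π a w)

/-- parity of the number of inversions between odd letters -/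
def inv (π : ℕ → Bool) : List ℕ → Bool
  | [] => false
  | a :: w => xor (π a && oc π a w) (inv π w)

/-- sign -/
def sg {R : Type u} [Ring R] (b : Bool) : R := if b then -1 else 1

/-- value of a polynomial with the sign rule -/
def evS {R : Type u} [Ring R] (π : ℕ → Bool) (v : ℕ → R) (p : Poly) : R :=
  (p.map fun t => (t.1 : R) * (sg (inv π t.2) * wd v t.2)).sum

section basic
variable {R : Type u} [Ring R]

@[simp] lemma wd_nil (v : ℕ → R) : wd v [] = 1 := rfl
@[simp] lemma wd_cons (v : ℕ → R) (a : ℕ) (w : List ℕ) : wd v (a :: w) = v a * wd v w := by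
  simp [wd]
lemma wd_append (v : ℕ → R) (w w' : List ℕ) : wd v (w ++ w') = wd v w * wd v w' := by
  simp [wd]

@[simp] lemma ev_nil (v : ℕ → R) : ev v [] = 0 := rfl
@[simp] lemma ev_cons (v : ℕ → R) (t : ℕ × List ℕ) (p : Poly) :
    ev v (t :: p) = (t.1 : R) * wd v t.2 + ev v p := by simp [ev]
lemma ev_append (v : ℕ → R) (p q : Poly) : ev v (p ++ q) = ev v p + ev v q := by
  simp [ev]

@[simp] lemma evS_nil (π : ℕ → Bool) (v : ℕ → R) : evS π v [] = 0 := rfl
@[simp] lemma evS_cons (π : ℕ → Bool) (v : ℕ → R) (t : ℕ × List ℕ) (p : Poly) :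
    evS π v (t :: p) = (t.1 : R) * (sg (inv π t.2) * wd v t.2) + evS π v p := by simp [evS]

@[simp] lemma sg_false : sg (R := R) false = 1 := rfl
@[simp] lemma sg_true : sg (R := R) true = -1 := rfl

lemma sg_xor (a b : Bool) : sg (R := R) (xor a b) = sg a * sg b := by
  cases a <;> cases b <;> simp

lemma sg_comm (b : Bool) (x : R) : sg b * x = x * sg b := by
  cases b <;> simp

lemma sg_sq (b : Bool) : sg (R := R) b * sg b = 1 := by cases b <;> simp

lemma wd_congr {v v' : ℕ → R} {w : List ℕ} (h : ∀ i ∈ w, v i = v' i) : wd v w = wd v' w := by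
  unfold wd
  rw [List.map_congr_left h]

lemma wd_update_of_not_mem {v : ℕ → R} {w : List ℕ} {j : ℕ} (x : R) (h : j ∉ w) :
    wd (Function.update v j x) w = wd v w := by
  apply wd_congr
  intro i hi
  rw [Function.update_of_ne]
  rintro rfl
  exact h hi

lemma wd_update_add {v : ℕ → R} {w : List ℕ} {j : ℕ} (x y : R) (h : w.count j = 1) :
    wd (Function.update v j (x + y)) w
      = wd (Function.update v j x) w + wd (Function.update v j y) w := by
  induction w with
  | nil => simp at h
  | cons a w ih =>
    by_cases ha : a = j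
    · subst ha
      rw [List.count_cons_self] at h
      have h0 : a ∉ w := by
        rw [← List.count_eq_zero]; omega
      simp only [wd_cons, Function.update_self]
      rw [wd_update_of_not_mem _ h0, wd_update_of_not_mem _ h0, wd_update_of_not_mem _ h0]
      rw [add_mul]
    · rw [List.count_cons_of_ne ha] at h
      simp only [wd_cons, Function.update_of_ne ha]
      rw [ih h, mul_add]

lemma oc_perm (π : ℕ → Bool) (a : ℕ) {w w' : List ℕ} (h : w.Perm w') : oc π a w = oc π a w' := by
  induction h with
  | nil => rfl
  | cons x _ ih => simp [oc, ih]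
  | swap x y l =>
    simp only [oc]
    cases (Nat.blt x a && π x) <;> cases (Nat.blt y a && π y) <;> simp
  | trans _ _ ih1 ih2 => rw [ih1, ih2]

/-- reordering supercommuting elements -/
lemma wd_perm (π : ℕ → Bool) (m : ℕ → R)
    (hm : ∀ i j, m i * m j = sg (π i && π j) * (m j * m i)) {w w' : List ℕ} (h : w.Perm w') :
    sg (inv π w) * wd m w = sg (inv π w') * wd m w' := by
  induction h with
  | nil => rfl
  | @cons x l1 l2 hp ih =>
    simp only [inv, wd_cons, sg_xor]
    rw [oc_perm π x hp]
    calc sg (π x && oc π x l2) * sg (inv π l1) * (m x * wd m l1)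
        = sg (π x && oc π x l2) * (m x * (sg (inv π l1) * wd m l1)) := by
          rw [mul_assoc, ← mul_assoc (sg (inv π l1)), sg_comm (inv π l1) (m x), mul_assoc]
      _ = sg (π x && oc π x l2) * (m x * (sg (inv π l2) * wd m l2)) := by rw [ih]
      _ = _ := by
          rw [← mul_assoc (m x), ← sg_comm (inv π l2) (m x), mul_assoc (sg (inv π l2)),
            ← mul_assoc]
  | swap x y l =>
    by_cases hxy : x = y
    · subst hxy; rfl
    · simp only [inv, oc, wd_cons]
      have e1 : m y * (m x * wd m l) = sg (π y && π x) * (m x * (m y * wd m l)) := by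
        rw [← mul_assoc, hm y x, mul_assoc, mul_assoc]
      rw [e1, ← mul_assoc]
      congr 1
      rw [← sg_xor]
      congr 1
      have hb : Nat.blt x y = !(Nat.blt y x) := by
        rcases lt_or_gt_of_ne hxy with h | h
        · have h1 : Nat.blt x y = true := Nat.blt_eq.mpr h
          have h2 : Nat.blt y x = false := by
            rw [Bool.eq_false_iff]; intro h3; rw [Nat.blt_eq] at h3; omega
          rw [h1, h2]; rfl
        · have h1 : Nat.blt y x = true := Nat.blt_eq.mpr h
          have h2 : Nat.blt x y = false := by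
            rw [Bool.eq_false_iff]; intro h3; rw [Nat.blt_eq] at h3; omega
          rw [h1, h2]; rfl
      rw [hb]
      cases Nat.blt y x <;> cases π x <;> cases π y <;> cases oc π x l <;> cases oc π y l <;>
        cases inv π l <;> rfl
  | trans _ _ ih1 ih2 => rw [ih1, ih2]

end basic

/-- A ring containing `A` and anticommuting elements commuting with `A`. -/
structure SExt (A : Type u) [Ring A] where
  B : Type u
  [ringB : Ring B]
  ι : A →+* B
  e : ℕ → B
  comm : ∀ a i, e i * ι a = ι a * e i
  anti : ∀ i j, e i * e j = -(e j * e i)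
  faithful : ∀ a, ι a * wd e (List.range 8) = 0 → a = 0

attribute [instance] SExt.ringB

variable {A : Type u} [Ring A] (X : SExt A) (L : AddSubgroup A)

/-- monomials of the parameters with given parity -/
def Mon (π : Bool) : Set X.B := {m | ∃ s : List ℕ, (s.length % 2 = 1 ↔ π = true) ∧ m = wd X.e s}

variable {X L}

lemma e_wd (i : ℕ) (s : List ℕ) :
    X.e i * wd X.e s = (-1) ^ s.length * (wd X.e s * X.e i) := by
  induction s with
  | nil => simp
  | cons a s ih =>
    rw [wd_cons, ← mul_assoc, X.anti i a, neg_mul, mul_assoc, ih, List.length_cons, pow_succ]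
    have hc : Commute (X.e a) ((-1) ^ s.length) :=
      ((Commute.neg_one_right (X.e a)).pow_right _)
    rw [← mul_assoc (X.e a), hc.eq]
    noncomm_ring

lemma wd_wd (s t : List ℕ) :
    wd X.e s * wd X.e t = (-1) ^ (s.length * t.length) * (wd X.e t * wd X.e s) := by
  induction s with
  | nil => simp
  | cons a s ih =>
    rw [wd_cons, mul_assoc, ih]
    have hc : Commute (X.e a) ((-1) ^ (s.length * t.length)) :=
      ((Commute.neg_one_right (X.e a)).pow_right _)
    rw [← mul_assoc (X.e a), hc.eq, mul_assoc, ← mul_assoc (X.e a), e_wd a t,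
      List.length_cons, add_mul, one_mul, pow_add]
    have hc2 : Commute ((-1 : X.B) ^ (s.length * t.length)) ((-1) ^ t.length) :=
      ((Commute.refl _).pow_pow _ _)
    simp only [mul_assoc]

lemma neg_one_pow_parity (n m : ℕ) (π π' : Bool) (hn : n % 2 = 1 ↔ π = true)
    (hm : m % 2 = 1 ↔ π' = true) {R : Type u} [Ring R] :
    (-1 : R) ^ (n * m) = sg (π && π') := by
  have hpar : (n * m) % 2 = (n % 2) * (m % 2) % 2 := Nat.mul_mod n m 2
  cases π <;> cases π'
  · have h1 : n % 2 = 0 := by
      by_contra h; have := hn.mp (by omega); simp at this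
    simp only [Bool.and_self, sg_false]
    exact Even.neg_one_pow (Nat.even_iff.mpr (by rw [hpar, h1]; simp))
  · have h1 : n % 2 = 0 := by
      by_contra h; have := hn.mp (by omega); simp at this
    simp only [Bool.false_and, sg_false]
    exact Even.neg_one_pow (Nat.even_iff.mpr (by rw [hpar, h1]; simp))
  · have h1 : m % 2 = 0 := by
      by_contra h; have := hm.mp (by omega); simp at this
    simp only [Bool.and_false, sg_false]
    exact Even.neg_one_pow (Nat.even_iff.mpr (by rw [hpar, h1]; simp))
  · have h1 : n % 2 = 1 := hn.mpr rfl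
    have h2 : m % 2 = 1 := hm.mpr rfl
    simp only [Bool.and_self, sg_true]
    exact Odd.neg_one_pow (Nat.odd_iff.mpr (by rw [hpar, h1, h2]))

lemma Mon_comm {π π' : Bool} {m m' : X.B} (hm : m ∈ Mon X π) (hm' : m' ∈ Mon X π') :
    m * m' = sg (π && π') * (m' * m) := by
  obtain ⟨s, hs, rfl⟩ := hm
  obtain ⟨t, ht, rfl⟩ := hm'
  rw [wd_wd, neg_one_pow_parity s.length t.length π π' hs ht]

lemma Mon_mul {π π' : Bool} {m m' : X.B} (hm : m ∈ Mon X π) (hm' : m' ∈ Mon X π') :
    m * m' ∈ Mon X (xor π π') := by
  obtain ⟨s, hs, rfl⟩ := hm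
  obtain ⟨t, ht, rfl⟩ := hm'
  refine ⟨s ++ t, ?_, by rw [wd_append]⟩
  rw [List.length_append]
  cases π <;> cases π' <;> simp at hs ht ⊢ <;> omega

lemma wd_ι (a : A) (s : List ℕ) : wd X.e s * X.ι a = X.ι a * wd X.e s := by
  induction s with
  | nil => simp
  | cons i s ih => rw [wd_cons, mul_assoc, ih, ← mul_assoc, X.comm, mul_assoc]

lemma Mon_ι {π : Bool} {m : X.B} (hm : m ∈ Mon X π) (a : A) : m * X.ι a = X.ι a * m := by
  obtain ⟨s, -, rfl⟩ := hm
  exact wd_ι a s

lemma Mon_nonempty (π : Bool) : (Mon X π).Nonempty := by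
  cases π
  · exact ⟨_, [], by simp, rfl⟩
  · exact ⟨_, [0], by simp, rfl⟩

variable (X L)

/-- pure elements -/
def Pure (π : Bool) (b : X.B) : Prop := ∃ l ∈ L, ∃ m ∈ Mon X π, b = X.ι l * m

/-- homogeneous part of `L ⊗ Λ` -/
def Lp (π : Bool) : AddSubgroup X.B := AddSubgroup.closure {b | Pure X L π b}

variable {X L}

lemma pure_zero (π : Bool) : Pure X L π 0 := by
  obtain ⟨m, hm⟩ := Mon_nonempty (X := X) π
  exact ⟨0, L.zero_mem, m, hm, by simp⟩

lemma evS_pure {p : Poly} {W : List ℕ} (hp : ∀ t ∈ p, t.2.Perm W)
    (h : ∀ v : ℕ → A, (∀ i, v i ∈ L) → ev v p = 0) (π : ℕ → Bool) (b : ℕ → X.B)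
    (hb : ∀ i, Pure X L (π i) (b i)) : evS π b p = 0 := by
  choose l hl m hm hbm using hb
  have hmm : ∀ i j, m i * m j = sg (π i && π j) * (m j * m i) := fun i j =>
    Mon_comm (hm i) (hm j)
  have hw : ∀ w : List ℕ, wd b w = X.ι (wd l w) * wd m w := by
    intro w
    induction w with
    | nil => simp
    | cons a w ih =>
      rw [wd_cons, wd_cons, wd_cons, ih, hbm a, map_mul]
      rw [mul_assoc, ← mul_assoc (m a), Mon_ι (hm a)]
      simp only [mul_assoc]
  have key : evS π b p = X.ι (ev l p) * (sg (inv π W) * wd m W) := by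
    have : ∀ q : Poly, (∀ t ∈ q, t.2.Perm W) →
        evS π b q = X.ι (ev l q) * (sg (inv π W) * wd m W) := by
      intro q
      induction q with
      | nil => intro _; simp
      | cons t q ih =>
        intro hq
        rw [evS_cons, ev_cons, ih (fun t' ht' => hq t' (List.mem_cons_of_mem _ ht')), map_add,
          add_mul, hw]
        congr 1
        have h1 := wd_perm π m hmm (hq t List.mem_cons_self)
        rw [map_mul, map_natCast, ← h1, ← mul_assoc (sg (inv π t.2)), sg_comm, mul_assoc,
          mul_assoc]
    exact this p hp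
  rw [key, h l hl]
  simp

lemma evS_update_add {p : Poly} (π : ℕ → Bool) (b : ℕ → X.B) (j : ℕ)
    (hj : ∀ t ∈ p, t.2.count j = 1) (x y : X.B) :
    evS π (Function.update b j (x + y)) p
      = evS π (Function.update b j x) p + evS π (Function.update b j y) p := by
  induction p with
  | nil => simp
  | cons t p ih =>
    rw [evS_cons, evS_cons, evS_cons, ih (fun t' ht' => hj t' (List.mem_cons_of_mem _ ht')),
      wd_update_add x y (hj t List.mem_cons_self)]
    noncomm_ring

theorem evS_zero {p : Poly} {W : List ℕ} (hW : W.Nodup) (hp : ∀ t ∈ p, t.2.Perm W)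
    (h : ∀ v : ℕ → A, (∀ i, v i ∈ L) → ev v p = 0) (π : ℕ → Bool) (b : ℕ → X.B)
    (hb : ∀ i, b i ∈ Lp X L (π i)) : evS π b p = 0 := by
  classical
  -- generalize: a sublist of indices is allowed to be non pure
  have key : ∀ W' : List ℕ, W'.Nodup → (∀ i ∈ W', i ∈ W) → ∀ b : ℕ → X.B,
      (∀ i, b i ∈ Lp X L (π i)) → (∀ i, i ∉ W' → Pure X L (π i) (b i)) → evS π b p = 0 := by
    intro W'
    induction W' with
    | nil =>
      intro _ _ b _ hpure
      exact evS_pure hp h π b (fun i => hpure i (by simp))
    | cons j W' ih =>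
      intro hnd hsub b hb hpure
      rw [List.nodup_cons] at hnd
      have hj : ∀ t ∈ p, t.2.count j = 1 := by
        intro t ht
        rw [(hp t ht).count_eq]
        exact List.count_eq_one_of_mem hW (hsub j List.mem_cons_self)
      let g : X.B →+ X.B := AddMonoidHom.mk' (fun x => evS π (Function.update b j x) p)
        (fun x y => evS_update_add π b j hj x y)
      have hle : Lp X L (π j) ≤ g.ker := by
        unfold Lp
        rw [AddSubgroup.closure_le]
        intro x hx
        change evS π (Function.update b j x) p = 0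
        apply ih hnd.2 (fun i hi => hsub i (List.mem_cons_of_mem _ hi))
        · intro i
          by_cases hi : i = j
          · subst hi
            rw [Function.update_self]
            exact AddSubgroup.subset_closure hx
          · rw [Function.update_of_ne hi]; exact hb i
        · intro i hi
          by_cases hij : i = j
          · subst hij
            rw [Function.update_self]
            exact hx
          · rw [Function.update_of_ne hij]
            exact hpure i (by simp [hij, hi])
      have := hle (hb j)
      change evS π (Function.update b j (b j)) p = 0 at this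
      rwa [Function.update_eq_self] at this
  -- indices outside W do not matter
  let b' : ℕ → X.B := fun i => if i ∈ W then b i else 0
  have hcongr : ∀ q : Poly, (∀ t ∈ q, t.2.Perm W) → evS π b q = evS π b' q := by
    intro q
    induction q with
    | nil => intro _; rfl
    | cons t q ih =>
      intro hq
      rw [evS_cons, evS_cons, ih (fun t' ht' => hq t' (List.mem_cons_of_mem _ ht'))]
      congr 3
      apply wd_congr
      intro i hi
      have : i ∈ W := (hq t List.mem_cons_self).mem_iff.mp hi
      simp [b', this]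
  rw [hcongr p hp]
  apply key W hW (fun i hi => hi) b'
  · intro i
    by_cases hi : i ∈ W
    · simp only [b', hi, if_true]; exact hb i
    · simp only [b', hi, if_false]; exact AddSubgroup.zero_mem _
  · intro i hi
    simp only [b', hi, if_false]
    exact pure_zero _

/-- super bracket -/
def sb {R : Type u} [Ring R] (π π' : Bool) (a b : R) : R := a * b - sg (π && π') * (b * a)

lemma sb_mem (hL : ∀ x ∈ L, ∀ y ∈ L, x * y - y * x ∈ L) {π π' : Bool} {a b : X.B}
    (ha : a ∈ Lp X L π) (hb : b ∈ Lp X L π') : sb π π' a b ∈ Lp X L (xor π π') := by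
  have h1 : ∀ b : X.B, Pure X L π' b → ∀ a ∈ Lp X L π, sb π π' a b ∈ Lp X L (xor π π') := by
    rintro b ⟨l', hl', m', hm', rfl⟩ a ha
    unfold Lp at ha
    induction ha using AddSubgroup.closure_induction with
    | mem a ha =>
      obtain ⟨l, hl, m, hm, rfl⟩ := ha
      have : sb π π' (X.ι l * m) (X.ι l' * m') = X.ι (l * l' - l' * l) * (m * m') := by
        unfold sb
        rw [mul_assoc, ← mul_assoc m, Mon_ι hm, mul_assoc (X.ι l') m' _, ← mul_assoc m',
          Mon_ι hm', map_sub, map_mul, map_mul, sub_mul]
        congr 1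
        · simp only [mul_assoc]
        · rw [Mon_comm hm hm', sg_comm, sg_comm]
          simp only [mul_assoc]
      rw [this]
      exact AddSubgroup.subset_closure ⟨_, hL l hl l' hl', _, Mon_mul hm hm', rfl⟩
    | zero => unfold sb; simp
    | add x y _ _ hx hy =>
      have : sb π π' (x + y) (X.ι l' * m') = sb π π' x (X.ι l' * m') + sb π π' y (X.ι l' * m') := by
        unfold sb; noncomm_ring
      rw [this]; exact AddSubgroup.add_mem _ hx hy
    | neg x _ hx =>
      have : sb π π' (-x) (X.ι l' * m') = -sb π π' x (X.ι l' * m') := by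
        unfold sb; noncomm_ring
      rw [this]; exact AddSubgroup.neg_mem _ hx
  unfold Lp at hb
  induction hb using AddSubgroup.closure_induction with
  | mem b hb => exact h1 b hb a ha
  | zero => unfold sb; simp
  | add x y _ _ hx hy =>
    have : sb π π' a (x + y) = sb π π' a x + sb π π' a y := by
      unfold sb; noncomm_ring
    rw [this]; exact AddSubgroup.add_mem _ hx hy
  | neg x _ hx =>
    have : sb π π' a (-x) = -sb π π' a x := by
      unfold sb; noncomm_ring
    rw [this]; exact AddSubgroup.neg_mem _ hx

end Pool.Agent.Lib.MP_107960_al.H95
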